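import Mathlib
import Pool.Agent.Lib.MP_8d161d_ag.Sep

/-!
Norm forms for families with few proportional members, with an arbitrary growth function.
-/

open MvPolynomial Module

namespace Pool.Agent.Lib.GGL.SF

/-- the sequence of degrees -/
private def a1_bseq (φ : ℕ → ℕ) (m t : ℕ) : ℕ := φ^[m + 1 - t] 1

private lemma a1_top (φ : ℕ → ℕ) (m : ℕ) : a1_bseq φ m (m + 1) = 1 := by
  rw [a1_bseq, Nat.sub_self]
  rfl

private lemma a1_step {φ : ℕ → ℕ} {m t : ℕ} (h : t ≤ m) :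
    a1_bseq φ m t = φ (a1_bseq φ m (t + 1)) := by
  rw [a1_bseq, a1_bseq, show m + 1 - t = (m + 1 - (t + 1)) + 1 by omega,
    Function.iterate_succ_apply']

private lemma a1_iterate_pos {φ : ℕ → ℕ} (hφ : ∀ δ, 1 ≤ δ → δ ≤ φ δ) (k : ℕ) : 1 ≤ φ^[k] 1 := by
  induction k with
  | zero => exact le_rfl
  | succ k ih =>
    rw [Function.iterate_succ_apply']
    exact ih.trans (hφ _ ih)

private lemma a1_iterate_mono {φ : ℕ → ℕ} (hφ : ∀ δ, 1 ≤ δ → δ ≤ φ δ) {k l : ℕ} (h : k ≤ l) :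
    φ^[k] 1 ≤ φ^[l] 1 := by
  induction l, h using Nat.le_induction with
  | base => exact le_rfl
  | succ l _ ih =>
    rw [Function.iterate_succ_apply']
    exact ih.trans (hφ _ (a1_iterate_pos hφ l))

private lemma a1_pos {φ : ℕ → ℕ} (hφ : ∀ δ, 1 ≤ δ → δ ≤ φ δ) (m t : ℕ) : 1 ≤ a1_bseq φ m t :=
  a1_iterate_pos hφ _

private lemma a1_le {φ : ℕ → ℕ} (hφ : ∀ δ, 1 ≤ δ → δ ≤ φ δ) (m t : ℕ) (ht : 1 ≤ t) :
    a1_bseq φ m t ≤ a1_bseq φ m 1 :=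
  a1_iterate_mono hφ (by omega)

theorem exists_amb' (m N₀ : ℕ) (φ : ℕ → ℕ) (hφ : ∀ δ, 1 ≤ δ → δ ≤ φ δ) :
    ∃ Q : ℕ, ∀ (ι : Type) [Fintype ι] [DecidableEq ι] (p : ι → Fin (m + 1) → ℂ),
    (∀ j, p j ≠ 0) →
    (∀ j, ∀ S : Finset ι, (∀ j' ∈ S, ∃ c : ℂ, p j' = c • p j) → S.card ≤ N₀) →
    Q ≤ Fintype.card ι →
    ∃ (J : Finset ι) (t : ℕ) (x : ι → Fin (t + 1) → ℂ)
      (N : MvPolynomial (Fin (m + 1) ⊕ Fin (t + 1)) ℂ) (δ DY D : ℕ),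
      1 ≤ t ∧ t ≤ m ∧ 1 ≤ δ ∧ DY ≤ δ ∧ D ≤ δ * δ ∧ 2 * N₀ < J.card ∧
      IsWeightedHomogeneous (wY m t) N DY ∧ IsWeightedHomogeneous (wT m t) N D ∧
      (∀ y : Fin (m + 1) → ℂ, 2 * (J.filter fun j => p j ⬝ᵥ y = 0).card ≤ J.card → sp y N ≠ 0) ∧
      (∀ j ∈ J, DvdAt N (p j) (x j)) ∧
      ∀ g : MvPolynomial (Fin (t + 1)) ℂ, g.IsHomogeneous (φ δ) →
        (∀ j ∈ J, eval (x j) g = 0) → g = 0 := by
  refine ⟨2 ^ ((a1_bseq φ m 1 + 1) ^ (m + 1)) * ((a1_bseq φ m 1 + 3) * N₀) + 1, ?_⟩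
  intro ι _ _ p hp hcl hcard
  classical
  obtain ⟨J, hJcard, hirr⟩ := exists_irrD p (a1_bseq φ m 1)
  have hJ : (a1_bseq φ m 1 + 3) * N₀ < J.card := by
    by_contra hcon
    push Not at hcon
    have h1 : Fintype.card ι ≤
        2 ^ ((a1_bseq φ m 1 + 1) ^ (m + 1)) * ((a1_bseq φ m 1 + 3) * N₀) :=
      hJcard.trans (Nat.mul_le_mul_left _ hcon)
    omega
  have hJ1 : a1_bseq φ m 1 * N₀ < J.card := by
    refine lt_of_le_of_lt ?_ hJ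
    exact Nat.mul_le_mul_right _ (by omega)
  have hJ2 : 2 * N₀ < J.card := by
    refine lt_of_le_of_lt ?_ hJ
    exact Nat.mul_le_mul_right _ (by omega)
  obtain ⟨t, ht1, htn, ⟨θ, hθ⟩, hrel⟩ := exists_theta'' (a1_bseq φ m) (a1_top φ m)
    (fun j (_ : j ∈ J) => hp j) (fun j _ S _ hS => hcl j S hS) hJ1
  obtain ⟨δ, hδ⟩ : ∃ δ, δ = a1_bseq φ m (t + 1) := ⟨_, rfl⟩
  have hδpos : 1 ≤ δ := by rw [hδ]; exact a1_pos hφ _ _
  have hδB : δ ≤ a1_bseq φ m 1 := by rw [hδ]; exact a1_le hφ _ _ (by omega)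
  have hb : a1_bseq φ m t = φ δ := by rw [hδ]; exact a1_step htn
  obtain ⟨x, hx⟩ : ∃ x : ι → Fin (t + 1) → ℂ, x = fun j => pt θ (p j) := ⟨_, rfl⟩
  have hxp : ∀ l, Pd p 1 fun j => x j l := by
    intro l
    rw [hx]
    exact Pd.dot (θ l)
  have hdense : ∀ g : MvPolynomial (Fin (t + 1)) ℂ, g.IsHomogeneous (φ δ) →
      (∀ j ∈ J, eval (x j) g = 0) → g = 0 := by
    intro g hg hv
    apply hθ g (by rw [hb]; exact hg)
    intro j hj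
    have := hv j hj
    rwa [hx] at this
  have hθδ : Dense' p J θ δ := hθ.mono (by rw [hb]; exact hφ δ hδpos)
  have hdenseδ : ∀ g : MvPolynomial (Fin (t + 1)) ℂ, g.IsHomogeneous δ →
      (∀ j ∈ J, eval (x j) g = 0) → g = 0 := by
    intro g hg hv
    apply hθδ g hg
    intro j hj
    have := hv j hj
    rwa [hx] at this
  have hgen := exists_generic_relation (p := p) J x δ (by
    intro v
    obtain ⟨g, hg0, hgh, hgv⟩ := hrel (Fin.cons v θ)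
    refine ⟨g, hg0, ?_, ?_⟩
    · rw [hδ]; exact hgh
    · intro j hj
      have h1 := hgv j hj
      have h2 : pt (Fin.cons v θ : Fin (t + 1 + 1) → Fin (m + 1) → ℂ) (p j) =
          (Fin.cons (p j ⬝ᵥ v) (x j) : Fin (t + 1 + 1) → ℂ) := by
        funext l
        refine Fin.cases ?_ (fun l => ?_) l
        · rfl
        · rw [hx]
          rfl
      rw [← h2]
      exact h1)
  obtain ⟨y₀, D₁, F₁, E, hF1, hF2, hF3, hF4, hE1, hE2, hE3⟩ :=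
    exists_primitive_gen (p := p) hxp hirr hδB hdenseδ hgen
  obtain ⟨N, DY, D, hDY, hD, hNY, hNT, hNnz, hNv⟩ :=
    exists_norm_gen (Good := fun y => 2 * (J.filter fun j => p j ⬝ᵥ y = 0).card ≤ J.card)
      hF1 hF2 hF3 hdenseδ hF4 hE1 hE2 hE3
  exact ⟨J, t, x, N, δ, DY, D, ht1, htn, hδpos, hDY, hD, hJ2, hNY, hNT, hNnz,
    fun j hj => VanAt.dvdAt (hp j) (fun y hy => hNv j hj y hy), hdense⟩

end Pool.Agent.Lib.GGL.SF
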