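import Mathlib
import Pool.Agent.Lib.MP_8d161d_ag.Sep

/-!
Numbers.
-/

namespace Pool.Agent.Lib.GGL.SF

theorem choose_gap {K t k c : ℕ} (h : K * (c * t) ≤ k) :
    K * ((t + (k + c)).choose (k + c) - (t + k).choose k) ≤ (t + (k + c)).choose (k + c) := by
  have h1 := choose_step t k c
  have hle : (t + k).choose k ≤ (t + (k + c)).choose (k + c) := by
    rw [← Nat.choose_symm_add, ← Nat.choose_symm_add]
    exact Nat.choose_le_choose t (by omega)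
  obtain ⟨A, hA⟩ : ∃ A, A = (t + (k + c)).choose (k + c) := ⟨_, rfl⟩
  obtain ⟨C, hC⟩ : ∃ C, C = (t + k).choose k := ⟨_, rfl⟩
  rw [← hA, ← hC] at h1 hle
  rw [← hA, ← hC]
  obtain ⟨E, rfl⟩ := Nat.exists_eq_add_of_le hle
  rw [Nat.add_sub_cancel_left]
  have h2 : (k + 1) * E ≤ c * t * (C + E) := by nlinarith
  have h4 : (k + 1) * (K * E) ≤ (k + 1) * (C + E) := by
    calc (k + 1) * (K * E) = K * ((k + 1) * E) := by ring
      _ ≤ K * (c * t * (C + E)) := Nat.mul_le_mul_left _ h2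
      _ = (K * (c * t)) * (C + E) := by ring
      _ ≤ k * (C + E) := Nat.mul_le_mul_right _ h
      _ ≤ (k + 1) * (C + E) := Nat.mul_le_mul_right _ (by omega)
  exact Nat.le_of_mul_le_mul_left h4 (by omega)

/-- the numbers of one block -/
theorem block_numbers {t k D D' DY ed : ℕ} {ε : ℝ} (hε : 0 < ε)
    (hk : ⌈2 / ε⌉₊ * (DY + 1) * (3 * D * t) ≤ k) (hD' : D' ≤ D) :
    (1 - ε) * ed * ((t + (k + 3 * D)).choose (k + 3 * D) : ℝ) ≤
      ((ed * (t + (k + D')).choose (k + D') : ℕ) : ℝ) -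
        ((2 * (ed * DY) * ((t + (k + D')).choose (k + D') - (t + k).choose k) : ℕ) : ℝ) := by
  have hg := choose_gap (t := t) (k := k) (c := 3 * D) hk
  have hle1 : (t + k).choose k ≤ (t + (k + D')).choose (k + D') := by
    rw [← Nat.choose_symm_add, ← Nat.choose_symm_add]
    exact Nat.choose_le_choose t (by omega)
  have hle2 : (t + (k + D')).choose (k + D') ≤ (t + (k + 3 * D)).choose (k + 3 * D) := by
    rw [← Nat.choose_symm_add, ← Nat.choose_symm_add]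
    exact Nat.choose_le_choose t (by omega)
  obtain ⟨B, hB⟩ : ∃ B, B = (t + (k + 3 * D)).choose (k + 3 * D) := ⟨_, rfl⟩
  obtain ⟨A, hA⟩ : ∃ A, A = (t + (k + D')).choose (k + D') := ⟨_, rfl⟩
  obtain ⟨C, hC⟩ : ∃ C, C = (t + k).choose k := ⟨_, rfl⟩
  rw [← hB, ← hC] at hg
  rw [← hA, ← hC] at hle1
  rw [← hA, ← hB] at hle2
  rw [← hA, ← hB, ← hC]
  obtain ⟨E1, rfl⟩ := Nat.exists_eq_add_of_le hle1
  obtain ⟨E2, rfl⟩ := Nat.exists_eq_add_of_le hle2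
  rw [Nat.add_sub_cancel_left]
  rw [show C + E1 + E2 - C = E1 + E2 by omega] at hg
  have hg' : ((⌈2 / ε⌉₊ : ℝ) * ((DY : ℝ) + 1)) * ((E1 : ℝ) + E2) ≤ (C : ℝ) + E1 + E2 := by
    exact_mod_cast hg
  have hK : 2 / ε ≤ (⌈2 / ε⌉₊ : ℝ) := Nat.le_ceil _
  have hDY : (0 : ℝ) ≤ DY := Nat.cast_nonneg _
  have hE1 : (0 : ℝ) ≤ E1 := Nat.cast_nonneg _
  have hE2 : (0 : ℝ) ≤ E2 := Nat.cast_nonneg _
  have hed : (0 : ℝ) ≤ ed := Nat.cast_nonneg _
  have h5 : (2 / ε * ((DY : ℝ) + 1)) * ((E1 : ℝ) + E2) ≤ (C : ℝ) + E1 + E2 := by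
    refine le_trans ?_ hg'
    gcongr
  have h6 : 2 * ((DY : ℝ) + 1) * ((E1 : ℝ) + E2) ≤ ε * ((C : ℝ) + E1 + E2) := by
    have := mul_le_mul_of_nonneg_left h5 hε.le
    calc 2 * ((DY : ℝ) + 1) * ((E1 : ℝ) + E2)
        = ε * ((2 / ε * ((DY : ℝ) + 1)) * ((E1 : ℝ) + E2)) := by
          field_simp
      _ ≤ _ := this
  push_cast
  have h7 : 0 ≤ (DY : ℝ) * E2 := mul_nonneg hDY hE2
  have h8 : (1 - ε) * ((C : ℝ) + E1 + E2) ≤ ((C : ℝ) + E1) - 2 * DY * E1 := by nlinarith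
  calc (1 - ε) * ed * ((C : ℝ) + E1 + E2) = ed * ((1 - ε) * ((C : ℝ) + E1 + E2)) := by ring
    _ ≤ ed * (((C : ℝ) + E1) - 2 * DY * E1) := mul_le_mul_of_nonneg_left h8 hed
    _ = ed * ((C : ℝ) + E1) - 2 * (ed * DY) * E1 := by ring

end Pool.Agent.Lib.GGL.SF
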