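import Mathlib
import Pool.Agent.Lib.MP_8d161d_ag.Mg.G026
import Pool.Agent.Lib.MP_8d161d_ag.SM.Defs

/-!
Definitions for the second main theorem with truncation level one for arbitrary families of
hypersurface sections.
-/

open MvPolynomial Filter Topology

namespace Pool.Agent.Lib.GGL.SF

/-- Norm form data on a weighted cone, with a vector of proportional norm forms. -/
structure NDataV {n t : ℕ} {ι μ : Type*} (wt : Fin (n + 1) → ℕ)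
    (𝔣 : Set (MvPolynomial (Fin (n + 1)) ℂ)) (P : ι → MvPolynomial (Fin (n + 1)) ℂ)
    (x : ι → Fin (t + 1) → ℂ)
    (N : μ → MvPolynomial (Fin (n + 1) ⊕ Fin (t + 1)) ℂ) (a D b : ℕ) : Prop where
  wF : ∀ f ∈ 𝔣, ∃ e, IsWeightedHomogeneous wt f e
  homY : ∀ m, IsWeightedHomogeneous (wU wt t) (N m) a
  homT : ∀ m, IsWeightedHomogeneous (wT n t) (N m) D
  nz : ∀ y ∈ ZF 𝔣, n1 wt y ≠ 0 → ∃ m, sp y (N m) ≠ 0
  prop : ∀ y ∈ ZF 𝔣, ∀ (m m' : μ) (X X' : Fin (t + 1) → ℂ),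
    eval X (sp y (N m)) * eval X' (sp y (N m')) = eval X' (sp y (N m)) * eval X (sp y (N m'))
  dvd : ∀ m j, ∃ U, nx (N m) (x j) - P j * U ∈ 𝔣
  dense : ∀ g : MvPolynomial (Fin (t + 1)) ℂ, g.IsHomogeneous b → (∀ j, eval (x j) g = 0) → g = 0
  bd : ∃ K₀ : ℝ, ∀ y ∈ ZF 𝔣, n1 wt y = 1 → ‖y‖ ≤ K₀

/-- an entire curve on the cone of `I`, without zeros -/
def CurveIn {n : ℕ} (I : Ideal (MvPolynomial (Fin (n + 1)) ℂ)) (Y : ℂ → Fin (n + 1) → ℂ) : Prop :=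
  Differentiable ℂ Y ∧ (∀ z, Y z ≠ 0) ∧ ∀ z, ∀ g ∈ I, eval (Y z) g = 0

/-- the points of the curve are proportional -/
def PropConst {n : ℕ} (Y : ℂ → Fin (n + 1) → ℂ) : Prop := ∀ z w, ∃ c : ℂ, c ≠ 0 ∧ Y z = c • Y w

/-- The second main theorem for the forms `P j`, `j ∈ S`, with constant `A` and truncation level
one, for the curve `Y`. -/
def SMTI {n : ℕ} {ι : Type*} (P : ι → MvPolynomial (Fin (n + 1)) ℂ) (S : Finset ι) (A : ℝ)
    (Y : ℂ → Fin (n + 1) → ℂ) : Prop :=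
  ∃ (C : ℝ) (E : Set ℝ), 0 ≤ C ∧ MeasureTheory.volume E < ⊤ ∧ ∀ r : ℝ, 1 ≤ r → r ∉ E →
    A * SM.height Y r ≤ ∑ j ∈ S, SM.count1 (fun z => eval (Y z) (P j)) r +
      C * (Real.log r + Real.posLog (SM.height Y r) + 1)

end Pool.Agent.Lib.GGL.SF
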