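import Mathlib
import Pool.Agent.Lib.MP_8d161d_ag.SF.Defs
import Pool.Agent.Lib.MP_8d161d_ag.Mg.G027

/-!
The vector of norm forms over the field of rational functions of a cone.
-/

open MvPolynomial Module

namespace Pool.Agent.Lib.GGL.SF

/-- The vector of norm forms. -/
theorem exists_newV {n t : ℕ} {I : Ideal (MvPolynomial (Fin (n + 1)) ℂ)} [I.IsPrime]
    (hI : HomIdeal I)
    {N : MvPolynomial (Fin (n + 1) ⊕ Fin (t + 1)) ℂ} {a D ed b : ℕ}
    (homY : IsWeightedHomogeneous (wY n t) N a) (homT : IsWeightedHomogeneous (wT n t) N D)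
    (hN0 : sp (gen I) N ≠ 0) (ha : ed ≤ a)
    (hnz : ∀ y : Fin (n + 1) → ℂ, (∀ g ∈ I, eval y g = 0) → y ≠ 0 → sp y N ≠ 0)
    {J : Type} [Finite J]
    {P : J → MvPolynomial (Fin (n + 1)) ℂ} {x : J → Fin (t + 1) → ℂ}
    (hPh : ∀ j, (P j).IsHomogeneous ed) (hPI : ∀ j, P j ∉ I)
    (hrad : ∀ j, RedOn I (P j)) (hdvd : ∀ j, P j ∣ nx N (x j))
    (hdense : ∀ b' ≤ b, ∀ g : MvPolynomial (Fin (t + 1)) ℂ, g.IsHomogeneous b' →
      (∀ j, eval (x j) g = 0) → g = 0) (hDb : D ≤ b) :
    ∃ (N' D' : ℕ) (wt : Fin (N' + 1) → ℕ) (eY : Fin (n + 1) → Fin (N' + 1))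
      (v : Fin (N' + 1) → KK I) (μ : Type) (_ : Finite μ) (m₀ : μ)
      (F : μ → MvPolynomial (Fin (N' + 1) ⊕ Fin (t + 1)) ℂ),
      D' ≤ D ∧ (∀ i, wt (eY i) = 1) ∧ (∀ i, v (eY i) = gen I i) ∧
      (∀ i, IsIntegral (MvPolynomial (Fin (n + 1)) ℂ ⧸ I) (v i)) ∧
      Auto v wt ∧ NDataV wt (eqs v wt) (fun j => rename eY (P j)) x F a D' b ∧
      (∀ y ∈ ZF (eqs v wt), n1 wt y ≠ 0 → (fun i => y (eY i)) ≠ 0) ∧
      sp v (F m₀) ≠ 0 ∧ Squarefree (sp v (F m₀)) := by
  classical
  have := Fintype.ofFinite J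
  obtain ⟨D₁, D₂, G, G', u, hDD, hGh, hG'h, hG0, hG'0, hGsq, hNG, hu1, hu2, hauto⟩ :=
    exists_cofactor_data hI homY homT hN0 ha (Finset.univ : Finset J) (fun j _ => hPh j)
      (fun j _ => hPI j) (fun j _ => hrad j) (fun j _ => hdvd j)
  -- exponents
  obtain ⟨E₂, hE₂⟩ : ∃ E : Finset (Fin (t + 1) →₀ ℕ),
    E = Finset.finsuppAntidiag Finset.univ D₂ := ⟨_, rfl⟩
  have hmemE : ∀ m : Fin (t + 1) →₀ ℕ, m ∈ E₂ ↔ m.degree = D₂ := by
    intro m
    rw [hE₂, Finset.mem_finsuppAntidiag, Finsupp.degree_eq_sum]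
    simp
  have hcardE : Fintype.card E₂ ≤ (D + 1) ^ (t + 1) := by
    have h1 : ∀ m : E₂, ∀ i, (m : Fin (t + 1) →₀ ℕ) i < D + 1 := by
      intro m i
      have h2 := (hmemE m).mp m.2
      have h3 := Finsupp.le_degree i (m : Fin (t + 1) →₀ ℕ)
      omega
    have h2 := Fintype.card_le_of_injective
      (fun m : E₂ => fun i => (⟨(m : Fin (t + 1) →₀ ℕ) i, h1 m i⟩ : Fin (D + 1))) (by
        intro m m' hmm
        apply Subtype.ext
        ext i
        have := congrFun hmm i
        simpa using this)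
    simpa using h2
  -- variables
  let eU : (J × E₂) ⊕ Fin (n + 1) ≃ Fin (Fintype.card (J × E₂) + n + 1) :=
    Fintype.equivFinOfCardEq (by rw [Fintype.card_sum, Fintype.card_fin]; ring)
  obtain ⟨wt, hwt⟩ : ∃ wt : Fin (Fintype.card (J × E₂) + n + 1) → ℕ,
    wt = fun i => Sum.elim (fun _ => a - ed) (fun _ => 1) (eU.symm i) := ⟨_, rfl⟩
  obtain ⟨v, hv⟩ : ∃ v : Fin (Fintype.card (J × E₂) + n + 1) → KK I,
    v = fun i => Sum.elim (fun q : J × E₂ => u q.1 q.2) (gen I) (eU.symm i) := ⟨_, rfl⟩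
  obtain ⟨eY, heY⟩ : ∃ eY : Fin (n + 1) → Fin (Fintype.card (J × E₂) + n + 1),
    eY = fun i => eU (Sum.inr i) := ⟨_, rfl⟩
  have hwtY : ∀ i, wt (eY i) = 1 := by
    intro i
    rw [hwt, heY]
    simp
  have hwtU : ∀ q, wt (eU (Sum.inl q)) = a - ed := by
    intro q
    rw [hwt]
    simp
  have hvY : ∀ i, v (eY i) = gen I i := by
    intro i
    rw [hv, heY]
    simp
  have hvU : ∀ q, v (eU (Sum.inl q)) = u q.1 q.2 := by
    intro q
    rw [hv]
    simp
  have hvYf : (fun i => v (eY i)) = gen I := funext hvY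
  have hcases : ∀ i, (∃ q, i = eU (Sum.inl q)) ∨ ∃ k, i = eY k := by
    intro i
    rcases h : eU.symm i with q | k
    · left
      exact ⟨q, by rw [← h, Equiv.apply_symm_apply]⟩
    · right
      refine ⟨k, ?_⟩
      rw [heY]
      beta_reduce
      rw [← h, Equiv.apply_symm_apply]
  have hvint : ∀ i, IsIntegral (MvPolynomial (Fin (n + 1)) ℂ ⧸ I) (v i) := by
    intro i
    rcases hcases i with ⟨q, rfl⟩ | ⟨k, rfl⟩
    · rw [hvU]
      exact hu1 _ (Finset.mem_univ _) _
    · rw [hvY]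
      exact isIntegral_algebraMap
  have hAuto : Auto v wt := by
    intro l hl
    obtain ⟨s, hs1, hs2⟩ := hauto l hl
    refine ⟨s, fun i => ?_⟩
    rcases hcases i with ⟨q, rfl⟩ | ⟨k, rfl⟩
    · rw [hvU, hwtU]
      exact hs2 _ (Finset.mem_univ _) _
    · rw [hvY, hwtY, pow_one]
      exact hs1 _
  -- interpolation
  obtain ⟨H, L, -, hLh, -, hLI⟩ := exists_interp (d := D₁) x
    (fun Q hQ hv => hdense D₁ (by omega) Q hQ hv)
  have hGI : G = ∑ h : H, C (eval (fun i => algebraMap ℂ (KK I) (x h i)) G) *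
      map (algebraMap ℂ (KK I)) (L h) :=
    interp_map (fun j : H => x j) (fun j : H => L j) (fun Q hQ => by
      rw [Finset.sum_coe_sort H (fun j => eval (x j) Q • L j)]
      exact hLI Q hQ) hGh
  -- the forms
  obtain ⟨F, hF⟩ : ∃ F : E₂ → MvPolynomial (Fin (Fintype.card (J × E₂) + n + 1) ⊕
      Fin (t + 1)) ℂ,
    F = fun m => ∑ h : H, (rename (fun i => Sum.inl (eY i)) (P h) *
      X (Sum.inl (eU (Sum.inl ((h : J), m))))) *
      rename (fun i => Sum.inr (id i)) (L h) := ⟨_, rfl⟩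
  have hspF : ∀ {R : Type} [CommRing R] [Algebra ℂ R]
      (y : Fin (Fintype.card (J × E₂) + n + 1) → R) (m : E₂),
      sp y (F m) = ∑ h : H, (C (aeval (fun i => y (eY i)) (P h)) *
        C (y (eU (Sum.inl ((h : J), m))))) * map (algebraMap ℂ R) (L h) := by
    intro R _ _ y m
    rw [hF, map_sum]
    refine Finset.sum_congr rfl fun h _ => ?_
    rw [map_mul, map_mul, sp_rename_inl, sp_inl, sp_rename_inr, rename_id]
    rfl
  have hspv : ∀ m : E₂, sp v (F m) = C (coeff (m : Fin (t + 1) →₀ ℕ) G') * G := by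
    intro m
    rw [hspF, hvYf]
    conv_rhs => rw [hGI, Finset.mul_sum]
    refine Finset.sum_congr rfl fun h _ => ?_
    rw [hvU, ← C_mul, ← hu2 _ (Finset.mem_univ _), C_mul]
    ring
  obtain ⟨m₀, hm₀⟩ : ∃ m₀ : E₂, coeff (m₀ : Fin (t + 1) →₀ ℕ) G' ≠ 0 := by
    obtain ⟨m, hm⟩ : ∃ m, coeff m G' ≠ 0 := by
      by_contra hcon
      push Not at hcon
      exact hG'0 (MvPolynomial.ext _ _ fun m => by rw [hcon, coeff_zero])
    refine ⟨⟨m, ?_⟩, hm⟩
    rw [hmemE, Finsupp.degree_eq_weight_one]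
    exact hG'h hm
  have hsqf : Squarefree (sp v (F m₀)) := by
    rw [hspv]
    have hu : IsUnit (C (coeff (m₀ : Fin (t + 1) →₀ ℕ) G') :
        MvPolynomial (Fin (t + 1)) (KK I)) := (isUnit_iff_ne_zero.mpr hm₀).map C
    intro p hp
    exact hGsq p (hu.dvd_mul_left.mp hp)
  have hspv0 : sp v (F m₀) ≠ 0 := hsqf.ne_zero
  -- weighted homogeneity
  have hhomY : ∀ m, IsWeightedHomogeneous (wU wt t) (F m) a := by
    intro m
    rw [hF]
    refine IsWeightedHomogeneous.sum _ _ _ fun h _ => ?_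
    have e1 : IsWeightedHomogeneous (wU wt t)
        (rename (fun i => Sum.inl (eY i)) (P h) : MvPolynomial
          (Fin (Fintype.card (J × E₂) + n + 1) ⊕ Fin (t + 1)) ℂ) ed := by
      apply rename_isWeighted
      have h2 : (fun i => wU wt t (Sum.inl (eY i))) = 1 := by
        funext i
        exact hwtY i
      rw [h2]
      exact hPh h
    have e2 : IsWeightedHomogeneous (wU wt t)
        (X (Sum.inl (eU (Sum.inl ((h : J), m)))) : MvPolynomial
          (Fin (Fintype.card (J × E₂) + n + 1) ⊕ Fin (t + 1)) ℂ) (a - ed) := by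
      have h2 := isWeightedHomogeneous_X ℂ (wU wt t) (Sum.inl (eU (Sum.inl ((h : J), m))))
      have h3 : wU wt t (Sum.inl (eU (Sum.inl ((h : J), m)))) = a - ed := hwtU _
      rw [h3] at h2
      exact h2
    have e3 : IsWeightedHomogeneous (wU wt t)
        (rename (fun i => Sum.inr (id i)) (L h) : MvPolynomial
          (Fin (Fintype.card (J × E₂) + n + 1) ⊕ Fin (t + 1)) ℂ) 0 := by
      apply rename_isWeighted
      exact isWeighted_zero (fun _ => rfl) _
    have h5 := (e1.mul e2).mul e3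
    rwa [Nat.add_sub_cancel' ha, add_zero] at h5
  have hhomT : ∀ m, IsWeightedHomogeneous (wT (Fintype.card (J × E₂) + n) t) (F m) D₁ := by
    intro m
    rw [hF]
    refine IsWeightedHomogeneous.sum _ _ _ fun h _ => ?_
    have e1 : IsWeightedHomogeneous (wT (Fintype.card (J × E₂) + n) t)
        (rename (fun i => Sum.inl (eY i)) (P h) : MvPolynomial
          (Fin (Fintype.card (J × E₂) + n + 1) ⊕ Fin (t + 1)) ℂ) 0 := by
      apply rename_isWeighted
      exact isWeighted_zero (fun _ => rfl) _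
    have e2 : IsWeightedHomogeneous (wT (Fintype.card (J × E₂) + n) t)
        (X (Sum.inl (eU (Sum.inl ((h : J), m)))) : MvPolynomial
          (Fin (Fintype.card (J × E₂) + n + 1) ⊕ Fin (t + 1)) ℂ) 0 :=
      isWeightedHomogeneous_X ℂ (wT (Fintype.card (J × E₂) + n) t)
        (Sum.inl (eU (Sum.inl ((h : J), m))))
    have e3 : IsWeightedHomogeneous (wT (Fintype.card (J × E₂) + n) t)
        (rename (fun i => Sum.inr (id i)) (L h) : MvPolynomial
          (Fin (Fintype.card (J × E₂) + n + 1) ⊕ Fin (t + 1)) ℂ) D₁ := by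
      apply rename_isWeighted
      exact hLh h
    have h5 := (e1.mul e2).mul e3
    rwa [zero_add, zero_add] at h5
  -- the specialisation of the second group
  obtain ⟨F₂, hF₂⟩ : ∃ F₂ : MvPolynomial (Fin (Fintype.card (J × E₂) + n + 1) ⊕
      Fin (t + 1)) ℂ,
    F₂ = (∑ h : H, ∑ m : E₂, (rename (fun i => Sum.inl (eY i)) (P h) *
      X (Sum.inl (eU (Sum.inl ((h : J), m))))) *
      (rename (fun i => Sum.inr (id i)) (L h) *
        rename (fun i => Sum.inr (id i)) (monomial (m : Fin (t + 1) →₀ ℕ) (1 : ℂ)))) -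
      rename (Sum.map eY id) N := ⟨_, rfl⟩
  have hspF₂ : ∀ {R : Type} [CommRing R] [Algebra ℂ R]
      (y : Fin (Fintype.card (J × E₂) + n + 1) → R),
      sp y F₂ = (∑ h : H, ∑ m : E₂, (C (aeval (fun i => y (eY i)) (P h)) *
        C (y (eU (Sum.inl ((h : J), m))))) *
        (map (algebraMap ℂ R) (L h) * monomial (m : Fin (t + 1) →₀ ℕ) (1 : R))) -
        sp (fun i => y (eY i)) N := by
    intro R _ _ y
    rw [hF₂, map_sub, map_sum, sp_rename_map]
    congr 1
    refine Finset.sum_congr rfl fun h _ => ?_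
    rw [map_sum]
    refine Finset.sum_congr rfl fun m _ => ?_
    rw [map_mul, map_mul, map_mul, sp_rename_inl, sp_inl, sp_rename_inr, sp_rename_inr,
      rename_id, map_monomial, map_one]
    rfl
  have hspv₂ : sp v F₂ = 0 := by
    rw [hspF₂, hvYf, hNG, sub_eq_zero, Finset.sum_comm]
    have h1 : G' = ∑ m : E₂, C (coeff (m : Fin (t + 1) →₀ ℕ) G') *
        monomial (m : Fin (t + 1) →₀ ℕ) (1 : KK I) := by
      conv_lhs => rw [G'.as_sum]
      have h2 : G'.support ⊆ E₂ := by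
        intro d hd
        rw [hmemE, Finsupp.degree_eq_weight_one]
        exact hG'h (mem_support_iff.mp hd)
      rw [Finset.sum_subset h2, ← Finset.sum_coe_sort E₂]
      · refine Finset.sum_congr rfl fun m _ => ?_
        rw [C_mul_monomial, mul_one]
      · intro d _ hd
        rw [notMem_support_iff.mp hd, monomial_zero]
    conv_rhs => rw [h1, Finset.mul_sum]
    refine Finset.sum_congr rfl fun m _ => ?_
    conv_rhs => rw [hGI, Finset.sum_mul]
    refine Finset.sum_congr rfl fun h _ => ?_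
    rw [hvU, ← C_mul, ← hu2 _ (Finset.mem_univ _), C_mul]
    ring
  have hhomY₂ : IsWeightedHomogeneous (wU wt t) F₂ a := by
    rw [hF₂]
    apply IsWeightedHomogeneous.sub
    · refine IsWeightedHomogeneous.sum _ _ _ fun h _ =>
        IsWeightedHomogeneous.sum _ _ _ fun m _ => ?_
      have e1 : IsWeightedHomogeneous (wU wt t)
          (rename (fun i => Sum.inl (eY i)) (P h) : MvPolynomial
            (Fin (Fintype.card (J × E₂) + n + 1) ⊕ Fin (t + 1)) ℂ) ed := by
        apply rename_isWeighted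
        have h2 : (fun i => wU wt t (Sum.inl (eY i))) = 1 := by
          funext i
          exact hwtY i
        rw [h2]
        exact hPh h
      have e2 : IsWeightedHomogeneous (wU wt t)
          (X (Sum.inl (eU (Sum.inl ((h : J), m)))) : MvPolynomial
            (Fin (Fintype.card (J × E₂) + n + 1) ⊕ Fin (t + 1)) ℂ) (a - ed) := by
        have h2 := isWeightedHomogeneous_X ℂ (wU wt t) (Sum.inl (eU (Sum.inl ((h : J), m))))
        have h3 : wU wt t (Sum.inl (eU (Sum.inl ((h : J), m)))) = a - ed := hwtU _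
        rw [h3] at h2
        exact h2
      have e3 : ∀ Q : MvPolynomial (Fin (t + 1)) ℂ, IsWeightedHomogeneous (wU wt t)
          (rename (fun i => Sum.inr (id i)) Q : MvPolynomial
            (Fin (Fintype.card (J × E₂) + n + 1) ⊕ Fin (t + 1)) ℂ) 0 := by
        intro Q
        apply rename_isWeighted
        exact isWeighted_zero (fun _ => rfl) _
      have h5 := (e1.mul e2).mul ((e3 (L h)).mul (e3 (monomial (m : Fin (t + 1) →₀ ℕ) (1 : ℂ))))
      rwa [Nat.add_sub_cancel' ha] at h5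
    · apply rename_isWeighted
      have h2 : (fun i => wU wt t (Sum.map eY id i)) = wY n t := by
        funext i
        rcases i with i | i
        · exact hwtY i
        · rfl
      rw [h2]
      exact homY
  -- points of the cone
  have hrenY : ∀ g : MvPolynomial (Fin (n + 1)) ℂ, aeval v (rename eY g) = aeval (gen I) g := by
    intro g
    rw [aeval_rename]
    have h1 : v ∘ eY = gen I := hvYf
    rw [h1]
  have hevY : ∀ (y : Fin (Fintype.card (J × E₂) + n + 1) → ℂ) (g : MvPolynomial (Fin (n + 1)) ℂ),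
      eval y (rename eY g) = eval (fun i => y (eY i)) g := by
    intro y g
    rw [eval_rename]
    rfl
  have hZI : ∀ y ∈ ZF (eqs v wt), ∀ g ∈ I, eval (fun i => y (eY i)) g = 0 := by
    intro y hy g hg
    rw [← hevY]
    apply eval_eq_zero_of_mem hAuto hy
    rw [hrenY, aeval_gen_eq_zero]
    exact hg
  -- integral equations
  have hinteq : ∀ i, ∃ (r : ℕ) (c : ℕ → MvPolynomial (Fin (n + 1)) ℂ), 0 < r ∧
      ∀ y ∈ ZF (eqs v wt),
        y i ^ r + ∑ k ∈ Finset.range r, eval (fun i => y (eY i)) (c k) * y i ^ k = 0 := by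
    intro i
    obtain ⟨r, c, hr, hrc⟩ := exists_integral_eq (hvint i)
    refine ⟨r, c, hr, ?_⟩
    intro y hy
    have h1 : aeval v (X i ^ r + ∑ k ∈ Finset.range r, rename eY (c k) * X i ^ k) = 0 := by
      rw [map_add, map_pow, aeval_X, map_sum, ← hrc]
      congr 1
      refine Finset.sum_congr rfl fun k _ => ?_
      rw [map_mul, map_pow, aeval_X, hrenY]
    have h2 := eval_eq_zero_of_mem hAuto hy h1
    rw [map_add, map_pow, eval_X, map_sum] at h2
    rw [← h2]
    congr 1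
    refine Finset.sum_congr rfl fun k _ => ?_
    rw [map_mul, map_pow, eval_X, hevY]
  have hwF : ∀ f ∈ eqs v wt, ∃ e, IsWeightedHomogeneous wt f e := fun f hf => hf.2
  have hnY : ∀ y ∈ ZF (eqs v wt), n1 wt y ≠ 0 → (fun i => y (eY i)) ≠ 0 := by
    intro y hy hy1 h0
    apply hy1
    have h1 : (fun i : {i // wt i = 1} => y i) = 0 := by
      funext ⟨i, hi⟩
      rw [Pi.zero_apply]
      rcases hcases i with ⟨q, rfl⟩ | ⟨k, rfl⟩
      · by_contra hne
        obtain ⟨r, c, hr, hrc⟩ := hinteq (eU (Sum.inl q))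
        obtain ⟨C₀, hC₀⟩ : ∃ C₀ : ℝ, C₀ = 1 + ∑ k ∈ Finset.range r,
          ‖eval (0 : Fin (n + 1) → ℂ) (c k)‖ := ⟨_, rfl⟩
        have hC1 : 1 ≤ C₀ := by
          rw [hC₀]
          have : 0 ≤ ∑ k ∈ Finset.range r, ‖eval (0 : Fin (n + 1) → ℂ) (c k)‖ :=
            Finset.sum_nonneg fun _ _ => norm_nonneg _
          linarith
        have hCk : ∀ k, k < r → ‖eval (0 : Fin (n + 1) → ℂ) (c k)‖ ≤ C₀ := by
          intro k hk
          rw [hC₀]
          have := Finset.single_le_sum (f := fun k => ‖eval (0 : Fin (n + 1) → ℂ) (c k)‖)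
            (fun _ _ => norm_nonneg _) (Finset.mem_range.mpr hk)
          linarith
        have hall : ∀ l : ℂ, ‖l * y (eU (Sum.inl q))‖ ≤ r * C₀ := by
          intro l
          have h2 := hrc _ (sc_mem_ZF hwF (l := l) hy)
          have h3 : (fun i => sc wt l y (eY i)) = 0 := by
            funext i
            rw [sc, congrFun h0 i, Pi.zero_apply, mul_zero]
          have h4 : sc wt l y (eU (Sum.inl q)) = l * y (eU (Sum.inl q)) := by
            rw [sc, hi, pow_one]
          rw [h3, h4] at h2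
          exact root_bound hr hC1 hCk h2
        have h5 := hall (((r * C₀ + 1 : ℝ) : ℂ) / y (eU (Sum.inl q)))
        rw [div_mul_cancel₀ _ hne, Complex.norm_real, Real.norm_eq_abs] at h5
        have h6 := le_abs_self (r * C₀ + 1)
        linarith
      · exact congrFun h0 k
    rw [n1, h1, norm_zero]
  have hsum : ∀ y : Fin (Fintype.card (J × E₂) + n + 1) → ℂ,
      ∑ m : E₂, sp y (F m) * monomial (m : Fin (t + 1) →₀ ℕ) (1 : ℂ) =
        sp y F₂ + sp (fun i => y (eY i)) N := by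
    intro y
    rw [hspF₂, sub_add_cancel, Finset.sum_comm]
    refine Finset.sum_congr rfl fun m _ => ?_
    rw [hspF, Finset.sum_mul]
    refine Finset.sum_congr rfl fun h _ => ?_
    rw [mul_assoc]
  have hNZ : ∀ y ∈ ZF (eqs v wt), n1 wt y ≠ 0 → ∃ m, sp y (F m) ≠ 0 := by
    intro y hy hy1
    by_contra hcon
    push Not at hcon
    apply hnz (fun i => y (eY i)) (hZI y hy) (hnY y hy hy1)
    have h1 := hsum y
    rw [sp_eq_zero_of_mem hhomY₂ hspv₂ hy, zero_add] at h1
    rw [← h1]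
    exact Finset.sum_eq_zero fun m _ => by rw [hcon m, zero_mul]
  have hBD : ∃ K₀ : ℝ, ∀ y ∈ ZF (eqs v wt), n1 wt y = 1 → ‖y‖ ≤ K₀ := by
    have h1 : ∀ i, ∃ K : ℝ, 0 ≤ K ∧ ∀ y ∈ ZF (eqs v wt), n1 wt y = 1 → ‖y i‖ ≤ K := by
      intro i
      obtain ⟨r, c, hr, hrc⟩ := hinteq i
      have h2 : ∀ k, ∃ Ck : ℝ, 0 ≤ Ck ∧ ∀ z : Fin (n + 1) → ℂ, ‖z‖ ≤ 1 → ‖eval z (c k)‖ ≤ Ck := by
        intro k
        have hcont : Continuous fun z : Fin (n + 1) → ℂ => ‖eval z (c k)‖ :=
          (continuous_eval (c k)).norm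
        obtain ⟨Ck, hCk⟩ := ((isCompact_closedBall (0 : Fin (n + 1) → ℂ) 1).image hcont).bddAbove
        refine ⟨max Ck 0, le_max_right _ _, ?_⟩
        intro z hz
        exact (hCk ⟨z, by rwa [mem_closedBall_zero_iff], rfl⟩).trans (le_max_left _ _)
      choose Ck hCk0 hCk using h2
      obtain ⟨C₀, hC₀⟩ : ∃ C₀ : ℝ, C₀ = 1 + ∑ k ∈ Finset.range r, Ck k := ⟨_, rfl⟩
      have hC1 : 1 ≤ C₀ := by
        rw [hC₀]
        have : 0 ≤ ∑ k ∈ Finset.range r, Ck k := Finset.sum_nonneg fun _ _ => hCk0 _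
        linarith
      refine ⟨r * C₀, by positivity, ?_⟩
      intro y hy hy1
      apply root_bound hr hC1 _ (hrc y hy)
      intro k hk
      have h3 : ‖fun i => y (eY i)‖ ≤ 1 := by
        rw [pi_norm_le_iff_of_nonneg zero_le_one]
        intro i
        rw [← hy1]
        exact norm_le_n1 wt y (hwtY i)
      refine (hCk k _ h3).trans ?_
      rw [hC₀]
      have := Finset.single_le_sum (f := Ck) (fun _ _ => hCk0 _) (Finset.mem_range.mpr hk)
      linarith
    choose K hK0 hK using h1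
    refine ⟨∑ i, K i, ?_⟩
    intro y hy hy1
    rw [pi_norm_le_iff_of_nonneg (Finset.sum_nonneg fun i _ => hK0 i)]
    intro i
    exact (hK i y hy hy1).trans (Finset.single_le_sum (f := K) (fun i _ => hK0 i)
      (Finset.mem_univ i))
  have hPROP : ∀ y ∈ ZF (eqs v wt), ∀ (m m' : E₂) (X₁ X₂ : Fin (t + 1) → ℂ),
      eval X₁ (sp y (F m)) * eval X₂ (sp y (F m')) =
        eval X₂ (sp y (F m)) * eval X₁ (sp y (F m')) := by
    intro y hy m m' X₁ X₂
    have h1 : aeval v (nx (F m) X₁ * nx (F m') X₂ - nx (F m) X₂ * nx (F m') X₁) = 0 := by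
      rw [map_sub, map_mul, map_mul, aeval_nx, aeval_nx, aeval_nx, aeval_nx, hspv, hspv,
        map_mul, map_mul, map_mul, map_mul, eval_C, eval_C, eval_C, eval_C]
      ring
    have h2 := eval_eq_zero_of_mem hAuto hy h1
    rw [map_sub, map_mul, map_mul, eval_nx, eval_nx, eval_nx, eval_nx, sub_eq_zero] at h2
    exact h2
  have hDVD : ∀ (m : E₂) (j : J), ∃ U, nx (F m) (x j) - rename eY (P j) * U ∈ eqs v wt := by
    intro m j
    refine ⟨X (eU (Sum.inl (j, m))), ?_, a, ?_⟩
    · rw [map_sub, aeval_nx, hspv, map_mul, map_mul, hrenY, sub_eq_zero, eval_C, aeval_X, hvU,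
        ← hu2 _ (Finset.mem_univ _), mul_comm]
    · apply IsWeightedHomogeneous.sub (nx_weighted (hhomY m) _)
      have e1 : IsWeightedHomogeneous wt (rename eY (P j)) ed := by
        apply rename_isWeighted
        have h2 : (fun i => wt (eY i)) = 1 := by
          funext i
          exact hwtY i
        rw [h2]
        exact hPh j
      have e2 : IsWeightedHomogeneous wt (X (eU (Sum.inl (j, m))) :
            MvPolynomial (Fin (Fintype.card (J × E₂) + n + 1)) ℂ) (a - ed) := by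
        have h2 := isWeightedHomogeneous_X ℂ wt (eU (Sum.inl (j, m)))
        rw [hwtU] at h2
        exact h2
      have h3 := e1.mul e2
      rwa [Nat.add_sub_cancel' ha] at h3
  exact ⟨Fintype.card (J × E₂) + n, D₁, wt, eY, v, E₂, inferInstance, m₀, F, by omega, hwtY, hvY,
    hvint, hAuto, ⟨hwF, hhomY, hhomT, hNZ, hPROP, hDVD, hdense b le_rfl, hBD⟩, hnY, hspv0, hsqf⟩

end Pool.Agent.Lib.GGL.SF
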