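import Mathlib
import Pool.Agent.Lib.MP_8d161d_ag.SF.Defs
import Pool.Agent.Lib.MP_8d161d_ag.Mg.G028

/-!
The global lift of an entire curve to the weighted cone.
-/

open MvPolynomial Filter Topology

namespace Pool.Agent.Lib.GGL.SF

/-- The global lift. -/
theorem exists_global_lift {n N : ℕ} {wt : Fin (N + 1) → ℕ} {eY : Fin (n + 1) → Fin (N + 1)}
    {I : Ideal (MvPolynomial (Fin (n + 1)) ℂ)} [I.IsPrime] {v : Fin (N + 1) → KK I}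
    {e : Fin (N + 1) → ℕ} {c A : Fin (N + 1) → MvPolynomial (Fin (n + 1)) ℂ}
    (h : Denom I wt v e c A) (hwt : ∀ i, wt (eY i) = 1)
    (hv : ∀ i, v (eY i) = gen I i) (hA : Auto v wt)
    (hint : ∀ i, IsIntegral (MvPolynomial (Fin (n + 1)) ℂ ⧸ I) (v i))
    {Y : ℂ → Fin (n + 1) → ℂ} (hY : CurveIn I Y) (hYc : ∀ i, ∃ z, eval (Y z) (c i) ≠ 0) :
    ∃ Y' : ℂ → Fin (N + 1) → ℂ, Differentiable ℂ Y' ∧ (∀ z, Y' z ∈ ZF (eqs v wt)) ∧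
      (∀ z k, Y' z (eY k) = Y z k) ∧
      ∀ z i, eval (Y z) (c i) * Y' z i = eval (Y z) (A i) := by
  obtain ⟨hYd, hY0, hYI⟩ := hY
  have hYan : ∀ z, AnalyticAt ℂ Y z := fun z => hYd.analyticAt z
  have hL : LiftFamily fun _ : ℂ => Y := by
    refine ⟨hYan, hY0, fun z₁ => Filter.Eventually.of_forall fun z => ?_⟩
    exact ⟨fun _ => 1, analyticAt_const, one_ne_zero, Filter.Eventually.of_forall fun w => by
      rw [one_smul]⟩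
  have hcan : ∀ i z, AnalyticAt ℂ (fun z => eval (Y z) (c i)) z :=
    fun i z => analyticAt_eval (hYan z) (c i)
  have hYc' : ∀ i z₁, ¬ ∀ᶠ z in 𝓝 z₁, eval (Y z) (c i) = 0 := by
    intro i z₁ hz
    obtain ⟨z₂, hz₂⟩ := hYc i
    apply hz₂
    have h1 : AnalyticOnNhd ℂ (fun z => eval (Y z) (c i)) Set.univ := fun z _ => hcan i z
    have h2 := h1.eqOn_zero_of_preconnected_of_eventuallyEq_zero isPreconnected_univ
      (Set.mem_univ z₁) hz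
    exact h2 (Set.mem_univ z₂)
  obtain ⟨Y', ⟨hY'an, -, -⟩, hZF, hcoord, hu⟩ := h.exists_lift hwt hv hA hint hL
    (fun z₁ => Filter.Eventually.of_forall fun z => hYI z) hYc'
  have key : ∀ z₁, ∀ᶠ z in 𝓝 z₁, Y' z z = Y' z₁ z := by
    intro z₁
    filter_upwards [(hu z₁).eventually_nhds, (hY'an z₁).eventually_analyticAt] with z h1 h2
    funext i
    have h3 : AnalyticAt ℂ (fun w => Y' z w i - Y' z₁ w i) z :=
      ((analyticAt_pi_iff.mp (hY'an z)) i).sub ((analyticAt_pi_iff.mp h2) i)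
    have h4 : ∀ᶠ w in 𝓝[≠] z, eval (Y w) (c i) ≠ 0 := by
      rcases (hcan i z).eventually_eq_zero_or_eventually_ne_zero with h5 | h5
      · exact absurd h5 (hYc' i z)
      · exact h5
    rcases h3.eventually_eq_zero_or_eventually_ne_zero with h5 | h5
    · exact sub_eq_zero.mp h5.self_of_nhds
    · exfalso
      obtain ⟨w, g1, g2, g3, g4⟩ := (h5.and (h4.and
        (((hu z).filter_mono nhdsWithin_le_nhds).and
          (h1.filter_mono nhdsWithin_le_nhds)))).exists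
      apply g1
      have e1 := g3 i
      have e2 := g4 i
      rw [sub_eq_zero]
      apply mul_left_cancel₀ g2
      rw [e1, e2]
  refine ⟨fun z => Y' z z, ?_, fun z => (hZF z).self_of_nhds,
    fun z k => (hcoord z).self_of_nhds k, fun z i => (hu z).self_of_nhds i⟩
  intro z₁
  have h1 : (fun z => Y' z z) =ᶠ[𝓝 z₁] Y' z₁ := key z₁
  exact (hY'an z₁).differentiableAt.congr_of_eventuallyEq h1

/-- On the cone the norm of the coordinates of weight one is bounded by that of the original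
coordinates. -/
theorem n1_compare {n N : ℕ} {wt : Fin (N + 1) → ℕ} {eY : Fin (n + 1) → Fin (N + 1)}
    {𝔣 : Set (MvPolynomial (Fin (N + 1)) ℂ)} (hwt : ∀ i, wt (eY i) = 1)
    (hwF : ∀ f ∈ 𝔣, ∃ e, IsWeightedHomogeneous wt f e)
    (hbd : ∃ K₀ : ℝ, ∀ y ∈ ZF 𝔣, n1 wt y = 1 → ‖y‖ ≤ K₀)
    (hnY : ∀ y ∈ ZF 𝔣, n1 wt y ≠ 0 → (fun i => y (eY i)) ≠ 0) :
    ∃ K : ℝ, 1 ≤ K ∧ ∀ y ∈ ZF 𝔣, n1 wt y ≠ 0 →
      ‖fun i => y (eY i)‖ ≤ n1 wt y ∧ n1 wt y ≤ K * ‖fun i => y (eY i)‖ ∧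
      ∀ i, ‖y i‖ ≤ K * ‖fun i => y (eY i)‖ ^ wt i := by
  obtain ⟨K₀, hK₀⟩ := hbd
  have hcomp := isCompact_section wt (isClosed_ZF (𝔣 := 𝔣)) hK₀
  have hle : ∀ y : Fin (N + 1) → ℂ, ‖fun i => y (eY i)‖ ≤ n1 wt y := by
    intro y
    rw [pi_norm_le_iff_of_nonneg (n1_nonneg wt y)]
    intro i
    exact norm_le_n1 wt y (hwt i)
  obtain ⟨F, hF⟩ : ∃ F : (Fin (N + 1) → ℂ) → ℝ, F = fun y => ‖fun i => y (eY i)‖ := ⟨_, rfl⟩
  have hFc : Continuous F := by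
    rw [hF]
    fun_prop
  obtain ⟨c, hc, hcb⟩ : ∃ c : ℝ, 0 < c ∧ ∀ y ∈ ZF 𝔣, n1 wt y = 1 → c ≤ F y := by
    rcases Set.eq_empty_or_nonempty ({y | n1 wt y = 1} ∩ ZF 𝔣) with he | hne
    · refine ⟨1, one_pos, fun y hy hy1 => ?_⟩
      exfalso
      have : y ∈ ({y | n1 wt y = 1} ∩ ZF 𝔣) := ⟨hy1, hy⟩
      rw [he] at this
      exact this
    · obtain ⟨y₀, ⟨hy1, hy2⟩, hy3⟩ := hcomp.exists_isMinOn hne hFc.continuousOn
      refine ⟨F y₀, ?_, fun y hy hy1 => hy3 ⟨hy1, hy⟩⟩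
      have h1 : n1 wt y₀ ≠ 0 := by
        have : n1 wt y₀ = 1 := hy1
        rw [this]
        exact one_ne_zero
      rw [hF]
      exact norm_pos_iff.mpr (hnY y₀ hy2 h1)
  obtain ⟨K₁, hK₁⟩ : ∃ K₁ : ℝ, K₁ = max K₀ 0 := ⟨_, rfl⟩
  have hK₁0 : 0 ≤ K₁ := hK₁ ▸ le_max_right _ _
  have hK₀₁ : K₀ ≤ K₁ := hK₁ ▸ le_max_left _ _
  have hci : 0 < c⁻¹ := inv_pos.mpr hc
  have hsum : 0 ≤ ∑ i, K₁ * c⁻¹ ^ wt i := Finset.sum_nonneg fun i _ => by positivity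
  refine ⟨1 + c⁻¹ + ∑ i, K₁ * c⁻¹ ^ wt i, by linarith, ?_⟩
  intro y hy hy0
  obtain ⟨r, hr⟩ : ∃ r : ℝ, r = n1 wt y := ⟨_, rfl⟩
  have hrpos : 0 < r := by
    rw [hr]
    exact lt_of_le_of_ne (n1_nonneg wt y) (Ne.symm hy0)
  have hrc : (r : ℂ) ≠ 0 := by exact_mod_cast hrpos.ne'
  obtain ⟨y₁, hy₁⟩ : ∃ y₁, y₁ = sc wt ((r : ℂ)⁻¹) y := ⟨_, rfl⟩
  have h1 : y₁ ∈ ZF 𝔣 := hy₁ ▸ sc_mem_ZF hwF hy
  have hnr : ‖((r : ℂ)⁻¹)‖ = r⁻¹ := by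
    rw [norm_inv, Complex.norm_real, Real.norm_of_nonneg hrpos.le]
  have h2 : n1 wt y₁ = 1 := by
    rw [hy₁, n1_sc, hnr, ← hr]
    exact inv_mul_cancel₀ hrpos.ne'
  have h3 : F y₁ = r⁻¹ * ‖fun i => y (eY i)‖ := by
    have h4 : (fun i => y₁ (eY i)) = ((r : ℂ)⁻¹) • fun i => y (eY i) := by
      funext i
      rw [hy₁, sc, hwt i, pow_one]
      rfl
    rw [hF]
    show ‖fun i => y₁ (eY i)‖ = _
    rw [h4, norm_smul, hnr]
  obtain ⟨s, hs⟩ : ∃ s : ℝ, s = ‖fun i => y (eY i)‖ := ⟨_, rfl⟩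
  have hs0 : 0 ≤ s := hs ▸ norm_nonneg _
  have h5 : r ≤ c⁻¹ * s := by
    have h6 := hcb y₁ h1 h2
    rw [h3, ← hs] at h6
    have h7 : c * r ≤ s := by
      calc c * r ≤ (r⁻¹ * s) * r := mul_le_mul_of_nonneg_right h6 hrpos.le
        _ = s := by field_simp
    calc r = c⁻¹ * (c * r) := by field_simp
      _ ≤ c⁻¹ * s := mul_le_mul_of_nonneg_left h7 hci.le
  rw [← hr, ← hs]
  refine ⟨hs ▸ hr ▸ hle y, ?_, ?_⟩
  · have h6 : 0 ≤ (1 + ∑ i, K₁ * c⁻¹ ^ wt i) * s := by positivity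
    calc r ≤ c⁻¹ * s := h5
      _ ≤ c⁻¹ * s + (1 + ∑ i, K₁ * c⁻¹ ^ wt i) * s := by linarith
      _ = _ := by ring
  · intro i
    have h6 : y i = (r : ℂ) ^ wt i * y₁ i := by
      rw [hy₁, sc, ← mul_assoc, ← mul_pow, mul_inv_cancel₀ hrc, one_pow, one_mul]
    have h7 : ‖y₁ i‖ ≤ K₁ := (norm_le_pi_norm y₁ i).trans ((hK₀ y₁ h1 h2).trans hK₀₁)
    have h8 : ‖y i‖ ≤ (c⁻¹ * s) ^ wt i * K₁ := by
      rw [h6, norm_mul, norm_pow, Complex.norm_real, Real.norm_of_nonneg hrpos.le]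
      exact mul_le_mul (pow_le_pow_left₀ hrpos.le h5 _) h7 (norm_nonneg _) (by positivity)
    have h9 : K₁ * c⁻¹ ^ wt i ≤ ∑ i, K₁ * c⁻¹ ^ wt i :=
      Finset.single_le_sum (f := fun i => K₁ * c⁻¹ ^ wt i) (fun i _ => by positivity)
        (Finset.mem_univ i)
    have h10 : 0 ≤ s ^ wt i := by positivity
    calc ‖y i‖ ≤ (c⁻¹ * s) ^ wt i * K₁ := h8
      _ = (K₁ * c⁻¹ ^ wt i) * s ^ wt i := by
        rw [mul_pow]
        ring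
      _ ≤ (1 + c⁻¹ + ∑ i, K₁ * c⁻¹ ^ wt i) * s ^ wt i := by
        apply mul_le_mul_of_nonneg_right _ h10
        linarith

end Pool.Agent.Lib.GGL.SF
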