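import Mathlib
import Pool.Agent.Lib.MP_8d161d_ag.Mg.G026

/-!
Static estimates: covering constant, determinant bound.
-/

open MvPolynomial Filter Topology Metric

namespace Pool.Agent.Lib.GGL.SF

/-- On a compact set the forms outside some covering block are bounded below. -/
theorem cover_const {n : ℕ} {H : Type*} [Fintype H] [DecidableEq H]
    (P : H → MvPolynomial (Fin (n + 1)) ℂ) (𝓑 : Finset (Finset H))
    {K : Set (Fin (n + 1) → ℂ)} (hK : IsCompact K)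
    (hcov : ∀ y ∈ K, ∃ B ∈ 𝓑, ∀ j, eval y (P j) = 0 → j ∈ B) :
    ∃ c : ℝ, 0 < c ∧ ∀ y ∈ K, ∃ B ∈ 𝓑, ∀ j, j ∉ B → c ≤ ‖eval y (P j)‖ := by
  refine hK.induction_on
    (p := fun s => ∃ c : ℝ, 0 < c ∧ ∀ y ∈ s, ∃ B ∈ 𝓑, ∀ j, j ∉ B → c ≤ ‖eval y (P j)‖) ?_ ?_ ?_ ?_
  · exact ⟨1, one_pos, fun y hy => absurd hy (Set.notMem_empty y)⟩
  · rintro s t hst ⟨c, hc, h⟩
    exact ⟨c, hc, fun y hy => h y (hst hy)⟩
  · rintro s t ⟨c, hc, h⟩ ⟨c', hc', h'⟩
    refine ⟨min c c', lt_min hc hc', ?_⟩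
    rintro y (hy | hy)
    · obtain ⟨B, hB, hj⟩ := h y hy
      exact ⟨B, hB, fun j hjB => le_trans (min_le_left _ _) (hj j hjB)⟩
    · obtain ⟨B, hB, hj⟩ := h' y hy
      exact ⟨B, hB, fun j hjB => le_trans (min_le_right _ _) (hj j hjB)⟩
  · intro x hx
    obtain ⟨B, hB, hj⟩ := hcov x hx
    have h1 : ∀ᶠ c in 𝓝[>] (0 : ℝ), ∀ j, j ∉ B → c < ‖eval x (P j)‖ := by
      refine eventually_all.2 fun j => ?_
      by_cases hjB : j ∈ B
      · exact Eventually.of_forall fun c h => absurd hjB h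
      · have hpos : 0 < ‖eval x (P j)‖ := norm_pos_iff.2 fun h0 => hjB (hj j h0)
        filter_upwards [Ioo_mem_nhdsGT hpos] with c hc _
        exact hc.2
    obtain ⟨c, hc, hcpos⟩ := (h1.and self_mem_nhdsWithin).exists
    have h2 : ∀ᶠ y in 𝓝 x, ∀ j, j ∉ B → c < ‖eval y (P j)‖ := by
      refine eventually_all.2 fun j => ?_
      by_cases hjB : j ∈ B
      · exact Eventually.of_forall fun c h => absurd hjB h
      · have hcont : Continuous fun y : Fin (n + 1) → ℂ => ‖eval y (P j)‖ :=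
          (MvPolynomial.continuous_eval (P j)).norm
        filter_upwards [hcont.continuousAt.eventually (lt_mem_nhds (hc j hjB))] with y hy _
        exact hy
    exact ⟨{y | ∀ j, j ∉ B → c < ‖eval y (P j)‖}, mem_nhdsWithin_of_mem_nhds h2, c, hcpos,
      fun y hy => ⟨B, hB, fun j hjB => (hy j hjB).le⟩⟩

/-- The determinant is bounded by the product of the forms of its block. -/
theorem det_bound {n : ℕ} {H : Type*} [DecidableEq H]
    (P : H → MvPolynomial (Fin (n + 1)) ℂ) (B : Finset H)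
    {α β : B → B → (Fin (n + 1) → ℂ) → (Fin (n + 1) → ℂ) → ℂ}
    (hα : ∀ i j, Hol (α i j)) (hβ : ∀ i j, Hol (β i j)) (R : ℝ) :
    ∃ C : ℝ, 0 ≤ C ∧ ∀ y w : Fin (n + 1) → ℂ, ‖y‖ ≤ R → ‖w‖ ≤ R →
      (∀ j ∈ B, ‖dev (P j) y w‖ ≤ ‖eval y (P j)‖) →
      ‖Matrix.det (Matrix.of fun i j : B =>
        eval y (P j) * α i j y w + dev (P j) y w * β i j y w)‖ ≤
        C * ∏ j ∈ B, ‖eval y (P j)‖ := by
  choose Ca hCa0 hCa using fun i j => (hα i j).bound R
  choose Cb hCb0 hCb using fun i j => (hβ i j).bound R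
  set C0 : ℝ := ∑ i : B, ∑ j : B, (Ca i j + Cb i j) with hC0
  have hnn : ∀ i j : B, 0 ≤ Ca i j + Cb i j := fun i j => add_nonneg (hCa0 i j) (hCb0 i j)
  have hC0nn : 0 ≤ C0 := Finset.sum_nonneg fun i _ => Finset.sum_nonneg fun j _ => hnn i j
  have hle : ∀ i j : B, Ca i j + Cb i j ≤ C0 := by
    intro i j
    have h1 : Ca i j + Cb i j ≤ ∑ j : B, (Ca i j + Cb i j) :=
      Finset.single_le_sum (f := fun j : B => Ca i j + Cb i j) (fun j _ => hnn i j)
        (Finset.mem_univ j)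
    have h2 : ∑ j : B, (Ca i j + Cb i j) ≤ C0 :=
      Finset.single_le_sum (f := fun i : B => ∑ j : B, (Ca i j + Cb i j))
        (fun i _ => Finset.sum_nonneg fun j _ => hnn i j) (Finset.mem_univ i)
    exact h1.trans h2
  refine ⟨(Fintype.card (Equiv.Perm B) : ℝ) * C0 ^ B.card,
    mul_nonneg (Nat.cast_nonneg _) (pow_nonneg hC0nn _), ?_⟩
  intro y w hy hw hdev
  have hentry : ∀ i j : B,
      ‖eval y (P j) * α i j y w + dev (P j) y w * β i j y w‖ ≤ C0 * ‖eval y (P j)‖ := by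
    intro i j
    have h1 : ‖eval y (P j) * α i j y w‖ ≤ ‖eval y (P j)‖ * Ca i j := by
      rw [norm_mul]
      exact mul_le_mul_of_nonneg_left (hCa i j y w hy hw) (norm_nonneg _)
    have h2 : ‖dev (P j) y w * β i j y w‖ ≤ ‖eval y (P j)‖ * Cb i j := by
      rw [norm_mul]
      exact mul_le_mul (hdev j j.2) (hCb i j y w hy hw) (norm_nonneg _) (norm_nonneg _)
    calc ‖eval y (P j) * α i j y w + dev (P j) y w * β i j y w‖
        ≤ ‖eval y (P j)‖ * Ca i j + ‖eval y (P j)‖ * Cb i j :=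
          (norm_add_le _ _).trans (add_le_add h1 h2)
      _ = (Ca i j + Cb i j) * ‖eval y (P j)‖ := by ring
      _ ≤ C0 * ‖eval y (P j)‖ := mul_le_mul_of_nonneg_right (hle i j) (norm_nonneg _)
  rw [Matrix.det_apply']
  have hterm : ∀ σ : Equiv.Perm B,
      ‖((Equiv.Perm.sign σ : ℤ) : ℂ) * ∏ i, (Matrix.of fun i j : B =>
        eval y (P j) * α i j y w + dev (P j) y w * β i j y w) (σ i) i‖ ≤
        C0 ^ B.card * ∏ j ∈ B, ‖eval y (P j)‖ := by
    intro σ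
    have hs : ‖((Equiv.Perm.sign σ : ℤ) : ℂ)‖ = 1 := by
      rcases Int.units_eq_one_or (Equiv.Perm.sign σ) with h | h <;> simp [h]
    rw [norm_mul, hs, one_mul, norm_prod]
    have h3 : ∏ i : B, ‖(Matrix.of fun i j : B =>
        eval y (P j) * α i j y w + dev (P j) y w * β i j y w) (σ i) i‖ ≤
        ∏ i : B, (C0 * ‖eval y (P i)‖) :=
      Finset.prod_le_prod (fun i _ => norm_nonneg _) (fun i _ => hentry (σ i) i)
    refine h3.trans (le_of_eq ?_)
    rw [Finset.prod_mul_distrib, Finset.prod_const, Finset.card_univ, Fintype.card_coe,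
      Finset.prod_coe_sort B (fun j => ‖eval y (P j)‖)]
  calc ‖∑ σ : Equiv.Perm B, ((Equiv.Perm.sign σ : ℤ) : ℂ) * ∏ i, (Matrix.of fun i j : B =>
        eval y (P j) * α i j y w + dev (P j) y w * β i j y w) (σ i) i‖
      ≤ ∑ σ : Equiv.Perm B, C0 ^ B.card * ∏ j ∈ B, ‖eval y (P j)‖ :=
        norm_sum_le_of_le _ fun σ _ => hterm σ
    _ = (Fintype.card (Equiv.Perm B) : ℝ) * C0 ^ B.card * ∏ j ∈ B, ‖eval y (P j)‖ := by
        rw [Finset.sum_const, Finset.card_univ, nsmul_eq_mul, mul_assoc]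

end Pool.Agent.Lib.GGL.SF
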