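import Mathlib
import Pool.Agent.Lib.MP_8d161d_ag.SF.B1

/-!
The static estimate.
-/

open MvPolynomial Filter Topology Metric

namespace Pool.Agent.Lib.GGL.SF

private lemma b2_dev_smul {n : ℕ} (P : MvPolynomial (Fin (n + 1)) ℂ) (y w : Fin (n + 1) → ℂ)
    (c : ℂ) : dev P y (c • w) = c * dev P y w := by
  rw [dev, dev, Finset.mul_sum]
  refine Finset.sum_congr rfl fun i _ => ?_
  rw [Pi.smul_apply, smul_eq_mul, mul_assoc]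

/-- the product over the block is bounded by the whole product -/
private lemma b2_prod {H : Type*} [Fintype H] [DecidableEq H] (B : Finset H) (f : H → ℝ)
    (hf : ∀ j, 0 ≤ f j) {c : ℝ} (hc : 0 < c) (hc1 : c ≤ 1) (h : ∀ j, j ∉ B → c ≤ f j) :
    ∏ j ∈ B, f j ≤ (c⁻¹) ^ Fintype.card H * ∏ j, f j := by
  have h1 : c ^ Fintype.card H ≤ ∏ j ∈ Bᶜ, f j := by
    calc c ^ Fintype.card H ≤ c ^ (Bᶜ).card :=
          pow_le_pow_of_le_one hc.le hc1 (Finset.card_le_univ _)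
      _ = ∏ _j ∈ Bᶜ, c := by rw [Finset.prod_const]
      _ ≤ ∏ j ∈ Bᶜ, f j := by
          apply Finset.prod_le_prod
          · intro j _
            exact hc.le
          · intro j hj
            exact h j (Finset.mem_compl.mp hj)
  have h2 : 0 ≤ ∏ j ∈ B, f j := Finset.prod_nonneg fun j _ => hf j
  have h3 : ∏ j, f j = (∏ j ∈ B, f j) * ∏ j ∈ Bᶜ, f j :=
    (Finset.prod_mul_prod_compl B f).symm
  rw [h3, inv_pow]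
  have h4 : 0 < c ^ Fintype.card H := by positivity
  rw [inv_mul_eq_div, le_div_iff₀ h4]
  exact mul_le_mul_of_nonneg_left h1 h2

/-- the estimate for normalised points -/
private lemma b2_unit {n : ℕ} {H μ : Type*} [Fintype H] [DecidableEq H]
    (P : H → MvPolynomial (Fin (n + 1)) ℂ) (wt : Fin (n + 1) → ℕ) (𝓑 : Finset (Finset H))
    {Z : Set (Fin (n + 1) → ℂ)} (hZ : IsClosed Z) {K₀ : ℝ}
    (hbd : ∀ y ∈ Z, n1 wt y = 1 → ‖y‖ ≤ K₀)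
    {T : (Fin (n + 1) → ℂ) → (Fin (n + 1) → ℂ) → Prop} (hTZ : ∀ y w, T y w → y ∈ Z)
    (s : μ → (Fin (n + 1) → ℂ) → ℝ) (hs : ∀ m, Continuous (s m)) (hs0 : ∀ m y, 0 ≤ s m y)
    (hnz : ∀ y ∈ Z, n1 wt y ≠ 0 → ∃ m, s m y ≠ 0) (m : μ)
    (hcov : ∀ y ∈ Z, n1 wt y ≠ 0 → s m y ≠ 0 →
      ∃ B ∈ 𝓑, ∀ j, eval y (P j) = 0 → j ∈ B)
    (G : (Fin (n + 1) → ℂ) → (Fin (n + 1) → ℂ) → ℂ) (hG : FacH P T 𝓑 G) :
    ∃ C : ℝ, 0 ≤ C ∧ ∀ y w : Fin (n + 1) → ℂ, n1 wt y = 1 → T y w →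
      (∀ m', s m' y ≤ s m y) → ‖w‖ ≤ 1 →
      (∀ j, ‖dev (P j) y w‖ ≤ ‖eval y (P j)‖) →
      ‖G y w‖ ≤ C * ∏ j, ‖eval y (P j)‖ := by
  have hK : IsCompact ({y | ∀ m', s m' y ≤ s m y} ∩ ({y | n1 wt y = 1} ∩ Z)) := by
    apply (isCompact_section wt hZ hbd).inter_left
    have h1 : {y | ∀ m', s m' y ≤ s m y} = ⋂ m', {y | s m' y ≤ s m y} := by
      ext y
      simp
    rw [h1]
    exact isClosed_iInter fun m' => isClosed_le (hs m') (hs m)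
  obtain ⟨c, hc, hcK⟩ := cover_const P 𝓑 hK (by
    rintro y ⟨hy1, hy2, hy3⟩
    have hy0 : n1 wt y ≠ 0 := by
      have : n1 wt y = 1 := hy2
      rw [this]
      exact one_ne_zero
    obtain ⟨m', hm'⟩ := hnz y hy3 hy0
    have h1 : 0 < s m' y := lt_of_le_of_ne (hs0 _ _) (Ne.symm hm')
    exact hcov y hy3 hy0 (h1.trans_le (hy1 m')).ne')
  have hdet : ∀ B : Finset H, ∃ C : ℝ, 0 ≤ C ∧ (B ∈ 𝓑 → ∀ y w : Fin (n + 1) → ℂ,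
      ‖y‖ ≤ max K₀ 1 → ‖w‖ ≤ max K₀ 1 → T y w →
      (∀ j ∈ B, ‖dev (P j) y w‖ ≤ ‖eval y (P j)‖) →
      ‖G y w‖ ≤ C * ∏ j ∈ B, ‖eval y (P j)‖) := by
    intro B
    by_cases hB : B ∈ 𝓑
    · obtain ⟨α, β, hα, hβ, hGB⟩ := hG B hB
      obtain ⟨C, hC0, hC⟩ := det_bound P B hα hβ (max K₀ 1)
      refine ⟨C, hC0, ?_⟩
      intro _ y w hy hw hT hd
      rw [hGB y w hT]
      exact hC y w hy hw hd
    · exact ⟨0, le_refl _, fun h => absurd h hB⟩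
  choose CB hCB0 hCB using hdet
  obtain ⟨c', hc'⟩ : ∃ c', c' = min c 1 := ⟨_, rfl⟩
  have hc'0 : 0 < c' := by rw [hc']; exact lt_min hc one_pos
  have hc'1 : c' ≤ 1 := by rw [hc']; exact min_le_right _ _
  have hS0 : 0 ≤ ∑ B ∈ 𝓑, CB B := Finset.sum_nonneg fun B _ => hCB0 B
  refine ⟨(∑ B ∈ 𝓑, CB B) * (c'⁻¹) ^ Fintype.card H, by positivity, ?_⟩
  intro y w hy hT hmax hw hd
  have hyZ := hTZ y w hT
  obtain ⟨B, hB, hBc⟩ := hcK y ⟨hmax, hy, hyZ⟩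
  have h1 := hCB B hB y w ((hbd y hyZ hy).trans (le_max_left _ _)) (hw.trans (le_max_right _ _))
    hT (fun j _ => hd j)
  have h2 := b2_prod B (fun j => ‖eval y (P j)‖) (fun j => norm_nonneg _) hc'0 hc'1
    (fun j hj => by
      rw [hc']
      exact (min_le_left _ _).trans (hBc j hj))
  have h3 : CB B ≤ ∑ B ∈ 𝓑, CB B :=
    Finset.single_le_sum (f := CB) (fun B _ => hCB0 B) hB
  have h4 : 0 ≤ ∏ j ∈ B, ‖eval y (P j)‖ := Finset.prod_nonneg fun j _ => norm_nonneg _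
  calc ‖G y w‖ ≤ CB B * ∏ j ∈ B, ‖eval y (P j)‖ := h1
    _ ≤ (∑ B ∈ 𝓑, CB B) * ((c'⁻¹) ^ Fintype.card H * ∏ j, ‖eval y (P j)‖) := by
        apply mul_le_mul h3 h2 h4 hS0
    _ = _ := by ring

/-- The pointwise estimate on the weighted cone. -/
theorem static_bound {n : ℕ} {H μ : Type*} [Fintype H] [DecidableEq H] [Finite μ]
    (P : H → MvPolynomial (Fin (n + 1)) ℂ) (wt : Fin (n + 1) → ℕ) {ed : ℕ}
    (hP : ∀ j, IsWeightedHomogeneous wt (P j) ed) {a e aS : ℕ} (𝓑 : Finset (Finset H))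
    {Z : Set (Fin (n + 1) → ℂ)} (hZ : IsClosed Z) {K₀ : ℝ}
    (hbd : ∀ y ∈ Z, n1 wt y = 1 → ‖y‖ ≤ K₀)
    {T : (Fin (n + 1) → ℂ) → (Fin (n + 1) → ℂ) → Prop} (hTZ : ∀ y w, T y w → y ∈ Z)
    (hT : ∀ y w (l μ' c : ℂ), l ≠ 0 → T y w → T (sc wt l y) (c • sc wt l (w + μ' • eu wt y)))
    (s : μ → (Fin (n + 1) → ℂ) → ℝ) (hs : ∀ m, Continuous (s m)) (hs0 : ∀ m y, 0 ≤ s m y)
    (hsl : ∀ m y (l : ℂ), s m (sc wt l y) = ‖l‖ ^ aS * s m y)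
    (hnz : ∀ y ∈ Z, n1 wt y ≠ 0 → ∃ m, s m y ≠ 0)
    (hcov : ∀ m, ∀ y ∈ Z, n1 wt y ≠ 0 → s m y ≠ 0 →
      ∃ B ∈ 𝓑, ∀ j, eval y (P j) = 0 → j ∈ B)
    (G : μ → (Fin (n + 1) → ℂ) → (Fin (n + 1) → ℂ) → ℂ) (hG : ∀ m, FacH P T 𝓑 (G m))
    (hJ1 : ∀ m y w (l μ' : ℂ), l ≠ 0 →
      G m (sc wt l y) (sc wt l (w + μ' • eu wt y)) = l ^ a * G m y w)
    (hJ2 : ∀ m y w (c : ℂ), G m y (c • w) = c ^ e * G m y w) :
    ∃ C : ℝ, 0 ≤ C ∧ ∀ (m : μ) (y w : Fin (n + 1) → ℂ), n1 wt y ≠ 0 → T y w →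
      (∀ m', s m' y ≤ s m y) → ∀ τ : ℝ, 1 ≤ τ → (∀ i, ‖w i‖ ≤ τ * n1 wt y ^ wt i) →
      (∀ j, ‖dev (P j) y w‖ ≤ τ * ‖eval y (P j)‖) →
      ‖G m y w‖ * n1 wt y ^ (ed * Fintype.card H) ≤
        C * τ ^ e * n1 wt y ^ a * ∏ j, ‖eval y (P j)‖ := by
  have hone := fun m => b2_unit P wt 𝓑 hZ hbd hTZ s hs hs0 hnz m (hcov m) (G m) (hG m)
  choose Cm hCm0 hCm using hone
  have hfin : Fintype μ := Fintype.ofFinite μ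
  refine ⟨∑ m, Cm m, Finset.sum_nonneg fun m _ => hCm0 m, ?_⟩
  intro m y w hy0 hTyw hmax τ hτ hw hd
  obtain ⟨ρ, hρ⟩ : ∃ ρ, ρ = n1 wt y := ⟨_, rfl⟩
  rw [← hρ] at hw ⊢
  have hρ0 : 0 < ρ := by rw [hρ]; exact lt_of_le_of_ne (n1_nonneg wt y) (Ne.symm hy0)
  have hτ0 : 0 < τ := by linarith
  have hρc : (ρ : ℂ) ≠ 0 := by exact_mod_cast hρ0.ne'
  have hinv : ∀ r : ℝ, 0 < r → ‖((r : ℂ)⁻¹)‖ = r⁻¹ := by
    intro r hr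
    rw [norm_inv, Complex.norm_real, Real.norm_of_nonneg hr.le]
  obtain ⟨y₁, hy₁⟩ : ∃ y₁, y₁ = sc wt (ρ : ℂ)⁻¹ y := ⟨_, rfl⟩
  obtain ⟨w₁, hw₁⟩ : ∃ w₁, w₁ = sc wt (ρ : ℂ)⁻¹ w := ⟨_, rfl⟩
  have hn₁ : n1 wt y₁ = 1 := by
    rw [hy₁, n1_sc, hinv ρ hρ0, ← hρ, inv_mul_cancel₀ hρ0.ne']
  have hT₁ : T y₁ ((τ : ℂ)⁻¹ • w₁) := by
    have h1 := hT y w (ρ : ℂ)⁻¹ 0 (τ : ℂ)⁻¹ (inv_ne_zero hρc) hTyw
    rwa [zero_smul, add_zero, ← hy₁, ← hw₁] at h1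
  have hmax₁ : ∀ m', s m' y₁ ≤ s m y₁ := by
    intro m'
    rw [hy₁, hsl, hsl]
    exact mul_le_mul_of_nonneg_left (hmax m') (by positivity)
  have hw₁n : ‖(τ : ℂ)⁻¹ • w₁‖ ≤ 1 := by
    rw [pi_norm_le_iff_of_nonneg zero_le_one]
    intro i
    rw [Pi.smul_apply, norm_smul, hinv τ hτ0, hw₁, sc, norm_mul, norm_pow, hinv ρ hρ0, inv_pow,
      inv_mul_le_iff₀ hτ0, inv_mul_le_iff₀ (by positivity), mul_one]
    calc ‖w i‖ ≤ τ * ρ ^ wt i := hw i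
      _ = _ := mul_comm _ _
  have hev : ∀ j, ‖eval y₁ (P j)‖ = (ρ ^ ed)⁻¹ * ‖eval y (P j)‖ := by
    intro j
    rw [hy₁, eval_sc (hP j), norm_mul, norm_pow, hinv ρ hρ0, inv_pow]
  have hd₁ : ∀ j, ‖dev (P j) y₁ ((τ : ℂ)⁻¹ • w₁)‖ ≤ ‖eval y₁ (P j)‖ := by
    intro j
    rw [b2_dev_smul, norm_mul, hinv τ hτ0, hy₁, hw₁, dev_sc (hP j), ← hy₁, hev j, norm_mul,
      norm_pow, hinv ρ hρ0, inv_pow, inv_mul_le_iff₀ hτ0]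
    calc (ρ ^ ed)⁻¹ * ‖dev (P j) y w‖ ≤ (ρ ^ ed)⁻¹ * (τ * ‖eval y (P j)‖) := by
          apply mul_le_mul_of_nonneg_left (hd j) (by positivity)
      _ = _ := by ring
  have hmain := hCm m y₁ ((τ : ℂ)⁻¹ • w₁) hn₁ hT₁ hmax₁ hw₁n hd₁
  have hG1 : G m y₁ w₁ = ((ρ : ℂ)⁻¹) ^ a * G m y w := by
    have h1 := hJ1 m y w (ρ : ℂ)⁻¹ 0 (inv_ne_zero hρc)
    rwa [zero_smul, add_zero, ← hy₁, ← hw₁] at h1
  have hprod : ∏ j, ‖eval y₁ (P j)‖ =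
      (ρ ^ (ed * Fintype.card H))⁻¹ * ∏ j, ‖eval y (P j)‖ := by
    rw [Finset.prod_congr rfl fun j _ => hev j, Finset.prod_mul_distrib, Finset.prod_const,
      Finset.card_univ, inv_pow, ← pow_mul]
  rw [hJ2, hG1, norm_mul, norm_mul, norm_pow, norm_pow, hinv ρ hρ0, hinv τ hτ0, hprod] at hmain
  obtain ⟨pr, hpr⟩ : ∃ pr, pr = ∏ j, ‖eval y (P j)‖ := ⟨_, rfl⟩
  have hpr0 : 0 ≤ pr := by
    rw [hpr]
    exact Finset.prod_nonneg fun j _ => by positivity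
  obtain ⟨g, hg⟩ : ∃ g, g = ‖G m y w‖ := ⟨_, rfl⟩
  obtain ⟨r, hr⟩ : ∃ r, r = ρ ^ (ed * Fintype.card H) := ⟨_, rfl⟩
  have hr0 : 0 < r := by rw [hr]; positivity
  rw [← hpr, ← hg, ← hr] at hmain
  rw [← hpr, ← hg, ← hr]
  have h3 : Cm m ≤ ∑ m, Cm m :=
    Finset.single_le_sum (f := Cm) (fun m _ => hCm0 m) (Finset.mem_univ m)
  have h5 : g * r ≤ Cm m * τ ^ e * ρ ^ a * pr := by
    have h6 : (τ⁻¹ ^ e * (ρ⁻¹ ^ a * g)) * (τ ^ e * ρ ^ a * r) ≤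
        (Cm m * (r⁻¹ * pr)) * (τ ^ e * ρ ^ a * r) :=
      mul_le_mul_of_nonneg_right hmain (by positivity)
    have h7 : (τ⁻¹ ^ e * (ρ⁻¹ ^ a * g)) * (τ ^ e * ρ ^ a * r) = g * r := by
      rw [inv_pow, inv_pow]
      field_simp
    have h8 : (Cm m * (r⁻¹ * pr)) * (τ ^ e * ρ ^ a * r) = Cm m * τ ^ e * ρ ^ a * pr := by
      field_simp
    rw [h7, h8] at h6
    exact h6
  calc g * r ≤ Cm m * τ ^ e * ρ ^ a * pr := h5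
    _ ≤ (∑ m, Cm m) * τ ^ e * ρ ^ a * pr := by gcongr

end Pool.Agent.Lib.GGL.SF
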