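import Mathlib
import Pool.Agent.Lib.MP_8d161d_ag.Mg.G026

/-!
The order of vanishing of the determinant along a curve.
-/

open MvPolynomial Filter Topology

namespace Pool.Agent.Lib.GGL.SF

/-- The order of vanishing of the determinant. -/
theorem det_order {n : ℕ} {H : Type*} [Fintype H] [DecidableEq H]
    (P : H → MvPolynomial (Fin (n + 1)) ℂ)
    {T : (Fin (n + 1) → ℂ) → (Fin (n + 1) → ℂ) → Prop} {𝓑 : Finset (Finset H)}
    {G : (Fin (n + 1) → ℂ) → (Fin (n + 1) → ℂ) → ℂ} (hG : FacH P T 𝓑 G)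
    {Y : ℂ → Fin (n + 1) → ℂ} {z₀ : ℂ} (hY : AnalyticAt ℂ Y z₀)
    (hT : ∀ᶠ z in 𝓝 z₀, T (Y z) (deriv Y z)) {B : Finset H} (hB : B ∈ 𝓑)
    (hcov : ∀ j, eval (Y z₀) (P j) = 0 → j ∈ B)
    (htop : ∀ j, analyticOrderAt (fun z => eval (Y z) (P j)) z₀ ≠ ⊤) :
    AnalyticAt ℂ (fun z => G (Y z) (deriv Y z)) z₀ ∧
    ((∑ j, (analyticOrderNatAt (fun z => eval (Y z) (P j)) z₀ - 1) : ℕ) : ℕ∞) ≤
      analyticOrderAt (fun z => G (Y z) (deriv Y z)) z₀ := by
  have hl : ∀ j, AnalyticAt ℂ (fun z => eval (Y z) (P j)) z₀ := fun j => analyticAt_eval hY _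
  have h1 : ∀ j, ∃ g : ℂ → ℂ, AnalyticAt ℂ g z₀ ∧ g z₀ ≠ 0 ∧
      (∀ᶠ z in 𝓝 z₀, eval (Y z) (P j) =
        (z - z₀) ^ (analyticOrderNatAt (fun z => eval (Y z) (P j)) z₀) * g z) := by
    intro j
    obtain ⟨g, hg1, hg2, hg3⟩ := (hl j).analyticOrderAt_ne_top.mp (htop j)
    refine ⟨g, hg1, hg2, ?_⟩
    filter_upwards [hg3] with z hz
    rw [hz, smul_eq_mul]
  obtain ⟨μ, hμ⟩ : ∃ μ : H → ℕ, μ = fun j =>
    analyticOrderNatAt (fun z => eval (Y z) (P j)) z₀ := ⟨_, rfl⟩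
  have hμj : ∀ j, analyticOrderNatAt (fun z => eval (Y z) (P j)) z₀ = μ j := by
    intro j
    rw [hμ]
  simp only [hμj] at h1 ⊢
  choose g hg hg0 hlg using h1
  have hdl : ∀ j, ∀ᶠ z in 𝓝 z₀, deriv (fun z => eval (Y z) (P j)) z =
      dev (P j) (Y z) (deriv Y z) := by
    intro j
    filter_upwards [hY.eventually_analyticAt] with z hz
    exact deriv_eval hz _
  choose a b ha hb hay hby using fun j => exists_khH (hdl j) (hg j) (hlg j)
  obtain ⟨α, β, hα, hβ, hGB⟩ := hG B hB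
  have hμB : ∀ j, j ∉ B → μ j = 0 := by
    intro j hj
    by_contra hne
    apply hj
    apply hcov
    rw [(hlg j).self_of_nhds, sub_self, zero_pow hne, zero_mul]
  obtain ⟨Gt, hGt⟩ : ∃ Gt : ℂ → ℂ, Gt = fun z => Matrix.det (Matrix.of fun i j : B =>
    a j z * α i j (Y z) (deriv Y z) + b j z * β i j (Y z) (deriv Y z)) := ⟨_, rfl⟩
  have hGtan : AnalyticAt ℂ Gt z₀ := by
    rw [hGt]
    apply analyticAt_det
    intro i j
    simp only [Matrix.of_apply]
    exact ((ha j).mul ((hα i j).comp hY hY.deriv)).add ((hb j).mul ((hβ i j).comp hY hY.deriv))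
  have hsub : AnalyticAt ℂ (fun z => z - z₀) z₀ := analyticAt_id.sub analyticAt_const
  have hall2 : ∀ᶠ z in 𝓝 z₀, ∀ j, eval (Y z) (P j) = (z - z₀) ^ (μ j - 1) * a j z := by
    rw [Filter.eventually_all]; exact hay
  have hall2' : ∀ᶠ z in 𝓝 z₀, ∀ j, dev (P j) (Y z) (deriv Y z) =
      (z - z₀) ^ (μ j - 1) * b j z := by
    rw [Filter.eventually_all]; exact hby
  have hev : ∀ᶠ z in 𝓝 z₀, G (Y z) (deriv Y z) =
      (z - z₀) ^ (∑ j, (μ j - 1)) * Gt z := by
    filter_upwards [hall2, hall2', hT] with z g2 g2' g4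
    rw [hGB _ _ g4, hGt]
    have e2 : (Matrix.of fun i j : B => eval (Y z) (P j) * α i j (Y z) (deriv Y z) +
        dev (P j) (Y z) (deriv Y z) * β i j (Y z) (deriv Y z)) =
        Matrix.of fun i j : B => (z - z₀) ^ (μ j - 1) *
          (Matrix.of fun i j : B =>
            a j z * α i j (Y z) (deriv Y z) + b j z * β i j (Y z) (deriv Y z)) i j := by
      ext i j
      simp only [Matrix.of_apply]
      rw [g2, g2']
      ring
    rw [e2, Matrix.det_mul_row]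
    congr 1
    rw [Finset.prod_pow_eq_pow_sum]
    congr 1
    rw [Finset.sum_coe_sort B (fun j => μ j - 1)]
    apply Finset.sum_subset (Finset.subset_univ _)
    intro j _ hj
    rw [hμB j hj, Nat.zero_sub]
  have han : AnalyticAt ℂ (fun z => G (Y z) (deriv Y z)) z₀ :=
    ((hsub.pow (∑ j, (μ j - 1))).mul hGtan).congr
      (Filter.EventuallyEq.symm (by
        filter_upwards [hev] with z hz
        rw [hz]
        rfl))
  refine ⟨han, ?_⟩
  rw [natCast_le_analyticOrderAt han]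
  refine ⟨Gt, hGtan, ?_⟩
  filter_upwards [hev] with z hz
  rw [hz, smul_eq_mul]

end Pool.Agent.Lib.GGL.SF
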