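import Mathlib
import Pool.Agent.Lib.MP_8d161d_ag.SF.Defs
import Pool.Agent.Lib.MP_8d161d_ag.SF.B2
import Pool.Agent.Lib.MP_8d161d_ag.SF.B3

/-!
The determinant attached to an entire curve on a weighted cone with a vector of norm forms.
-/

open MvPolynomial Module Filter Topology

namespace Pool.Agent.Lib.GGL.SF

section

variable {n t : ℕ} {ι μ : Type*} {wt : Fin (n + 1) → ℕ} {𝔣 : Set (MvPolynomial (Fin (n + 1)) ℂ)}
  {P : ι → MvPolynomial (Fin (n + 1)) ℂ} {x : ι → Fin (t + 1) → ℂ}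
  {N : μ → MvPolynomial (Fin (n + 1) ⊕ Fin (t + 1)) ℂ} {a D b : ℕ}

lemma NDataV.dense_sub (h : NDataV wt 𝔣 P x N a D b) {d e : ℕ}
    {Q R : MvPolynomial (Fin (t + 1)) ℂ}
    (hR : R.IsHomogeneous e) (hR0 : R ≠ 0) (hQ : Q.IsHomogeneous d) (hde : d + e ≤ b)
    (hv : ∀ j, eval (x j) R ≠ 0 → eval (x j) Q = 0) : Q = 0 := by
  have h1 : Q * R * (X 0 : MvPolynomial (Fin (t + 1)) ℂ) ^ (b - (d + e)) = 0 := by
    apply h.dense
    · have := (hQ.mul hR).mul (isHomogeneous_X_pow (R := ℂ) (0 : Fin (t + 1)) (b - (d + e)))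
      rwa [Nat.add_sub_cancel' hde] at this
    · intro j
      rw [map_mul, map_mul]
      by_cases hj : eval (x j) R = 0
      · rw [hj, mul_zero, zero_mul]
      · rw [hv j hj, zero_mul, zero_mul]
  have h2 := (mul_eq_zero.mp h1).resolve_right (pow_ne_zero _ (X_ne_zero _))
  exact (mul_eq_zero.mp h2).resolve_right hR0

lemma NDataV.evalU (h : NDataV wt 𝔣 P x N a D b) (m : μ) (j : ι) :
    ∃ u v : (Fin (n + 1) → ℂ) → (Fin (n + 1) → ℂ) → ℂ, Hol u ∧ Hol v ∧
      (∀ y w : Fin (n + 1) → ℂ, y ∈ ZF 𝔣 →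
        MvPolynomial.eval (x j) (sp y (N m)) = MvPolynomial.eval y (P j) * u y w) ∧
      ∀ y w : Fin (n + 1) → ℂ, TF 𝔣 y w →
        MvPolynomial.eval (x j) (sp1 y w (N m)) =
          dev (P j) y w * u y w + MvPolynomial.eval y (P j) * v y w := by
  obtain ⟨U, hU⟩ := h.dvd m j
  refine ⟨fun y _ => MvPolynomial.eval y U, fun y w => dev U y w, hol_eval U, hol_dev U, ?_, ?_⟩
  · intro y w hy
    have h1 := hy _ hU
    rw [map_sub, map_mul, sub_eq_zero, eval_nx] at h1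
    exact h1
  · intro y w hy
    have h1 := hy.2 _ hU
    rw [dev_polysub, dev_polymul, sub_eq_zero, dev_nx] at h1
    exact h1

end

theorem curve_det {n t : ℕ} {ι μ : Type} [Finite ι] [Finite μ] {wt : Fin (n + 1) → ℕ}
    {𝔣 : Set (MvPolynomial (Fin (n + 1)) ℂ)} {P : ι → MvPolynomial (Fin (n + 1)) ℂ}
    {ed : ℕ} (hed : 0 < ed) (hP : ∀ j, IsWeightedHomogeneous wt (P j) ed)
    {x : ι → Fin (t + 1) → ℂ} {N : μ → MvPolynomial (Fin (n + 1) ⊕ Fin (t + 1)) ℂ} {a D b k : ℕ}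
    (h : NDataV wt 𝔣 P x N a D b) (ht : 1 ≤ t) (hDk : D ≤ k) (hkb : k + 3 * D ≤ b)
    {Y : ℂ → Fin (n + 1) → ℂ} (hY : Differentiable ℂ Y) (hY1 : ∀ z, n1 wt (Y z) ≠ 0)
    (hYF : ∀ z, Y z ∈ ZF 𝔣) (htop : ∀ j, ∃ z, eval (Y z) (P j) ≠ 0)
    (hnc : ¬ ∀ z w, ∃ c : ℂ, c ≠ 0 ∧ ∀ i, wt i = 1 → Y z i = c * Y w i)
    {m₀ : μ} {z₁ : ℂ} (h0 : sp (Y z₁) (N m₀) ≠ 0)
    (hsq : ∀ π : MvPolynomial (Fin (t + 1)) (PowerSeries ℂ), π.totalDegree ≠ 0 →
      ¬ π ^ 2 ∣ sp (fun i => tayHom z₁ (yB (Y := fun _ => Y) (fun z => hY.analyticAt z) z₁ i))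
        (N m₀)) :
    ∃ (H : Finset ι) (D' : ℕ) (g : ℂ → ℂ) (C : ℝ) (M : ℕ), D' ≤ D ∧
      H.card = (t + (k + D')).choose (k + D') ∧ Differentiable ℂ g ∧ (∃ z, g z ≠ 0) ∧ 0 ≤ C ∧
      (∀ z₀, ∑ j ∈ H, (analyticOrderNatAt (fun z => eval (Y z) (P j)) z₀ - 1) ≤
        analyticOrderNatAt g z₀) ∧
      ∀ z, (∀ j ∈ H, eval (Y z) (P j) ≠ 0) → ∀ τ : ℝ, 1 ≤ τ → ∀ β : ℂ,
        (∀ i, ‖deriv Y z i - β * wt i * Y z i‖ ≤ τ * n1 wt (Y z) ^ wt i) →
        (∀ j ∈ H, ‖deriv (fun z => eval (Y z) (P j)) z - β * ed * eval (Y z) (P j)‖ ≤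
          τ * ‖eval (Y z) (P j)‖) →
        ‖g z‖ * n1 wt (Y z) ^ (ed * H.card) ≤ C * τ ^ M *
          n1 wt (Y z) ^ (2 * a * ((t + (k + D')).choose (k + D') - (t + k).choose k)) *
            ∏ j ∈ H, ‖eval (Y z) (P j)‖ := by
  classical
  have hfin : Fintype ι := Fintype.ofFinite ι
  have hYan : ∀ z₁ : ℂ, AnalyticAt ℂ ((fun _ : ℂ => Y) z₁) z₁ := fun z => hY.analyticAt z
  have hWL : WLift wt (fun _ : ℂ => Y) := by
    refine ⟨hYan, hY1, fun z₁ => Filter.Eventually.of_forall fun z =>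
      ⟨fun _ => 1, analyticAt_const, one_ne_zero, Filter.Eventually.of_forall fun w => ?_⟩⟩
    rw [sc_one]
  obtain ⟨K₀, hK₀⟩ := h.bd
  obtain ⟨F₀, hF₀⟩ : ∃ F₀, F₀ = sp (fun i => tayHom z₁ (yB hYan z₁ i)) (N m₀) := ⟨_, rfl⟩
  have hF₀h : F₀.IsHomogeneous D := by
    rw [hF₀]
    exact sp_isHomogeneous (h.homT m₀) _
  have hcc : map (ccA : PowerSeries ℂ →+* ℂ) F₀ = sp (Y z₁) (N m₀) := by
    rw [hF₀, map_sp]
    congr 1
    congr 1
    funext i
    exact constantCoeff_yB hYan z₁ i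
  have hF₀0 : F₀ ≠ 0 := by
    intro h0'
    rw [h0', map_zero] at hcc
    exact h0 hcc.symm
  obtain ⟨c, F, hF, hconst⟩ := exists_const_factor D F₀ hF₀0 hF₀h.totalDegree_le
  have hF0 : F ≠ 0 := by
    rintro rfl
    rw [mul_zero] at hF
    exact hF₀0 hF
  have hc0 : c ≠ 0 := by
    rintro rfl
    rw [map_zero, zero_mul] at hF
    exact hF₀0 hF
  have hmc0 : map (algebraMap ℂ (PowerSeries ℂ)) c ≠ 0 := by
    intro h0
    rw [h0, zero_mul] at hF
    exact hF₀0 hF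
  obtain ⟨dc, hdc⟩ := isHomogeneous_of_dvd hF₀h hF₀0 ⟨F, hF⟩
  have hch : c.IsHomogeneous dc := hdc.of_map (FaithfulSMul.algebraMap_injective _ _)
  obtain ⟨D', hFh⟩ := isHomogeneous_of_dvd hF₀h hF₀0 (Dvd.intro_left _ hF.symm)
  have hDD : dc + D' = D := by
    have h1 := hdc.mul hFh
    rw [← hF] at h1
    exact h1.inj_right hF₀h hF₀0
  have hsq' : ∀ π : MvPolynomial (Fin (t + 1)) (PowerSeries ℂ), π.totalDegree ≠ 0 →
      ¬ π ^ 2 ∣ F := by
    intro π hπ hdv
    apply hsq π hπ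
    rw [← hF₀, hF]
    exact hdv.mul_left _
  -- division by `c`
  obtain ⟨H', L', -, hL'h, -, hL'⟩ := exists_interp (d := D')
    (fun j : {j // eval (x j) c ≠ 0} => x j) (fun Q hQ hv =>
      h.dense_sub hch hc0 hQ (by omega) fun j hj => hv ⟨j, hj⟩)
  obtain ⟨x', hx'⟩ : ∃ x' : H' → Fin (t + 1) → ℂ, x' = fun j => x j.1.1 := ⟨_, rfl⟩
  obtain ⟨Lc, hLc⟩ : ∃ Lc : H' → MvPolynomial (Fin (t + 1)) ℂ, Lc = fun j => L' j.1 := ⟨_, rfl⟩
  have hLch : ∀ j, (Lc j).IsHomogeneous D' := by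
    intro j
    rw [hLc]
    exact hL'h _
  have hLcI : ∀ Q : MvPolynomial (Fin (t + 1)) ℂ, Q.IsHomogeneous D' →
      Q = ∑ j, eval (x' j) Q • Lc j := by
    intro Q hQ
    have h1 := hL' Q hQ
    rw [← Finset.sum_coe_sort] at h1
    rw [hx', hLc]
    exact h1
  have hcx' : ∀ j, eval (x' j) c ≠ 0 := by
    intro j
    rw [hx']
    exact j.1.2
  -- the curve lies in the cone
  have hZ₁ : ∀ᶠ z in 𝓝 z₁, Y z ∈ ZS x' Lc c (N m₀) := by
    have hmapc : ∀ {S : Type} [CommRing S] [Algebra ℂ S] (f : An z₁ →ₐ[ℂ] S),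
        map (f : An z₁ →+* S) (map (algebraMap ℂ (An z₁)) c) = map (algebraMap ℂ S) c := by
      intro S _ _ f
      rw [MvPolynomial.map_map]
      have h0 : (f : An z₁ →+* S).comp (algebraMap ℂ (An z₁)) = algebraMap ℂ S :=
        f.comp_algebraMap
      rw [h0]
    have h1 : map (tayHom z₁ : An z₁ →+* PowerSeries ℂ)
        (sp (yB hYan z₁) (N m₀) -
          map (algebraMap ℂ (An z₁)) c * qt x' Lc c (sp (yB hYan z₁) (N m₀))) = 0 := by
      rw [map_sub, map_mul, map_qt, map_sp, hmapc, ← hF₀]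
      conv_lhs => rw [hF]
      rw [qt_mul x' Lc hLcI hcx' hFh, sub_self]
    filter_upwards [eventually_map_eq_zero h1] with z hz
    rw [map_sub, map_mul, map_qt, map_sp, evA_yB, hmapc, sub_eq_zero] at hz
    simp only [Algebra.algebraMap_self, MvPolynomial.map_id] at hz
    exact hz
  have hZ₁m : ∀ m, ∀ᶠ z in 𝓝 z₁, Y z ∈ ZS x' Lc c (N m) := by
    intro m
    obtain ⟨X₀, hX₀⟩ : ∃ X₀ : Fin (t + 1) → ℂ, eval X₀ (sp (Y z₁) (N m₀)) ≠ 0 := by
      by_contra hcon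
      push Not at hcon
      apply h0
      apply MvPolynomial.funext
      intro X₀
      rw [hcon, map_zero]
    have hcont : ContinuousAt (fun z => eval X₀ (sp (Y z) (N m₀))) z₁ := by
      have h1 : (fun z => eval X₀ (sp (Y z) (N m₀))) = fun z => eval (Y z) (nx (N m₀) X₀) := by
        funext z
        rw [eval_nx]
      rw [h1]
      exact (continuous_eval _).continuousAt.comp hY.continuous.continuousAt
    filter_upwards [hZ₁, hcont.eventually_ne hX₀] with z hz1 hz2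
    obtain ⟨r, h3⟩ : ∃ r : ℂ, sp (Y z) (N m) = C r * sp (Y z) (N m₀) := by
      refine ⟨eval X₀ (sp (Y z) (N m)) / eval X₀ (sp (Y z) (N m₀)), ?_⟩
      apply MvPolynomial.funext
      intro X
      rw [map_mul, eval_C, div_mul_eq_mul_div, eq_div_iff hz2]
      have h5 := h.prop (Y z) (hYF z) m m₀ X X₀
      rw [h5]
    have h4 : sp (Y z) (N m₀) = c * qt x' Lc c (sp (Y z) (N m₀)) := hz1
    show sp (Y z) (N m) = c * qt x' Lc c (sp (Y z) (N m))
    rw [h3, qt_C_mul]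
    conv_lhs => rw [h4]
    ring
  have hZall : ∀ m z₂, ∀ᶠ z in 𝓝 z₂, Y z ∈ ZS x' Lc c (N m) := fun m z₂ =>
    ZS_identityW x' Lc c (h.homY m) hWL (hZ₁m m) z₂
  have hTall₁ : ∀ m z₂, ∀ᶠ z in 𝓝 z₂, TS x' Lc c (N m) (Y z) (deriv Y z) := fun m z₂ =>
    eventually_TSB x' Lc c (N := N m) hLcI hLch hcx' hYan (hZall m z₂)
  have hTall₂ : ∀ z₂, ∀ᶠ z in 𝓝 z₂, TF 𝔣 (Y z) (deriv Y z) := fun z₂ =>
    eventually_TF (hY.analyticAt z₂) (Filter.Eventually.of_forall hYF)
  obtain ⟨Z, hZdef⟩ : ∃ Z : Set (Fin (n + 1) → ℂ),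
    Z = (⋂ m, ZS x' Lc c (N m)) ∩ ZF 𝔣 := ⟨_, rfl⟩
  obtain ⟨TT, hTT⟩ : ∃ TT : (Fin (n + 1) → ℂ) → (Fin (n + 1) → ℂ) → Prop,
    TT = fun y w => (∀ m, TS x' Lc c (N m) y w) ∧ TF 𝔣 y w := ⟨_, rfl⟩
  have hTTZ : ∀ y w, TT y w → y ∈ Z := by
    intro y w hyw
    rw [hTT] at hyw
    rw [hZdef]
    exact ⟨Set.mem_iInter.mpr fun m => (hyw.1 m).1, hyw.2.1⟩
  have hTTs : ∀ y w (l μ' c' : ℂ), l ≠ 0 → TT y w →
      TT (sc wt l y) (c' • sc wt l (w + μ' • eu wt y)) := by
    intro y w l μ' c' _ hyw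
    rw [hTT] at hyw ⊢
    exact ⟨fun m => TS_sc x' Lc c (h.homY m) l μ' c' (hyw.1 m), TF_sc h.wF l μ' c' hyw.2⟩
  have hTTY : ∀ z, TT (Y z) (deriv Y z) := by
    intro z
    rw [hTT]
    exact ⟨fun m => (hTall₁ m z).self_of_nhds, (hTall₂ z).self_of_nhds⟩
  have hYZ : ∀ z, Y z ∈ Z := fun z => hTTZ _ _ (hTTY z)
  have hZclosed : IsClosed Z := by
    rw [hZdef]
    exact (isClosed_iInter fun m => isClosed_ZS x' Lc c (N m)).inter isClosed_ZF
  have hZsc : ∀ y ∈ Z, ∀ l : ℂ, l ≠ 0 → sc wt l y ∈ Z := by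
    intro y hy l _
    rw [hZdef] at hy ⊢
    exact ⟨Set.mem_iInter.mpr fun m => sc_mem_ZS x' Lc c (h.homY m)
      (Set.mem_iInter.mp hy.1 m), sc_mem_ZF h.wF hy.2⟩
  have hZS : ∀ m, ∀ y ∈ Z, sp y (N m) = c * qt x' Lc c (sp y (N m)) := by
    intro m y hy
    rw [hZdef] at hy
    exact Set.mem_iInter.mp hy.1 m
  have hZF' : ∀ y ∈ Z, y ∈ ZF 𝔣 := by
    intro y hy
    rw [hZdef] at hy
    exact hy.2
  have hZbd : ∀ y ∈ Z, n1 wt y = 1 → ‖y‖ ≤ K₀ := fun y hy => hK₀ y (hZF' y hy)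
  -- values at the points
  have hval : ∀ m, ∀ y ∈ ZF 𝔣, ∀ (j : ι), eval y (P j) = 0 → eval (x j) (sp y (N m)) = 0 := by
    intro m y hy j hj
    obtain ⟨u, v, -, -, huv, -⟩ := h.evalU m j
    rw [huv y 0 hy, hj, zero_mul]
  by_cases hD' : D' = 0
  · -- the value of the norm form is constant up to a factor
    exfalso
    subst hD'
    obtain ⟨j₀, hj₀⟩ : ∃ j, eval (x j) c ≠ 0 := by
      by_contra hcon
      push Not at hcon
      have h1 : (1 : MvPolynomial (Fin (t + 1)) ℂ) = 0 :=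
        h.dense_sub hch hc0 (isHomogeneous_one _ _) (by omega) fun j hj => absurd (hcon j) hj
      exact one_ne_zero h1
    apply hnc
    apply const_of_coneW hWL hZclosed hZsc hZbd hed (hP j₀) ?_ hYZ
    intro y hy hy0 hpy
    obtain ⟨m, hm⟩ := h.nz y (hZF' y hy) hy0
    have h1 := hZS m y hy
    have h2 : (qt x' Lc c (sp y (N m))).IsHomogeneous 0 := qt_isHomogeneous _ _ hLch _ _
    have h3 : (qt x' Lc c (sp y (N m))) = C (coeff 0 (qt x' Lc c (sp y (N m)))) := by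
      rw [← totalDegree_eq_zero_iff_eq_C]
      exact Nat.le_zero.mp h2.totalDegree_le
    have h4 := hval m y (hZF' y hy) j₀ hpy
    rw [h1, map_mul] at h4
    have h5 := (mul_eq_zero.mp h4).resolve_left hj₀
    rw [h3, eval_C] at h5
    rw [h5, C_0] at h3
    apply hm
    rw [h1, h3, mul_zero]
  · have hD'1 : 1 ≤ D' := Nat.one_le_iff_ne_zero.mpr hD'
    -- the points
    have hP₂h : (sp (Y z₁) (N m₀)).IsHomogeneous D := sp_isHomogeneous (h.homT m₀) _
    obtain ⟨H, L, hHcard, hLh', hLδ, hLI⟩ := exists_interp (d := k + D')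
      (fun j : {j // eval (x j) (sp (Y z₁) (N m₀)) ≠ 0} => x j) (fun Q hQ hv =>
        h.dense_sub hP₂h h0 hQ (by omega) fun j hj => hv ⟨j, hj⟩)
    obtain ⟨xH, hxH⟩ : ∃ xH : H → Fin (t + 1) → ℂ, xH = fun j => x j.1.1 := ⟨_, rfl⟩
    obtain ⟨LH, hLH⟩ : ∃ LH : H → MvPolynomial (Fin (t + 1)) ℂ, LH = fun j => L j.1 := ⟨_, rfl⟩
    obtain ⟨PH, hPH⟩ : ∃ PH : H → MvPolynomial (Fin (n + 1)) ℂ, PH = fun j => P j.1.1 := ⟨_, rfl⟩
    have hPHh : ∀ j, IsWeightedHomogeneous wt (PH j) ed := by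
      intro j
      rw [hPH]
      exact hP _
    have hLHh : ∀ j, (LH j).IsHomogeneous (k + D') := by
      intro j
      rw [hLH]
      exact hLh' _
    have hinterp : ∀ Q : MvPolynomial (Fin (t + 1)) ℂ, Q.IsHomogeneous (k + D') →
        Q = ∑ j, eval (xH j) Q • LH j := by
      intro Q hQ
      have h1 := hLI Q hQ
      rw [← Finset.sum_coe_sort] at h1
      rw [hxH, hLH]
      exact h1
    have hδ : ∀ i j, eval (xH j) (LH i) = if i = j then 1 else 0 := by
      intro i j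
      have h1 := hLδ i i.2 j j.2
      rw [hxH, hLH]
      simp only [Subtype.ext_iff] at h1 ⊢
      exact h1
    have hvalH : ∀ m, ∀ y ∈ ZF 𝔣, ∀ (j : H), eval y (PH j) = 0 →
        eval (xH j) (sp y (N m)) = 0 := by
      intro m y hy j hj
      rw [hPH] at hj
      rw [hxH]
      exact hval m y hy _ hj
    have hcH : ∀ j, eval (xH j) c ≠ 0 := by
      intro j hj
      have h1 : eval (xH j) (sp (Y z₁) (N m₀)) ≠ 0 := by
        rw [hxH]
        exact j.1.2
      apply h1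
      have h2 := hZS m₀ _ (hYZ z₁)
      rw [h2, map_mul, hj, zero_mul]
    obtain ⟨𝓑, h𝓑card, h𝓑cov, h𝓑inj, h𝓑G⟩ := exists_jetForm3 xH LH hinterp
    -- covering
    have hcov : ∀ y ∈ Z, n1 wt y ≠ 0 → ∃ B ∈ 𝓑, ∀ j, eval y (PH j) = 0 → j ∈ B := by
      intro y hy hy0
      obtain ⟨m, hm⟩ := h.nz y (hZF' y hy) hy0
      have h1 := hZS m y hy
      have hq0 : qt x' Lc c (sp y (N m)) ≠ 0 := by
        intro h0
        rw [h0, mul_zero] at h1
        exact hm h1
      obtain ⟨B, hB, hSB⟩ := h𝓑cov (Finset.univ.filter fun j => eval y (PH j) = 0) (by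
        intro c' hc' hv
        have h2 : c' * qt x' Lc c (sp y (N m)) = 0 := by
          apply eq_zero_of_vanish3 xH LH hinterp
            (hc'.mul (qt_isHomogeneous x' Lc hLch c (sp y (N m))))
          intro j
          rw [map_mul]
          by_cases hj : eval y (PH j) = 0
          · have h3 := hvalH m y (hZF' y hy) j hj
            rw [h1, map_mul] at h3
            rw [(mul_eq_zero.mp h3).resolve_left (hcH j), mul_zero]
          · rw [hv j (by
              rw [Finset.mem_filter]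
              exact fun h4 => hj h4.2), zero_mul]
        exact (mul_eq_zero.mp h2).resolve_right hq0)
      refine ⟨B, hB, fun j hj => hSB ?_⟩
      rw [Finset.mem_filter]
      exact ⟨Finset.mem_univ _, hj⟩
    obtain ⟨B₀, hB₀, -⟩ := hcov _ (hYZ z₁) (hY1 z₁)
    -- generic independence
    have hfreq := frequently_indep xH LH hLHh hδ B₀ (h𝓑inj B₀ hB₀) x' Lc hLcI hcx' (N m₀) z₁
      (yB hYan z₁) hFh hF0 (by rw [← hF₀, hF]) hsq' hconst (by
        intro j hj
        have h1 : eval (fun i => algebraMap ℂ (PowerSeries ℂ) (xH j i)) F₀ = 0 := by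
          rw [hF, map_mul, hj, mul_zero]
        have h2 := congrArg (ccA : PowerSeries ℂ →+* ℂ) h1
        rw [map_eval, map_zero, hcc] at h2
        have h3 : (fun i => (ccA : PowerSeries ℂ →+* ℂ) (algebraMap ℂ (PowerSeries ℂ) (xH j i))) =
            xH j := by
          funext i
          exact ccA.commutes _
        have h4 : eval (xH j) (sp (Y z₁) (N m₀)) = 0 := by
          rw [← h3]
          exact h2
        rw [hxH] at h4
        exact j.1.2 h4)
    obtain ⟨z₀, hli, hder⟩ := (hfreq.and_eventually (evA_derivA_yB hYan z₁)).exists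
    rw [evA_yB, hder] at hli
    obtain ⟨nf, hnf⟩ : ∃ nf : (Fin (n + 1) → ℂ) → MvPolynomial (Fin (t + 1)) ℂ,
      nf = fun y => qt x' Lc c (sp y (N m₀)) := ⟨_, rfl⟩
    obtain ⟨nf1, hnf1⟩ : ∃ nf1 : (Fin (n + 1) → ℂ) → (Fin (n + 1) → ℂ) →
      MvPolynomial (Fin (t + 1)) ℂ, nf1 = fun y w => qt x' Lc c (sp1 y w (N m₀)) := ⟨_, rfl⟩
    have hnfh : ∀ y, (nf y).IsHomogeneous D' := by
      intro y
      rw [hnf]
      exact qt_isHomogeneous _ _ hLch _ _
    have hnf1h : ∀ y w, (nf1 y w).IsHomogeneous D' := by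
      intro y w
      rw [hnf1]
      exact qt_isHomogeneous _ _ hLch _ _
    obtain ⟨G, hG0, hG⟩ := h𝓑G (nf (Y z₀)) (nf1 (Y z₀) (deriv Y z₀)) (hnfh _)
      (hnf1h _ _) ⟨B₀, hB₀, by rw [hnf, hnf1]; exact hli⟩
    obtain ⟨e, he⟩ : ∃ e, e = B₀.card := ⟨_, rfl⟩
    have hcardH : Fintype.card H = (t + (k + D')).choose (k + D') := by
      rw [Fintype.card_coe, hHcard, finrank_homogeneousSubmodule]
    have heq : e + (t + k).choose k = (t + (k + D')).choose (k + D') := by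
      have h1 := h𝓑card B₀ hB₀
      rw [finrank_homogeneousSubmodule, hcardH] at h1
      rw [he, h1]
    -- scaling of `G`
    have hGs : ∀ (v₀ v₁ : MvPolynomial (Fin (t + 1)) ℂ) (α β : ℂ), v₀.IsHomogeneous D' →
        v₁.IsHomogeneous D' → G (C α * v₀) (C α * v₁ + C β * v₀) = (α ^ 2) ^ e * G v₀ v₁ := by
      intro v₀ v₁ α β h0 h1
      obtain ⟨a, ha⟩ := hG B₀ hB₀
      rw [ha _ _ (h0.C_mul _) ((h1.C_mul _).add (h0.C_mul _)), ha _ _ h0 h1]
      have h2 : (Matrix.of fun i j : B₀ =>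
          a i (wr (xH j) (C α * v₀) (C α * v₁ + C β * v₀) * LH j)) =
          α ^ 2 • (Matrix.of fun i j : B₀ => a i (wr (xH j) v₀ v₁ * LH j)) := by
        ext i j
        rw [Matrix.smul_apply, Matrix.of_apply, Matrix.of_apply, wr_scale, mul_assoc,
          ← smul_eq_C_mul, map_smul]
      rw [h2, Matrix.det_smul, Fintype.card_coe, he]
    have hGc : ∀ (v₀ v₁ : MvPolynomial (Fin (t + 1)) ℂ) (α : ℂ), v₀.IsHomogeneous D' →
        v₁.IsHomogeneous D' → G v₀ (C α * v₁) = α ^ e * G v₀ v₁ := by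
      intro v₀ v₁ α h0 h1
      obtain ⟨a, ha⟩ := hG B₀ hB₀
      rw [ha _ _ h0 (h1.C_mul _), ha _ _ h0 h1]
      have h2 : (Matrix.of fun i j : B₀ => a i (wr (xH j) v₀ (C α * v₁) * LH j)) =
          α • (Matrix.of fun i j : B₀ => a i (wr (xH j) v₀ v₁ * LH j)) := by
        ext i j
        rw [Matrix.smul_apply, Matrix.of_apply, Matrix.of_apply, wr_smul, mul_assoc,
          ← smul_eq_C_mul, map_smul]
      rw [h2, Matrix.det_smul, Fintype.card_coe, he]
    obtain ⟨Gf, hGf⟩ : ∃ Gf : (Fin (n + 1) → ℂ) → (Fin (n + 1) → ℂ) → ℂ,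
      Gf = fun y w => G (nf y) (nf1 y w) := ⟨_, rfl⟩
    obtain ⟨aG, haG⟩ : ∃ aG, aG = 2 * a * e := ⟨_, rfl⟩
    have hJ1 : ∀ y w (l μ' : ℂ), l ≠ 0 →
        Gf (sc wt l y) (sc wt l (w + μ' • eu wt y)) = l ^ aG * Gf y w := by
      intro y w l μ' _
      rw [hGf]
      beta_reduce
      have h1 : nf (sc wt l y) = C (l ^ a) * nf y := by
        rw [hnf]
        beta_reduce
        rw [sp_sc (h.homY m₀), qt_C_mul]
      have h2 : nf1 (sc wt l y) (sc wt l (w + μ' • eu wt y)) = C (l ^ a) * nf1 y w +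
          C (μ' * l ^ a * a) * nf y := by
        rw [hnf, hnf1]
        beta_reduce
        rw [sp1_sc (h.homY m₀), qt_add, qt_C_mul, qt_C_mul]
      rw [h1, h2, hGs _ _ _ _ (hnfh _) (hnf1h _ _), haG]
      congr 1
      rw [← pow_mul, ← pow_mul]
      congr 1
      ring
    have hJ2 : ∀ y w (c : ℂ), Gf y (c • w) = c ^ e * Gf y w := by
      intro y w c'
      rw [hGf]
      beta_reduce
      have h2 : nf1 y (c' • w) = C c' * nf1 y w := by
        rw [hnf1]
        beta_reduce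
        rw [sp1_smul, qt_C_mul]
      rw [h2, hGc _ _ _ (hnfh _) (hnf1h _ _)]
    -- factorisation
    have hFac : FacH PH TT 𝓑 Gf := by
      intro B hB
      obtain ⟨a', ha'⟩ := hG B hB
      choose u v hu hv huv huv' using h.evalU m₀
      refine ⟨fun i j y w => (eval (xH j) c)⁻¹ *
          (u j.1.1.1 y w * (a' i ∘ₗ LinearMap.mulRight ℂ (LH j)) (nf1 y w) -
            v j.1.1.1 y w * (a' i ∘ₗ LinearMap.mulRight ℂ (LH j)) (nf y)),
        fun i j y w => -((eval (xH j) c)⁻¹ *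
          (u j.1.1.1 y w * (a' i ∘ₗ LinearMap.mulRight ℂ (LH j)) (nf y))), ?_, ?_, ?_⟩
      · intro i j
        rw [hnf, hnf1]
        exact (hol_const _).mul (((hu _).mul (hol_qt x' Lc (hol_sp1 (N m₀)) c _)).sub
          ((hv _).mul (hol_qt x' Lc (Φ := fun y _ => sp y (N m₀)) (hol_sp (N m₀)) c _)))
      · intro i j
        rw [hnf]
        exact ((hol_const _).mul ((hu _).mul
          (hol_qt x' Lc (Φ := fun y _ => sp y (N m₀)) (hol_sp (N m₀)) c _))).neg
      · intro y w hT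
        rw [hGf]
        beta_reduce
        rw [ha' _ _ (hnfh _) (hnf1h _ _)]
        congr 1
        ext i j
        rw [Matrix.of_apply, Matrix.of_apply]
        rw [hTT] at hT
        obtain ⟨hT12, hT3⟩ := hT
        obtain ⟨hT1, hT2⟩ := hT12 m₀
        have e1 : eval (xH j) (nf y) = (eval (xH j) c)⁻¹ * ((eval y (PH j)) * u j.1.1.1 y w) := by
          have h1 : sp y (N m₀) = c * nf y := by rw [hnf]; exact hT1
          have h2 := congrArg (eval (xH j)) h1
          rw [map_mul] at h2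
          have h3 := huv j.1.1.1 y w hT3.1
          have h4 : eval (xH j) (sp y (N m₀)) = (eval y (PH j)) * u j.1.1.1 y w := by
            rw [hxH, hPH]
            exact h3
          rw [← h4, h2, ← mul_assoc, inv_mul_cancel₀ (hcH j), one_mul]
        have e2 : eval (xH j) (nf1 y w) = (eval (xH j) c)⁻¹ *
            ((dev (PH j) y w) * u j.1.1.1 y w + (eval y (PH j)) * v j.1.1.1 y w) := by
          have h1 : sp1 y w (N m₀) = c * nf1 y w := by rw [hnf1]; exact hT2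
          have h2 := congrArg (eval (xH j)) h1
          rw [map_mul] at h2
          have h3 := huv' j.1.1.1 y w hT3
          have h4 : eval (xH j) (sp1 y w (N m₀)) =
              (dev (PH j) y w) * u j.1.1.1 y w + (eval y (PH j)) * v j.1.1.1 y w := by
            rw [hxH, hPH]
            exact h3
          rw [← h4, h2, ← mul_assoc, inv_mul_cancel₀ (hcH j), one_mul]
        have e3 : wr (xH j) (nf y) (nf1 y w) * LH j =
            eval (xH j) (nf y) • (nf1 y w * LH j) - eval (xH j) (nf1 y w) • (nf y * LH j) := by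
          rw [wr, smul_eq_C_mul, smul_eq_C_mul]
          ring
        rw [e3, map_sub, map_smul, map_smul, e1, e2]
        simp only [LinearMap.comp_apply, LinearMap.mulRight_apply, smul_eq_mul]
        ring
    -- the estimate
    obtain ⟨Cb, hCb, hbound⟩ := static_bound PH wt hPHh (a := aG) (e := e) (aS := 1) 𝓑 hZclosed
      hZbd hTTZ hTTs (fun (_ : Unit) y => n1 wt y) (fun _ => continuous_n1 wt)
      (fun _ y => n1_nonneg wt y)
      (fun _ y l => by rw [n1_sc, pow_one]) (fun y _ hy => ⟨(), hy⟩)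
      (fun _ y hy hy0 _ => hcov y hy hy0) (fun _ => Gf) (fun _ => hFac)
      (fun _ => hJ1) (fun _ => hJ2)
    have hPtop : ∀ (j : ι) (z₂ : ℂ), analyticOrderAt (fun z => eval (Y z) (P j)) z₂ ≠ ⊤ := by
      intro j z₂ htop'
      obtain ⟨w, hw⟩ := htop j
      apply hw
      have han : AnalyticOnNhd ℂ (fun z => eval (Y z) (P j)) Set.univ := fun z _ =>
        analyticAt_eval (hY.analyticAt z) (P j)
      exact han.eqOn_zero_of_preconnected_of_eventuallyEq_zero isPreconnected_univ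
        (Set.mem_univ z₂) (analyticOrderAt_eq_top.mp htop') (Set.mem_univ w)
    have hdet : ∀ z₂ : ℂ, AnalyticAt ℂ (fun z => Gf (Y z) (deriv Y z)) z₂ ∧
        ((∑ j, (analyticOrderNatAt (fun z => eval (Y z) (PH j)) z₂ - 1) : ℕ) : ℕ∞) ≤
          analyticOrderAt (fun z => Gf (Y z) (deriv Y z)) z₂ := by
      intro z₂
      obtain ⟨B, hB, hBc⟩ := hcov _ (hYZ z₂) (hY1 z₂)
      exact det_order PH hFac (hY.analyticAt z₂) (Filter.Eventually.of_forall hTTY) hB hBc
        (fun j => by rw [hPH]; exact hPtop _ _)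
    have hg0 : Gf (Y z₀) (deriv Y z₀) ≠ 0 := by
      rw [hGf]
      exact hG0
    have hgan : AnalyticOnNhd ℂ (fun z => Gf (Y z) (deriv Y z)) Set.univ := fun z _ => (hdet z).1
    obtain ⟨Hf, hHf⟩ : ∃ Hf : Finset ι, Hf = H.map ⟨Subtype.val, Subtype.val_injective⟩ :=
      ⟨_, rfl⟩
    have hHfcard : Hf.card = Fintype.card H := by
      rw [hHf, Finset.card_map, Fintype.card_coe]
    have hsum : ∀ f : ι → ℕ, ∑ j ∈ Hf, f j = ∑ j : H, f j.1.1 := by
      intro f
      rw [hHf, Finset.sum_map, ← Finset.sum_coe_sort]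
      rfl
    have hprod : ∀ f : ι → ℝ, ∏ j ∈ Hf, f j = ∏ j : H, f j.1.1 := by
      intro f
      rw [hHf, Finset.prod_map, ← Finset.prod_coe_sort]
      rfl
    have hmemHf : ∀ j : H, j.1.1 ∈ Hf := by
      intro j
      rw [hHf]
      exact Finset.mem_map_of_mem ⟨Subtype.val, Subtype.val_injective⟩ j.2
    refine ⟨Hf, D', fun z => Gf (Y z) (deriv Y z), Cb, e, by omega, by rw [hHfcard, hcardH],
      fun z => (hdet z).1.differentiableAt, ⟨z₀, hg0⟩, hCb, ?_, ?_⟩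
    · intro z₂
      have h1 := (hdet z₂).2
      have h2 : analyticOrderAt (fun z => Gf (Y z) (deriv Y z)) z₂ ≠ ⊤ := by
        intro htop'
        apply hg0
        exact hgan.eqOn_zero_of_preconnected_of_eventuallyEq_zero isPreconnected_univ
          (Set.mem_univ z₂) (analyticOrderAt_eq_top.mp htop') (Set.mem_univ z₀)
      rw [← Nat.cast_analyticOrderNatAt h2, Nat.cast_le] at h1
      rw [hsum]
      refine le_trans (le_of_eq ?_) h1
      rw [hPH]
    · intro z hz τ hτ β h1 h2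
      have h3 := hTTs (Y z) (deriv Y z) 1 (-β) 1 one_ne_zero (hTTY z)
      rw [one_smul, sc_one, sc_one] at h3
      have h4 := hJ1 (Y z) (deriv Y z) 1 (-β) one_ne_zero
      rw [sc_one, sc_one, one_pow, one_mul] at h4
      have h5 := hbound () (Y z) (deriv Y z + (-β) • eu wt (Y z)) (hY1 z) h3 (fun _ => le_rfl)
        τ hτ (by
          intro i
          refine le_trans (le_of_eq ?_) (h1 i)
          congr 1
          rw [Pi.add_apply, Pi.smul_apply, eu, smul_eq_mul]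
          ring) (by
          intro j
          have h6 := h2 _ (hmemHf j)
          rw [deriv_eval (hY.analyticAt z)] at h6
          refine le_trans (le_of_eq ?_) (h6.trans (le_of_eq ?_))
          · congr 1
            rw [dev_add, dev_smul, dev_eu (hPHh j), hPH]
            ring
          · rw [hPH])
      rw [h4] at h5
      rw [hprod, hHfcard]
      have h7 : (t + (k + D')).choose (k + D') - (t + k).choose k = e := by omega
      rw [h7, ← haG]
      refine h5.trans (le_of_eq ?_)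
      rw [hPH]

end Pool.Agent.Lib.GGL.SF
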