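import Mathlib
import Pool.Agent.Lib.MP_8d161d_ag.SF.Defs
import Pool.Agent.Lib.MP_8d161d_ag.Mg.G012
import Pool.Agent.Lib.MP_8d161d_ag.SM.B9a
import Pool.Agent.Lib.MP_8d161d_ag.Mg.G015

/-!
The second main theorem from the determinant.
-/

open MvPolynomial Filter Topology

namespace Pool.Agent.Lib.GGL.SF

open SM

/-- the comparison function for a multiple of the height -/
private theorem c3_phi {n : ℕ} {Y : ℂ → Fin (n + 1) → ℂ} (hY : Differentiable ℂ Y)
    (hY0 : ∀ z, Y z ≠ 0) {W : ℕ} (hW : 0 < W) :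
    ∃ (Φ : ℝ → ℝ) (C : ℝ), 0 ≤ C ∧ MonotoneOn Φ (Set.Ici 1) ∧ ∀ r, 1 ≤ r → 1 ≤ Φ r ∧
      |Real.circleAverage (fun z => (W : ℝ) * Real.log ‖Y z‖) 0 r| ≤ Φ r ∧
      Real.log (Φ r) ≤ C + Real.posLog (SM.height Y r) := by
  obtain ⟨Φ, C₁, hΦm, hΦ⟩ := height_comparison hY hY0
  have hW1 : (1 : ℝ) ≤ W := by exact_mod_cast hW
  have hW0 : (0 : ℝ) < W := by linarith
  have hC₁ : 1 ≤ |C₁| * (|height Y 1| + 1) := by
    have h1 := (hΦ 1 le_rfl).1
    have h2 := (hΦ 1 le_rfl).2.2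
    have h3 : C₁ * (|height Y 1| + 1) ≤ |C₁| * (|height Y 1| + 1) := by
      gcongr
      exact le_abs_self _
    linarith
  have hC₁0 : 0 < |C₁| := by
    by_contra h
    have : |C₁| = 0 := le_antisymm (not_lt.mp h) (abs_nonneg _)
    rw [this, zero_mul] at hC₁
    linarith
  have hlog2 : 0 ≤ Real.log 2 := Real.log_nonneg (by norm_num)
  refine ⟨fun r => W * Φ r, Real.log W + |Real.log (|C₁|)| + Real.log 2, ?_, ?_, ?_⟩
  · have := Real.log_nonneg hW1
    positivity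
  · intro a ha b hb hab
    exact mul_le_mul_of_nonneg_left (hΦm ha hb hab) hW0.le
  · intro r hr
    obtain ⟨h1, h2, h3⟩ := hΦ r hr
    refine ⟨by nlinarith, ?_, ?_⟩
    · have e1 : Real.circleAverage (fun z => (W : ℝ) * Real.log ‖Y z‖) 0 r =
          W * height Y r := Real.circleAverage_fun_smul (a := (W : ℝ))
            (f := fun z => Real.log ‖Y z‖)
      rw [e1, abs_mul, abs_of_pos hW0]
      exact mul_le_mul_of_nonneg_left h2 hW0.le
    · have h4 : Φ r ≤ |C₁| * (|height Y r| + 1) := h3.trans (by gcongr; exact le_abs_self _)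
      have h5 : Real.log (Φ r) ≤ Real.log (|C₁| * (|height Y r| + 1)) :=
        Real.log_le_log (by linarith) h4
      rw [Real.log_mul hC₁0.ne' (by positivity)] at h5
      have h6 : Real.log (|height Y r| + 1) ≤ Real.log 2 + Real.posLog (height Y r) := by
        rcases le_total (|height Y r|) 1 with h | h
        · have : Real.log (|height Y r| + 1) ≤ Real.log 2 :=
            Real.log_le_log (by positivity) (by linarith)
          have := Real.posLog_nonneg (x := height Y r)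
          linarith
        · have h7 : Real.log (|height Y r| + 1) ≤ Real.log (2 * |height Y r|) :=
            Real.log_le_log (by positivity) (by linarith)
          rw [Real.log_mul two_ne_zero (by linarith), Real.log_abs] at h7
          have : Real.log (height Y r) ≤ Real.posLog (height Y r) := le_max_right _ _
          linarith
      have h7 := le_abs_self (Real.log (|C₁|))
      show Real.log ((W : ℝ) * Φ r) ≤ _
      rw [Real.log_mul hW0.ne' (by linarith)]
      linarith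

/-- the logarithmic derivative of `u * v ^ k` -/
private theorem c3_logd {u v : ℂ → ℂ} {z : ℂ} (hu : DifferentiableAt ℂ u z)
    (hv : DifferentiableAt ℂ v z) (hu0 : u z ≠ 0) (hv0 : v z ≠ 0) (k : ℕ) :
    deriv (fun z => u z * v z ^ k) z / (u z * v z ^ k) =
      deriv u z / u z + k * (deriv v z / v z) := by
  have h1 : HasDerivAt (fun z => u z * v z ^ k)
      (deriv u z * v z ^ k + u z * (k * v z ^ (k - 1) * deriv v z)) z :=
    hu.hasDerivAt.mul (hv.hasDerivAt.fun_pow k)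
  rw [h1.deriv]
  have hk : v z ^ k ≠ 0 := pow_ne_zero _ hv0
  rcases Nat.eq_zero_or_pos k with rfl | hk0
  · simp
  · obtain ⟨m, rfl⟩ : ∃ m, k = m + 1 := ⟨k - 1, by omega⟩
    rw [Nat.add_sub_cancel, pow_succ]
    have hm : v z ^ m ≠ 0 := pow_ne_zero _ hv0
    field_simp

private theorem c3_logDeriv {n N : ℕ} {H : Type} [Fintype H] {Y : ℂ → Fin (n + 1) → ℂ}
    (hY : Differentiable ℂ Y) (hY0 : ∀ z, Y z ≠ 0) {wt : Fin (N + 1) → ℕ}
    {Y' : ℂ → Fin (N + 1) → ℂ} (hY' : Differentiable ℂ Y') {ed : ℕ} (hed : 0 < ed) {K : ℝ}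
    (hK : 1 ≤ K)
    (hYK : ∀ z i, ‖Y' z i‖ ≤ K * ‖Y z‖ ^ wt i)
    {h : H → ℂ → ℂ} (hh : ∀ j, Differentiable ℂ (h j)) (hh0 : ∀ j, ∃ z, h j z ≠ 0)
    (hhK : ∀ j z, ‖h j z‖ ≤ K * ‖Y z‖ ^ ed) :
    ∃ (C : ℝ) (E : Set ℝ), 0 ≤ C ∧ MeasureTheory.volume E < ⊤ ∧ ∀ r : ℝ, 1 ≤ r → r ∉ E →
      ∀ z : ℂ, ‖z‖ = r → (∀ j, h j z ≠ 0) ∧ ∃ β : ℂ,
        (∀ i, ‖deriv Y' z i - β * wt i * Y' z i‖ ≤
          K * Real.exp (C * (Real.log r + Real.posLog (SM.height Y r) + 1)) * ‖Y z‖ ^ wt i) ∧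
        (∀ j, ‖deriv (h j) z - β * ed * h j z‖ ≤
          K * Real.exp (C * (Real.log r + Real.posLog (SM.height Y r) + 1)) * ‖h j z‖) := by
  classical
  obtain ⟨i₀, hi₀⟩ : ∃ i₀, Y 0 i₀ ≠ 0 := by
    by_contra hcon
    push Not at hcon
    exact hY0 0 (funext hcon)
  obtain ⟨y, hy⟩ : ∃ y : ℂ → ℂ, y = fun z => Y z i₀ := ⟨_, rfl⟩
  have hyd : Differentiable ℂ y := by
    rw [hy]
    exact (differentiable_pi.mp hY) i₀
  have hy0 : y 0 ≠ 0 := by rw [hy]; exact hi₀
  have hyn : ∀ z, ‖y z‖ ≤ ‖Y z‖ := by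
    intro z
    rw [hy]
    exact norm_le_pi_norm (Y z) i₀
  have hYpos : ∀ z, 0 < ‖Y z‖ := fun z => norm_pos_iff.mpr (hY0 z)
  obtain ⟨W, hWed, hWwt⟩ : ∃ W : ℕ, ed ≤ W ∧ ∀ i, wt i ≤ W := by
    refine ⟨max ed (Finset.univ.sup wt), le_max_left _ _, fun i => ?_⟩
    exact (Finset.le_sup (Finset.mem_univ i)).trans (le_max_right _ _)
  have hW : 0 < W := hed.trans_le hWed
  obtain ⟨Φ, C₃, hC₃, hΦm, hΦ⟩ := c3_phi hY hY0 hW
  have hY'd : ∀ i, Differentiable ℂ fun z => Y' z i := fun i => (differentiable_pi.mp hY') i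
  -- the family
  obtain ⟨fam, hfam⟩ : ∃ fam : Option (Fin (N + 1) ⊕ H) → ℂ → ℂ, fam = fun x z => match x with
    | none => 1 * y z ^ W
    | some (Sum.inl i) => Y' z i * y z ^ (W - wt i)
    | some (Sum.inr j) => h j z * y z ^ (W - ed) := ⟨_, rfl⟩
  have hf1 : fam none = fun z => 1 * y z ^ W := by rw [hfam]
  have hf2 : ∀ i, fam (some (Sum.inl i)) = fun z => Y' z i * y z ^ (W - wt i) := by
    intro i
    rw [hfam]
  have hf3 : ∀ j, fam (some (Sum.inr j)) = fun z => h j z * y z ^ (W - ed) := by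
    intro j
    rw [hfam]
  have hfamd : ∀ x, Differentiable ℂ (fam x) := by
    rintro (_ | i | j)
    · rw [hf1]
      exact (hyd.fun_pow W).const_mul 1
    · rw [hf2]
      exact (hY'd i).fun_mul (hyd.fun_pow _)
    · rw [hf3]
      exact (hh j).fun_mul (hyd.fun_pow _)
  have hfamn : ∀ x z, ‖fam x z‖ ≤ K * ‖Y z‖ ^ W := by
    have hgen : ∀ (u : ℂ) (z : ℂ) (a : ℕ), a ≤ W → ‖u‖ ≤ K * ‖Y z‖ ^ a →
        ‖u * y z ^ (W - a)‖ ≤ K * ‖Y z‖ ^ W := by
      intro u z a ha hu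
      rw [norm_mul, norm_pow]
      calc ‖u‖ * ‖y z‖ ^ (W - a) ≤ (K * ‖Y z‖ ^ a) * ‖Y z‖ ^ (W - a) := by
            gcongr
            exact hyn z
        _ = K * ‖Y z‖ ^ W := by
            rw [mul_assoc, ← pow_add, Nat.add_sub_cancel' ha]
    rintro (_ | i | j) z
    · rw [hf1]
      have := hgen 1 z 0 (Nat.zero_le _) (by simpa using hK)
      simpa using this
    · rw [hf2]
      exact hgen _ z _ (hWwt i) (hYK z i)
    · rw [hf3]
      exact hgen _ z _ hWed (hhK j z)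
  have hcont : Continuous fun z => (W : ℝ) * Real.log ‖Y z‖ :=
    continuous_const.mul ((hY.continuous.norm).log fun z => norm_ne_zero_iff.mpr (hY0 z))
  have hbound : ∀ x z, fam x z ≠ 0 → Real.log ‖fam x z‖ ≤
      (W : ℝ) * Real.log ‖Y z‖ + Real.log K := by
    intro x z hz
    have h1 := Real.log_le_log (norm_pos_iff.mpr hz) (hfamn x z)
    rw [Real.log_mul (by linarith) (pow_pos (hYpos z) _).ne', Real.log_pow] at h1
    linarith
  obtain ⟨C₂, E, hE, hmain⟩ := logDeriv_family (ι := {x // ∃ z, fam x z ≠ 0})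
    (A := fun x => fam x.1) (fun x => hfamd x.1) (fun x => x.2) hcont (c := Real.log K)
    (fun x z hz => hbound x.1 z hz) hΦm (fun r hr => (hΦ r hr).1) (fun r hr => (hΦ r hr).2.1)
  refine ⟨|C₂| * (C₃ + 1), E, by positivity, hE, ?_⟩
  intro r hr hrE z hz
  obtain ⟨hne, h2⟩ := hmain r hr hrE z hz
  have hexp : Real.exp (C₂ * (Real.log r + Real.log (Φ r) + 1)) ≤
      Real.exp (|C₂| * (C₃ + 1) * (Real.log r + Real.posLog (height Y r) + 1)) := by
    apply Real.exp_le_exp.mpr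
    have h3 : 0 ≤ Real.log r := Real.log_nonneg hr
    have h4 : 0 ≤ Real.log (Φ r) := Real.log_nonneg (hΦ r hr).1
    have h5 : 0 ≤ Real.posLog (height Y r) := Real.posLog_nonneg
    have h6 := (hΦ r hr).2.2
    calc C₂ * (Real.log r + Real.log (Φ r) + 1) ≤ |C₂| * (Real.log r + Real.log (Φ r) + 1) := by
          gcongr
          exact le_abs_self _
      _ ≤ |C₂| * ((C₃ + 1) * (Real.log r + Real.posLog (height Y r) + 1)) := by
          gcongr
          nlinarith
      _ = _ := by ring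
  obtain ⟨X, hX⟩ : ∃ X : ℝ, X = Real.exp (|C₂| * (C₃ + 1) *
    (Real.log r + Real.posLog (height Y r) + 1)) := ⟨_, rfl⟩
  rw [← hX] at hexp ⊢
  have hX0 : 0 < X := by rw [hX]; exact Real.exp_pos _
  -- the members of the family
  have hn : ∃ z, fam none z ≠ 0 := ⟨0, by rw [hf1]; simpa using pow_ne_zero _ hy0⟩
  have hyz : y z ≠ 0 := by
    have h3 := hne ⟨none, hn⟩
    simp only [hf1] at h3
    intro h4
    apply h3
    rw [h4, zero_pow hW.ne', mul_zero]
  have hprod : ∀ (u : ℂ → ℂ) (k : ℕ), Differentiable ℂ u → (∃ z, u z ≠ 0) →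
      ∃ z, u z * y z ^ k ≠ 0 := by
    intro u k hu hu0
    have h3 : ∀ᶠ z in 𝓝[≠] (0 : ℂ), u z ≠ 0 := by
      have h4 := b9_order hu hu0 0
      have h5 := (hu.analyticAt 0).eventually_eq_zero_or_eventually_ne_zero
      rcases h5 with h5 | h5
      · exact absurd (analyticOrderAt_eq_top.2 h5) h4
      · exact h5
    have h4 : ∀ᶠ z in 𝓝[≠] (0 : ℂ), y z ≠ 0 :=
      (hyd.continuous.continuousAt.eventually_ne hy0).filter_mono nhdsWithin_le_nhds
    obtain ⟨z, h5, h6⟩ := (h3.and h4).exists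
    exact ⟨z, mul_ne_zero h5 (pow_ne_zero _ h6)⟩
  have hj : ∀ j, ∃ z, fam (some (Sum.inr j)) z ≠ 0 := by
    intro j
    rw [hf3]
    exact hprod _ _ (hh j) (hh0 j)
  have hhz : ∀ j, h j z ≠ 0 := by
    intro j h3
    apply hne ⟨_, hj j⟩
    simp only [hf3]
    rw [h3, zero_mul]
  refine ⟨hhz, deriv y z / y z, ?_, ?_⟩
  · intro i
    by_cases hi : ∃ z, Y' z i ≠ 0
    · have hi' : ∃ z, fam (some (Sum.inl i)) z ≠ 0 := by
        rw [hf2]
        exact hprod _ _ (hY'd i) hi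
      have hYz : Y' z i ≠ 0 := by
        intro h3
        apply hne ⟨_, hi'⟩
        simp only [hf2]
        rw [h3, zero_mul]
      have h3 := (h2 ⟨_, hi'⟩ ⟨none, hn⟩).trans hexp
      simp only [hf1, hf2] at h3
      rw [c3_logd (u := fun z => Y' z i) (v := y) (hY'd i z) (hyd z) hYz hyz,
        c3_logd (u := fun _ => 1) (v := y) (differentiableAt_const _) (hyd z) one_ne_zero hyz,
        deriv_const, zero_div, zero_add] at h3
      have hder : deriv (fun z => Y' z i) z = deriv Y' z i :=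
        ((hasDerivAt_pi.mp (hY' z).hasDerivAt) i).deriv
      rw [hder] at h3
      have hc : ((W - wt i : ℕ) : ℂ) = (W : ℂ) - wt i := by
        rw [Nat.cast_sub (hWwt i)]
      rw [hc] at h3
      have h4 : deriv Y' z i - deriv y z / y z * wt i * Y' z i =
          (deriv Y' z i / Y' z i + ((W : ℂ) - wt i) * (deriv y z / y z) -
            W * (deriv y z / y z)) * Y' z i := by
        field_simp
        ring
      rw [h4, norm_mul]
      calc _ ≤ X * (K * ‖Y z‖ ^ wt i) := mul_le_mul h3 (hYK z i) (norm_nonneg _) hX0.le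
        _ = _ := by ring
    · push Not at hi
      have h8 : deriv Y' z i = 0 := by
        have h9 : HasDerivAt (fun z => Y' z i) (deriv Y' z i) z :=
          hasDerivAt_pi.1 (hY' z).hasDerivAt i
        have h10 : (fun z => Y' z i) = fun _ => 0 := funext hi
        rw [h10] at h9
        exact h9.unique (hasDerivAt_const z 0)
      rw [h8, hi z, mul_zero, sub_zero, norm_zero]
      have := hYpos z
      positivity
  · intro j
    have h3 := (h2 ⟨_, hj j⟩ ⟨none, hn⟩).trans hexp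
    simp only [hf1, hf3] at h3
    rw [c3_logd (u := h j) (v := y) (hh j z) (hyd z) (hhz j) hyz,
      c3_logd (u := fun _ => 1) (v := y) (differentiableAt_const _) (hyd z) one_ne_zero hyz,
      deriv_const, zero_div, zero_add] at h3
    have hc : ((W - ed : ℕ) : ℂ) = (W : ℂ) - ed := by
      rw [Nat.cast_sub hWed]
    rw [hc] at h3
    have h4 : deriv (h j) z - deriv y z / y z * ed * h j z =
        (deriv (h j) z / h j z + ((W : ℂ) - ed) * (deriv y z / y z) -
          W * (deriv y z / y z)) * h j z := by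
      have := hhz j
      field_simp
      ring
    rw [h4, norm_mul]
    have h5 : X ≤ K * X := by nlinarith
    exact mul_le_mul_of_nonneg_right (h3.trans h5) (norm_nonneg _)

theorem smt_of_det {n N : ℕ} {H : Type} [Fintype H] {Y : ℂ → Fin (n + 1) → ℂ}
    (hY : Differentiable ℂ Y) (hY0 : ∀ z, Y z ≠ 0) {wt : Fin (N + 1) → ℕ}
    {Y' : ℂ → Fin (N + 1) → ℂ} (hY' : Differentiable ℂ Y') {ed M a' : ℕ} (hed : 0 < ed) {K : ℝ}
    (hYK : ∀ z i, ‖Y' z i‖ ≤ K * ‖Y z‖ ^ wt i)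
    {h : H → ℂ → ℂ} (hh : ∀ j, Differentiable ℂ (h j)) (hh0 : ∀ j, ∃ z, h j z ≠ 0)
    (hhK : ∀ j z, ‖h j z‖ ≤ K * ‖Y z‖ ^ ed)
    {g : ℂ → ℂ} (hg : Differentiable ℂ g) (hg0 : ∃ z, g z ≠ 0)
    (hord : ∀ z₀, ∑ j, (analyticOrderNatAt (h j) z₀ - 1) ≤ analyticOrderNatAt g z₀)
    {C : ℝ} (hC : 0 ≤ C)
    (hb : ∀ z, (∀ j, h j z ≠ 0) → ∀ τ : ℝ, 1 ≤ τ → ∀ β : ℂ,
      (∀ i, ‖deriv Y' z i - β * wt i * Y' z i‖ ≤ τ * ‖Y z‖ ^ wt i) →
      (∀ j, ‖deriv (h j) z - β * ed * h j z‖ ≤ τ * ‖h j z‖) →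
      ‖g z‖ * ‖Y z‖ ^ (ed * Fintype.card H) ≤ C * τ ^ M * ‖Y z‖ ^ a' * ∏ j, ‖h j z‖) :
    ∃ (C' : ℝ) (E : Set ℝ), 0 ≤ C' ∧ MeasureTheory.volume E < ⊤ ∧ ∀ r : ℝ, 1 ≤ r → r ∉ E →
      (((ed * Fintype.card H : ℕ) : ℝ) - a') * SM.height Y r ≤ ∑ j, SM.count1 (h j) r +
        C' * (Real.log r + Real.posLog (SM.height Y r) + 1) := by
  classical
  obtain ⟨K₁, hK₁, hKK₁⟩ : ∃ K₁ : ℝ, 1 ≤ K₁ ∧ K ≤ K₁ := ⟨max 1 K, le_max_left _ _, le_max_right _ _⟩
  obtain ⟨C₂, E, hC₂, hE, hld⟩ := c3_logDeriv hY hY0 hY' hed hK₁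
    (fun z i => (hYK z i).trans (by gcongr)) hh hh0 (fun j z => (hhK j z).trans (by gcongr))
  -- Jensen
  obtain ⟨C₁, hC₁⟩ : ∃ C₁ : ℝ, ∀ r : ℝ, 1 ≤ r →
      ∑ j, Real.circleAverage (fun z => Real.log ‖h j z‖) 0 r ≤
        Real.circleAverage (fun z => Real.log ‖g z‖) 0 r + ∑ j, count1 (h j) r + C₁ := by
    obtain ⟨e⟩ : Nonempty (Fin (Fintype.card H) ≃ H) := ⟨(Fintype.equivFin H).symm⟩
    obtain ⟨C₁, hC₁⟩ := jensen_compare (K := 1) (h := fun k => h (e k)) hg
      (fun k => hh (e k)) hg0 (fun k => hh0 (e k)) (fun _ => 1) (by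
        intro z₀
        have h1 := hord z₀
        rw [one_mul, e.sum_comp (fun j => analyticOrderNatAt (h j) z₀),
          e.sum_comp (fun j => if h j z₀ = 0 then 1 else 0)]
        refine le_trans ?_ (Nat.add_le_add_right h1 _)
        rw [← Finset.sum_add_distrib]
        refine Finset.sum_le_sum fun j _ => ?_
        by_cases h2 : h j z₀ = 0
        · rw [if_pos h2]
          omega
        · rw [if_neg h2, (b9_zero (hh j) (hh0 j) z₀).2 h2])
    refine ⟨C₁, fun r hr => ?_⟩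
    have h1 := hC₁ r hr
    rw [e.sum_comp (fun j => Real.circleAverage (fun z => Real.log ‖h j z‖) 0 r)] at h1
    simp only [Nat.cast_one, one_mul] at h1
    rw [e.sum_comp (fun j => count1 (h j) r)] at h1
    exact h1
  have hlK : 0 ≤ Real.log K₁ := Real.log_nonneg hK₁
  refine ⟨|C₁| + |Real.log C| + M * (Real.log K₁ + C₂), E, by positivity, hE, ?_⟩
  intro r hr hrE
  have hr0 : 0 < r := by linarith
  obtain ⟨L, hL⟩ : ∃ L : ℝ, L = Real.log r + Real.posLog (height Y r) + 1 := ⟨_, rfl⟩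
  have hL1 : 1 ≤ L := by
    have h1 : 0 ≤ Real.log r := Real.log_nonneg hr
    have h2 : 0 ≤ Real.posLog (height Y r) := Real.posLog_nonneg
    rw [hL]
    linarith
  rw [← hL]
  have hYpos : ∀ z, 0 < ‖Y z‖ := fun z => norm_pos_iff.mpr (hY0 z)
  -- the pointwise inequality
  have hpt : ∀ z, ‖z‖ = r → z ∉ {z | g z = 0} →
      Real.log ‖g z‖ + ((ed * Fintype.card H : ℕ) : ℝ) * Real.log ‖Y z‖ ≤
      (Real.log C + M * (Real.log K₁ + C₂ * L)) + (a' : ℝ) * Real.log ‖Y z‖ +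
        ∑ j, Real.log ‖h j z‖ := by
    intro z hzr hzS
    have hgz : 0 < ‖g z‖ := norm_pos_iff.2 hzS
    obtain ⟨h1, β, h2, h3⟩ := hld r hr hrE z hzr
    rw [← hL] at h2 h3
    have hτ : 1 ≤ K₁ * Real.exp (C₂ * L) := by
      have : 1 ≤ Real.exp (C₂ * L) := Real.one_le_exp (by positivity)
      nlinarith
    have h4 := hb z h1 _ hτ β h2 h3
    have hHp : 0 < ∏ j, ‖h j z‖ := Finset.prod_pos fun j _ => norm_pos_iff.2 (h1 j)
    have hYz := hYpos z
    have hCpos : 0 < C := by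
      rcases hC.lt_or_eq with h | h
      · exact h
      · exfalso
        rw [← h, zero_mul, zero_mul, zero_mul] at h4
        have := mul_pos hgz (pow_pos hYz (ed * Fintype.card H))
        linarith
    have hτ0 : 0 < K₁ * Real.exp (C₂ * L) := by linarith
    have h9 := Real.log_le_log (by positivity) h4
    rw [Real.log_mul hgz.ne' (by positivity), Real.log_pow,
      Real.log_mul (by positivity) hHp.ne', Real.log_mul (by positivity) (by positivity),
      Real.log_mul hCpos.ne' (by positivity), Real.log_pow, Real.log_pow,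
      Real.log_mul (by linarith) (by positivity), Real.log_exp, Real.log_prod
        (fun j _ => (norm_pos_iff.2 (h1 j)).ne')] at h9
    linarith
  -- integrability
  have iY : CircleIntegrable (fun z => Real.log ‖Y z‖) 0 r := by
    apply ContinuousOn.circleIntegrable'
    intro z _
    exact ((hY z).continuousAt.norm.log (hYpos z).ne').continuousWithinAt
  have iA : ∀ A : ℂ → ℂ, Differentiable ℂ A → CircleIntegrable (fun z => Real.log ‖A z‖) 0 r :=
    fun A hA => MeromorphicOn.circleIntegrable_log_norm fun x _ =>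
      (hA.analyticAt x).meromorphicAt
  have iH : ∀ j, CircleIntegrable (fun z => Real.log ‖h j z‖) 0 r := fun j => iA _ (hh j)
  have iS : CircleIntegrable (fun z => ∑ j, Real.log ‖h j z‖) 0 r :=
    CircleIntegrable.fun_sum _ fun j _ => iH j
  have i1 : CircleIntegrable (fun z => ((ed * Fintype.card H : ℕ) : ℝ) * Real.log ‖Y z‖) 0 r :=
    iY.const_fun_smul
  have i2 : CircleIntegrable (fun z => (a' : ℝ) * Real.log ‖Y z‖) 0 r := iY.const_fun_smul
  have i4 : CircleIntegrable (fun _ : ℂ => Real.log C + M * (Real.log K₁ + C₂ * L)) 0 r :=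
    circleIntegrable_const _ _ _
  have hdisc : ∀ z₁, ∀ᶠ z in 𝓝[≠] z₁, z ∉ {z | g z = 0} := by
    intro z₁
    rcases (hg.analyticAt z₁).eventually_eq_zero_or_eventually_ne_zero with h5 | h5
    · exact absurd (analyticOrderAt_eq_top.2 h5) (b9_order hg hg0 z₁)
    · exact h5
  have hmono := circleAverage_mono_ae hr0 ((iA g hg).fun_add i1)
    ((i4.fun_add i2).fun_add iS) hdisc hpt
  rw [Real.circleAverage_fun_add (iA g hg) i1,
    Real.circleAverage_fun_add (i4.fun_add i2) iS,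
    Real.circleAverage_fun_add i4 i2,
    Real.circleAverage_const] at hmono
  have a1 : ∀ (c : ℝ) (f : ℂ → ℝ), Real.circleAverage (fun z => c * f z) 0 r =
      c * Real.circleAverage f 0 r := fun c f => Real.circleAverage_fun_smul (a := c) (f := f)
  rw [a1, a1, Real.circleAverage_fun_sum fun j _ => iH j] at hmono
  have hj := hC₁ r hr
  have hT : height Y r = Real.circleAverage (fun z => Real.log ‖Y z‖) 0 r := rfl
  rw [← hT] at hmono
  have c1 : Real.log C ≤ |Real.log C| * L := by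
    calc Real.log C ≤ |Real.log C| * 1 := by rw [mul_one]; exact le_abs_self _
      _ ≤ _ := by gcongr
  have c2 : C₁ ≤ |C₁| * L := by
    calc C₁ ≤ |C₁| * 1 := by rw [mul_one]; exact le_abs_self _
      _ ≤ _ := by gcongr
  have c3 : (M : ℝ) * (Real.log K₁ + C₂ * L) ≤ M * (Real.log K₁ + C₂) * L := by
    rw [mul_assoc]
    gcongr
    nlinarith
  nlinarith

end Pool.Agent.Lib.GGL.SF
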