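import Mathlib
import Pool.Agent.Lib.MP_8d161d_ag.SF.Defs
import Pool.Agent.Lib.MP_8d161d_ag.Mg.G009
import Pool.Agent.Lib.MP_8d161d_ag.SM.C3a
import Pool.Agent.Lib.MP_8d161d_ag.Top

/-!
Formal properties of the inequality.
-/

open MvPolynomial Filter Topology

namespace Pool.Agent.Lib.GGL.SF

/-- The height is bounded below. -/
theorem height_bddBelow {n : ℕ} {Y : ℂ → Fin (n + 1) → ℂ} (hY : Differentiable ℂ Y)
    (hY0 : ∀ z, Y z ≠ 0) : ∃ C : ℝ, 0 ≤ C ∧ ∀ r : ℝ, 1 ≤ r → -C ≤ SM.height Y r := by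
  refine ⟨|SM.height Y 1|, abs_nonneg _, fun r hr => ?_⟩
  exact (neg_abs_le _).trans (SM.E3_mono hY hY0 zero_le_one hr)

private lemma d0_rest {r T : ℝ} (hr : 1 ≤ r) : 1 ≤ Real.log r + Real.posLog T + 1 := by
  have h1 := Real.log_nonneg hr
  have h2 : 0 ≤ Real.posLog T := Real.posLog_nonneg
  linarith

theorem SMTI.mono {n : ℕ} {ι : Type*} {P : ι → MvPolynomial (Fin (n + 1)) ℂ} {S S' : Finset ι}
    (hS : S ⊆ S') {A A' : ℝ} (hA : A' ≤ A) {Y : ℂ → Fin (n + 1) → ℂ} (hY : Differentiable ℂ Y)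
    (hY0 : ∀ z, Y z ≠ 0) (h : SMTI P S A Y) : SMTI P S' A' Y := by
  obtain ⟨C, E, hC, hE, h⟩ := h
  obtain ⟨C₀, hC₀, hb⟩ := height_bddBelow hY hY0
  refine ⟨C + (A - A') * C₀, E, add_nonneg hC (mul_nonneg (by linarith) hC₀), hE, ?_⟩
  intro r hr hrE
  have h1 := h r hr hrE
  have h2 := hb r hr
  have h3 : ∑ j ∈ S, SM.count1 (fun z => eval (Y z) (P j)) r ≤
      ∑ j ∈ S', SM.count1 (fun z => eval (Y z) (P j)) r :=
    Finset.sum_le_sum_of_subset_of_nonneg hS fun j _ _ => SM.count1_nonneg _ hr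
  have h4 := d0_rest (T := SM.height Y r) hr
  have h5 : (A' - A) * SM.height Y r ≤ (A - A') * C₀ := by
    nlinarith [mul_nonneg (sub_nonneg.mpr hA) (by linarith : 0 ≤ SM.height Y r + C₀)]
  have h6 : (A - A') * C₀ ≤ (A - A') * C₀ * (Real.log r + Real.posLog (SM.height Y r) + 1) :=
    le_mul_of_one_le_right (mul_nonneg (by linarith) hC₀) h4
  calc A' * SM.height Y r = A * SM.height Y r + (A' - A) * SM.height Y r := by ring
    _ ≤ (∑ j ∈ S', SM.count1 (fun z => eval (Y z) (P j)) r +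
        C * (Real.log r + Real.posLog (SM.height Y r) + 1)) +
        (A - A') * C₀ * (Real.log r + Real.posLog (SM.height Y r) + 1) := by linarith
    _ = _ := by ring

theorem SMTI.nonpos {n : ℕ} {ι : Type*} {P : ι → MvPolynomial (Fin (n + 1)) ℂ} {S : Finset ι}
    {A : ℝ} (hA : A ≤ 0) {Y : ℂ → Fin (n + 1) → ℂ} (hY : Differentiable ℂ Y)
    (hY0 : ∀ z, Y z ≠ 0) : SMTI P S A Y := by
  apply SMTI.mono (S := ∅) (A := 0) (Finset.empty_subset _) hA hY hY0
  refine ⟨0, ∅, le_rfl, by simp, ?_⟩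
  intro r _ _
  simp

theorem SMTI.union {n : ℕ} {ι : Type*} [DecidableEq ι] {P : ι → MvPolynomial (Fin (n + 1)) ℂ}
    {S S' : Finset ι} (hS : Disjoint S S') {A A' : ℝ} {Y : ℂ → Fin (n + 1) → ℂ}
    (h : SMTI P S A Y) (h' : SMTI P S' A' Y) : SMTI P (S ∪ S') (A + A') Y := by
  obtain ⟨C, E, hC, hE, h⟩ := h
  obtain ⟨C', E', hC', hE', h'⟩ := h'
  refine ⟨C + C', E ∪ E', add_nonneg hC hC',
    (MeasureTheory.measure_union_le E E').trans_lt (ENNReal.add_lt_top.mpr ⟨hE, hE'⟩), ?_⟩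
  intro r hr hrE
  have h1 := h r hr fun hh => hrE (Or.inl hh)
  have h2 := h' r hr fun hh => hrE (Or.inr hh)
  rw [Finset.sum_union hS]
  nlinarith

/-- reindexing -/
theorem SMTI.map {n : ℕ} {ι κ : Type*} {P : ι → MvPolynomial (Fin (n + 1)) ℂ} (f : κ ↪ ι)
    {S : Finset κ} {A : ℝ} {Y : ℂ → Fin (n + 1) → ℂ} (h : SMTI (fun j => P (f j)) S A Y) :
    SMTI P (S.map f) A Y := by
  obtain ⟨C, E, hC, hE, h⟩ := h
  refine ⟨C, E, hC, hE, ?_⟩
  intro r hr hrE
  rw [Finset.sum_map]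
  exact h r hr hrE

/-- If some form of positive degree has no zero on the variety, then all curves are constant. -/
theorem propConst_of_noZero {n ed : ℕ} (hed : 0 < ed) {I : Ideal (MvPolynomial (Fin (n + 1)) ℂ)}
    (hI : HomIdeal I) {P : MvPolynomial (Fin (n + 1)) ℂ} (hP : P.IsHomogeneous ed)
    (h : ∀ y : Fin (n + 1) → ℂ, y ≠ 0 → (∀ g ∈ I, eval y g = 0) → eval y P ≠ 0)
    {Y : ℂ → Fin (n + 1) → ℂ} (hY : CurveIn I Y) : PropConst Y := by
  obtain ⟨hYd, hY0, hYI⟩ := hY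
  have hlift : LiftFamily fun _ : ℂ => Y := SM.liftFamily_single hYd hY0
  intro z w
  obtain ⟨c, hc, hcc⟩ := const_of_coneW hlift.wLift (isClosed_zeros I)
    (by
      intro y hy l _
      have h1 : sc (1 : Fin (n + 1) → ℕ) l y = l • y := by
        funext i
        rw [sc, Pi.one_apply, pow_one]
        rfl
      rw [h1]
      exact eval_smul_mem_zero hI hy l) (K₀ := 1)
    (by
      intro y _ hy1
      rw [← hy1, pi_norm_le_iff_of_nonneg (n1_nonneg _ _)]
      intro i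
      exact norm_le_n1 _ y rfl)
    hed hP
    (by
      intro y hy hy0
      apply h y _ hy
      rintro rfl
      apply hy0
      have h1 := n1_le_norm (1 : Fin (n + 1) → ℕ) 0
      rw [norm_zero] at h1
      exact le_antisymm h1 (n1_nonneg _ _))
    (fun z => hYI z) z w
  refine ⟨c, hc, ?_⟩
  funext i
  rw [Pi.smul_apply, smul_eq_mul]
  exact hcc i rfl

/-- a form of degree `e` is at most a constant times the `e`-th power of the norm -/
lemma d0_bound {n e : ℕ} {P : MvPolynomial (Fin (n + 1)) ℂ} (hP : P.IsHomogeneous e) :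
    ∃ K : ℝ, 0 < K ∧ ∀ y : Fin (n + 1) → ℂ, y ≠ 0 → ‖eval y P‖ ≤ K * ‖y‖ ^ e := by
  obtain ⟨C, hC⟩ := ((isCompact_closedBall (0 : Fin (n + 1) → ℂ) 1).image
    (continuous_eval P).norm).bddAbove
  refine ⟨max 1 C, lt_of_lt_of_le one_pos (le_max_left _ _), fun y hy => ?_⟩
  have hn : 0 < ‖y‖ := norm_pos_iff.mpr hy
  have h1 : ‖((‖y‖ : ℂ)⁻¹) • y‖ ≤ 1 := by
    rw [norm_smul, norm_inv, Complex.norm_real, Real.norm_of_nonneg hn.le,
      inv_mul_cancel₀ hn.ne']
  have h2 : ‖eval (((‖y‖ : ℂ)⁻¹) • y) P‖ ≤ C :=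
    hC ⟨_, by rwa [Metric.mem_closedBall, dist_zero_right], rfl⟩
  rw [eval_smul_of_homogeneous hP, norm_mul, norm_pow, norm_inv, Complex.norm_real,
    Real.norm_of_nonneg hn.le, inv_pow, inv_mul_le_iff₀ (by positivity)] at h2
  calc ‖eval y P‖ ≤ ‖y‖ ^ e * C := h2
    _ ≤ ‖y‖ ^ e * max 1 C := by gcongr; exact le_max_right _ _
    _ = _ := mul_comm _ _

lemma d0_average {n e : ℕ} {Y : ℂ → Fin (n + 1) → ℂ} (hY : Differentiable ℂ Y)
    (hY0 : ∀ z, Y z ≠ 0) {P : MvPolynomial (Fin (n + 1)) ℂ} (hP : P.IsHomogeneous e)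
    (hA : Differentiable ℂ fun z => eval (Y z) P) (hne : ∃ z, eval (Y z) P ≠ 0) :
    ∃ C : ℝ, ∀ r : ℝ, 1 ≤ r →
      Real.circleAverage (fun z => Real.log ‖eval (Y z) P‖) 0 r ≤ e * SM.height Y r + C := by
  obtain ⟨K, hK, hle⟩ := d0_bound hP
  refine ⟨Real.log K, fun r hr => ?_⟩
  have hr0 : 0 < r := zero_lt_one.trans_le hr
  have hcont : Continuous fun z : ℂ => Real.log ‖Y z‖ :=
    Continuous.log hY.continuous.norm fun z => (norm_pos_iff.2 (hY0 _)).ne'
  have hint0 : CircleIntegrable (fun z : ℂ => Real.log ‖Y z‖) 0 r :=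
    hcont.continuousOn.circleIntegrable hr0.le
  have hint1 : CircleIntegrable ((e : ℝ) • fun z : ℂ => Real.log ‖Y z‖) 0 r :=
    (hcont.const_smul (e : ℝ)).continuousOn.circleIntegrable hr0.le
  have hint2 : CircleIntegrable (fun _ : ℂ => Real.log K) 0 r :=
    continuousOn_const.circleIntegrable hr0.le
  have hint3 : CircleIntegrable (fun z => Real.log ‖eval (Y z) P‖) 0 r :=
    MeromorphicOn.circleIntegrable_log_norm fun z _ => (hA.analyticAt z).meromorphicAt
  have hanalytic : AnalyticOnNhd ℂ (fun z => eval (Y z) P) Set.univ :=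
    fun z _ => hA.analyticAt z
  have hS : ∀ z₁, ∀ᶠ z in 𝓝[≠] z₁, z ∉ {z | eval (Y z) P = 0} := by
    intro z₁
    rcases (hA.analyticAt z₁).eventually_eq_zero_or_eventually_ne_zero with h5 | h5
    · exfalso
      obtain ⟨z, hz⟩ := hne
      apply hz
      have := hanalytic.eqOn_zero_of_preconnected_of_eventuallyEq_zero isPreconnected_univ
        (Set.mem_univ z₁) h5
      exact this (Set.mem_univ z)
    · exact h5
  have h6 := SM.circleAverage_mono_ae hr0 hint3 (hint1.add hint2) hS (fun z _ hz => by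
    have hHz : eval (Y z) P ≠ 0 := hz
    have hYz : 0 < ‖Y z‖ := norm_pos_iff.2 (hY0 _)
    show Real.log ‖eval (Y z) P‖ ≤ (e : ℝ) • Real.log ‖Y z‖ + Real.log K
    calc Real.log ‖eval (Y z) P‖ ≤ Real.log (K * ‖Y z‖ ^ e) :=
          Real.log_le_log (norm_pos_iff.2 hHz) (hle _ (hY0 z))
      _ = (e : ℝ) • Real.log ‖Y z‖ + Real.log K := by
          rw [Real.log_mul hK.ne' (by positivity), Real.log_pow, smul_eq_mul]
          ring)
  rw [Real.circleAverage_add hint1 hint2, Real.circleAverage_const,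
    Real.circleAverage_smul] at h6
  exact h6

/-- The counting function of a form that is met with multiplicities at least `m`. -/
theorem count_mult {n e m : ℕ} (hm : 1 ≤ m) {Y : ℂ → Fin (n + 1) → ℂ} (hY : Differentiable ℂ Y)
    (hY0 : ∀ z, Y z ≠ 0) {P : MvPolynomial (Fin (n + 1)) ℂ} (hP : P.IsHomogeneous e)
    (hne : ∃ z, eval (Y z) P ≠ 0)
    (hord : ∀ z, analyticOrderAt (fun z => eval (Y z) P) z = 0 ∨
      (m : ℕ∞) ≤ analyticOrderAt (fun z => eval (Y z) P) z) :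
    ∃ C : ℝ, ∀ r : ℝ, 1 ≤ r →
      SM.count1 (fun z => eval (Y z) P) r ≤ e / m * SM.height Y r + C := by
  classical
  have hA : Differentiable ℂ fun z => eval (Y z) P := fun z =>
    (analyticAt_eval (hY.analyticAt z) P).differentiableAt
  obtain ⟨C, hC⟩ := d0_average hY hY0 hP hA hne
  have hm0 : (0 : ℝ) < m := by exact_mod_cast hm
  obtain ⟨c, hc⟩ : ∃ c : ℝ, c = Real.log ‖meromorphicTrailingCoeffAt
    (fun z => eval (Y z) P) 0‖ := ⟨_, rfl⟩
  refine ⟨(C - c) / m, fun r hr => ?_⟩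
  have h1 := SM.e4_jensen hA hne hr
  rw [← hc] at h1
  have h2 := hC r hr
  have h3 := SM.c3a_count1 hA hne hr
  have h4 : (m : ℝ) * SM.count1 (fun z => eval (Y z) P) r ≤
      ∑ u ∈ (SM.zeros_finite hA hne r).toFinset,
        (analyticOrderNatAt (fun z => eval (Y z) P) u : ℝ) *
          (if u = 0 then Real.log r else Real.log (r / ‖u‖)) := by
    rw [h3, Finset.mul_sum]
    refine Finset.sum_le_sum fun u hu => ?_
    rw [Set.Finite.mem_toFinset] at hu
    have hu1 : ‖u‖ ≤ r := by simpa using hu.2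
    have h5 : SM.c3a_L r u = (if u = 0 then Real.log r else Real.log (r / ‖u‖)) := by
      unfold SM.c3a_L
      congr
    rw [← h5]
    refine mul_le_mul_of_nonneg_right ?_ (SM.c3a_L_nonneg hr hu1)
    have h6 := SM.e4_order_pos hA hne hu.1
    have h7 := Nat.cast_analyticOrderNatAt (SM.e4_order_ne_top hA hne u)
    rcases hord u with h8 | h8
    · rw [h8] at h7
      have h9 : analyticOrderNatAt (fun z => eval (Y z) P) u = 0 := by exact_mod_cast h7
      omega
    · rw [← h7] at h8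
      exact_mod_cast h8
  have h8 : (m : ℝ) * SM.count1 (fun z => eval (Y z) P) r ≤ e * SM.height Y r + (C - c) := by
    linarith
  have h9 : SM.count1 (fun z => eval (Y z) P) r ≤ (e * SM.height Y r + (C - c)) / m := by
    rw [le_div_iff₀ hm0]
    linarith
  calc SM.count1 (fun z => eval (Y z) P) r ≤ (e * SM.height Y r + (C - c)) / m := h9
    _ = _ := by ring

end Pool.Agent.Lib.GGL.SF
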