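import Mathlib
import Pool.Agent.Lib.MP_8d161d_ag.SF.A1
import Pool.Agent.Lib.MP_8d161d_ag.SF.A2
import Pool.Agent.Lib.MP_8d161d_ag.SF.A3
import Pool.Agent.Lib.MP_8d161d_ag.SF.C1
import Pool.Agent.Lib.MP_8d161d_ag.SF.C2
import Pool.Agent.Lib.MP_8d161d_ag.SF.C3
import Pool.Agent.Lib.MP_8d161d_ag.SF.D0
import Pool.Agent.Lib.MP_8d161d_ag.Mg.G028

/-!
One block of forms of one degree.
-/

open MvPolynomial Module Filter Topology

namespace Pool.Agent.Lib.GGL.SF

/-- a form of degree `e` is bounded by the power `e` of the norm -/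
lemma d1_eval_le {n e : ℕ} {P : MvPolynomial (Fin (n + 1)) ℂ} (hP : P.IsHomogeneous e) :
    ∃ K : ℝ, 0 ≤ K ∧ ∀ y : Fin (n + 1) → ℂ, ‖eval y P‖ ≤ K * ‖y‖ ^ e := by
  refine ⟨∑ d ∈ P.support, ‖coeff d P‖, Finset.sum_nonneg fun _ _ => norm_nonneg _, ?_⟩
  intro y
  rw [eval_eq', Finset.sum_mul]
  refine (norm_sum_le _ _).trans (Finset.sum_le_sum fun d hd => ?_)
  rw [norm_mul]
  apply mul_le_mul_of_nonneg_left _ (norm_nonneg _)
  rw [norm_prod]
  have h1 : ∑ i, d i = e := by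
    have h2 := hP (mem_support_iff.mp hd)
    rw [Finsupp.weight_apply, Finsupp.sum_fintype _ _ (by simp)] at h2
    simpa using h2
  calc ∏ i, ‖y i ^ d i‖ ≤ ∏ i, ‖y‖ ^ d i := by
        apply Finset.prod_le_prod
        · intro i _
          exact norm_nonneg _
        · intro i _
          rw [norm_pow]
          exact pow_le_pow_left₀ (norm_nonneg _) (norm_le_pi_norm y i) _
    _ = ‖y‖ ^ e := by rw [Finset.prod_pow_eq_pow_sum, h1]

lemma d1_bigk {K δ DY D t m : ℕ} (hDY : DY ≤ δ) (hD : D ≤ δ * δ) (ht : t ≤ m) :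
    K * (DY + 1) * (3 * D * t) + D + 3 * D ≤
      K * (δ + 1) * (3 * (δ * δ) * m) + 4 * (δ * δ) := by
  have h1 : K * (DY + 1) * (3 * D * t) ≤ K * (δ + 1) * (3 * (δ * δ) * m) := by gcongr
  omega

theorem one_block (n m N₀ ed : ℕ) (hed : 0 < ed) {ε : ℝ} (hε : 0 < ε)
    {vv : Fin (m + 1) → MvPolynomial (Fin (n + 1)) ℂ} (hvv : ∀ i, (vv i).IsHomogeneous ed) :
    ∃ Q : ℕ, ∀ (I : Ideal (MvPolynomial (Fin (n + 1)) ℂ)), I.IsPrime → HomIdeal I →
    ∀ (ι : Type) [Fintype ι] [DecidableEq ι]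
    (P : ι → MvPolynomial (Fin (n + 1)) ℂ) (q : ι → Fin (m + 1) → ℂ),
    (∀ j, P j = ∑ i, C (q j i) * vv i) → (∀ j, P j ∉ I) → (∀ j, RedOn I (P j)) →
    (∀ y : Fin (n + 1) → ℂ, y ≠ 0 → (∀ g ∈ I, eval y g = 0) →
      ∀ S : Finset ι, (∀ j ∈ S, eval y (P j) = 0) → S.card ≤ N₀) →
    (∀ j, ∃ y : Fin (n + 1) → ℂ, y ≠ 0 ∧ (∀ g ∈ I, eval y g = 0) ∧ eval y (P j) = 0) →
    Q ≤ Fintype.card ι →
    ∃ (J : Finset ι) (Δ : MvPolynomial (Fin (n + 1)) ℂ), J.Nonempty ∧ Δ ∉ I ∧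
      ∀ Y : ℂ → Fin (n + 1) → ℂ, CurveIn I Y → ¬ PropConst Y → (∃ z, eval (Y z) Δ ≠ 0) →
        SMTI P J ((1 - ε) * ed * J.card) Y := by
  classical
  obtain ⟨φ, hφ⟩ : ∃ φ : ℕ → ℕ, φ = fun δ =>
    ⌈2 / ε⌉₊ * (δ + 1) * (3 * (δ * δ) * m) + 4 * (δ * δ) := ⟨_, rfl⟩
  obtain ⟨Q, hQ⟩ := exists_amb' m N₀ φ (by
    intro δ hδ
    rw [hφ]
    have h1 : δ * 1 ≤ δ * δ := Nat.mul_le_mul_left δ hδ
    have h2 : 0 ≤ ⌈2 / ε⌉₊ * (δ + 1) * (3 * (δ * δ) * m) := bot_le
    beta_reduce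
    omega)
  refine ⟨Q, ?_⟩
  intro I hIp hI ι _ _ P q hPq hPI hrad hgp hzero hcard
  have hPh : ∀ j, (P j).IsHomogeneous ed := by
    intro j
    rw [hPq]
    exact IsHomogeneous.sum _ _ _ fun i _ => (hvv i).C_mul _
  have hP0 : ∀ j, P j ≠ 0 := by
    intro j h0
    apply hPI j
    rw [h0]
    exact I.zero_mem
  have hq0 : ∀ j, q j ≠ 0 := by
    intro j h0
    apply hP0 j
    rw [hPq, h0]
    simp
  have hcl : ∀ j, ∀ S : Finset ι, (∀ j' ∈ S, ∃ c : ℂ, q j' = c • q j) → S.card ≤ N₀ := by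
    intro j S hS
    obtain ⟨y, hy0, hyI, hyj⟩ := hzero j
    apply hgp y hy0 hyI S
    intro j' hj'
    obtain ⟨c, hc⟩ := hS j' hj'
    have h1 : P j' = C c * P j := by
      rw [hPq j', hPq j, hc, Finset.mul_sum]
      refine Finset.sum_congr rfl fun i _ => ?_
      rw [Pi.smul_apply, smul_eq_mul, C_mul, mul_assoc]
    rw [h1, map_mul, hyj, mul_zero]
  obtain ⟨J, t, x, N, δ, DY, D, ht1, htm, hδ, hDY, hD, hJ2, homY, homT, hnz, hdvdAt, hdense⟩ :=
    hQ ι q hq0 hcl hcard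
  have hJne : J.Nonempty := by
    rw [← Finset.card_pos]
    omega
  obtain ⟨j₀, hj₀⟩ := hJne
  obtain ⟨y₀, hy₀0, hy₀I, -⟩ := hzero j₀
  obtain ⟨N', hN'⟩ : ∃ N', N' = vsub vv N := ⟨_, rfl⟩
  have homY' : IsWeightedHomogeneous (wY n t) N' (ed * DY) := by
    rw [hN']
    exact vsub_homY hvv homY
  have homT' : IsWeightedHomogeneous (wT n t) N' D := by
    rw [hN']
    exact vsub_homT homT
  have hnz' : ∀ y : Fin (n + 1) → ℂ, (∀ g ∈ I, eval y g = 0) → y ≠ 0 → sp y N' ≠ 0 := by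
    intro y hyI hy0
    rw [hN', sp_vsub]
    apply hnz
    have h1 : (J.filter fun j => q j ⬝ᵥ (fun i => aeval y (vv i)) = 0).card ≤ N₀ := by
      apply hgp y hy0 hyI
      intro j hj
      rw [Finset.mem_filter] at hj
      rw [hPq, map_sum, ← hj.2, dotProduct]
      refine Finset.sum_congr rfl fun i _ => ?_
      rw [map_mul, eval_C, aeval_complex]
    omega
  have hdvd' : ∀ j : J, P j ∣ nx N' (x j) := by
    intro j
    rw [hN', hPq]
    exact vsub_dvd (hdvdAt j j.2)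
  have hN0 : sp (gen I) N' ≠ 0 := by
    intro h0
    apply hnz' y₀ hy₀I hy₀0
    apply MvPolynomial.funext
    intro x
    rw [map_zero, ← eval_nx]
    apply hy₀I
    rw [← aeval_gen_eq_zero, aeval_nx, h0, map_zero]
  have hdense' : ∀ b' ≤ φ δ, ∀ g : MvPolynomial (Fin (t + 1)) ℂ, g.IsHomogeneous b' →
      (∀ j : J, eval (x j) g = 0) → g = 0 := by
    intro b' hb' g hg hv
    have h1 : g * (X 0 : MvPolynomial (Fin (t + 1)) ℂ) ^ (φ δ - b') = 0 := by
      apply hdense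
      · have := hg.mul (isHomogeneous_X_pow (R := ℂ) (0 : Fin (t + 1)) (φ δ - b'))
        rwa [Nat.add_sub_cancel' hb'] at this
      · intro j hj
        rw [map_mul, hv ⟨j, hj⟩, zero_mul]
    exact (mul_eq_zero.mp h1).resolve_right (pow_ne_zero _ (X_ne_zero _))
  -- the numbers
  obtain ⟨k, hk⟩ : ∃ k, k = ⌈2 / ε⌉₊ * (DY + 1) * (3 * D * t) + D := ⟨_, rfl⟩
  obtain ⟨b, hb⟩ : ∃ b, b = k + 3 * D := ⟨_, rfl⟩
  have hbφ : b ≤ φ δ := by
    rw [hb, hk, hφ]
    exact d1_bigk hDY hD htm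
  have hDb : D ≤ b := by omega
  have hDY1 : 1 ≤ DY := by
    by_contra hcon
    have h0 : DY = 0 := by omega
    have h1 : ∀ j : J, nx N' (x j) = 0 := by
      intro j
      by_contra hne
      have h2 : (nx N' (x j)).IsHomogeneous 0 := by
        have h3 : IsWeightedHomogeneous (wU (1 : Fin (n + 1) → ℕ) t) N' 0 := by
          rw [h0, mul_zero] at homY'
          exact homY'
        exact nx_weighted h3 (x j)
      obtain ⟨U, hU⟩ := hdvd' j
      have hU0 : U ≠ 0 := by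
        rintro rfl
        rw [mul_zero] at hU
        exact hne hU
      have h3 := h2.totalDegree hne
      rw [hU, totalDegree_mul_of_isDomain (hP0 j) hU0, (hPh j).totalDegree (hP0 j)] at h3
      omega
    apply hnz' y₀ hy₀I hy₀0
    apply hdense' D (hDb.trans hbφ) _ (sp_isHomogeneous homT' y₀)
    intro j
    rw [← eval_nx, h1, map_zero]
  -- a unisolvent subfamily
  obtain ⟨H₀, L₀, hH₀card, -, -, hH₀I⟩ := exists_interp (d := b) (fun j : J => x j)
    (fun Q hQ hv => hdense' b hbφ Q hQ hv)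
  have hdense'' : ∀ b' ≤ b, ∀ g : MvPolynomial (Fin (t + 1)) ℂ, g.IsHomogeneous b' →
      (∀ j : H₀, eval (x j.1.1) g = 0) → g = 0 := by
    intro b' hb' g hg hv
    have hgX := hg.mul (isHomogeneous_X_pow (R := ℂ) (0 : Fin (t + 1)) (b - b'))
    rw [Nat.add_sub_cancel' hb'] at hgX
    have h1 : g * (X 0 : MvPolynomial (Fin (t + 1)) ℂ) ^ (b - b') = 0 := by
      rw [hH₀I _ hgX]
      refine Finset.sum_eq_zero fun j hj => ?_
      rw [map_mul, hv ⟨j, hj⟩, zero_mul, zero_smul]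
    exact (mul_eq_zero.mp h1).resolve_right (pow_ne_zero _ (X_ne_zero _))
  obtain ⟨N₁, D₁, wt, eY, v, μ, hμ, m₀, F, hD₁, hwtY, hvY, hvint, hAuto, hF, hnY, hF0, hFsq⟩ :=
    exists_newV (J := H₀) (P := fun j => P j.1.1) (x := fun j => x j.1.1) (b := b) hI homY' homT'
      hN0 (Nat.le_mul_of_pos_right ed hDY1) hnz' (fun j => hPh j.1.1) (fun j => hPI j.1.1)
      (fun j => hrad j.1.1) (fun j => hdvd' j.1) hdense'' hDb
  -- denominators
  choose e c A hce hAe hcI hcA using exists_denom hwtY hvY hAuto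
  have hden : Denom I wt v e c A := ⟨hce, hAe, hcI, hcA⟩
  -- the discriminant
  obtain ⟨Δ₁, hΔ₁, hΔ₁s⟩ := exists_discK (hF.homT m₀) v hF0 hFsq
  obtain ⟨Δ₂, hΔ₂, hΔ₂s⟩ := hden.exists_transfer hΔ₁
  -- a value of the norm form
  obtain ⟨X₀, hX₀⟩ : ∃ X₀ : Fin (t + 1) → ℂ, aeval v (nx (F m₀) X₀) ≠ 0 := by
    have : CharZero (KK I) := charZero_of_injective_algebraMap (algebraMap ℂ (KK I)).injective
    obtain ⟨X₀, hX₀⟩ := exists_point hF0
    refine ⟨X₀, ?_⟩
    rw [aeval_nx]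
    exact hX₀
  obtain ⟨Δ₃, hΔ₃, hΔ₃s⟩ := hden.exists_transfer hX₀
  have hprod1 : ∏ i, c i ∉ I := by
    intro h
    rw [(inferInstance : I.IsPrime).prod_mem_iff] at h
    obtain ⟨i, -, hi⟩ := h
    exact hcI i hi
  have hprod2 : ∏ j ∈ J, P j ∉ I := by
    intro h
    rw [(inferInstance : I.IsPrime).prod_mem_iff] at h
    obtain ⟨j, -, hj⟩ := h
    exact hPI j hj
  obtain ⟨Jf, hJf⟩ : ∃ Jf : Finset ι, Jf = H₀.map ⟨Subtype.val, Subtype.val_injective⟩ :=
    ⟨_, rfl⟩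
  have hJfcard : Jf.card = (t + (k + 3 * D)).choose (k + 3 * D) := by
    rw [hJf, Finset.card_map, hH₀card, finrank_homogeneousSubmodule, hb]
  refine ⟨Jf, Δ₂ * Δ₃ * (∏ i, c i) * ∏ j ∈ J, P j, ?_, ?_, ?_⟩
  · rw [← Finset.card_pos, hJfcard]
    exact Nat.choose_pos (by omega)
  · intro h
    rcases (inferInstance : I.IsPrime).mem_or_mem h with h1 | h1
    · rcases (inferInstance : I.IsPrime).mem_or_mem h1 with h2 | h2
      · rcases (inferInstance : I.IsPrime).mem_or_mem h2 with h3 | h3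
        · exact hΔ₂ h3
        · exact hΔ₃ h3
      · exact hprod1 h2
    · exact hprod2 h1
  intro Y hY hYnc ⟨z₁, hz₁⟩
  rw [map_mul, map_mul, map_mul, map_prod, map_prod] at hz₁
  have hz₁P := right_ne_zero_of_mul hz₁
  have hz₁c := right_ne_zero_of_mul (left_ne_zero_of_mul hz₁)
  have hz₁3 := right_ne_zero_of_mul (left_ne_zero_of_mul (left_ne_zero_of_mul hz₁))
  have hz₁2 := left_ne_zero_of_mul (left_ne_zero_of_mul (left_ne_zero_of_mul hz₁))
  rw [Finset.prod_ne_zero_iff] at hz₁P hz₁c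
  obtain ⟨Y', hY'd, hY'F, hY'Y, hY'c⟩ := exists_global_lift hden hwtY hvY hAuto hvint hY
    (fun i => ⟨z₁, hz₁c i (Finset.mem_univ i)⟩)
  obtain ⟨hYd, hY0, hYI⟩ := hY
  have hY'Yf : ∀ z, (fun i => Y' z (eY i)) = Y z := fun z => funext (hY'Y z)
  have hevP : ∀ (R : MvPolynomial (Fin (n + 1)) ℂ) z, eval (Y' z) (rename eY R) = eval (Y z) R := by
    intro R z
    rw [eval_rename]
    congr 2
    exact hY'Yf z
  have hPw : ∀ j : H₀, IsWeightedHomogeneous wt (rename eY (P j.1.1)) ed := by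
    intro j
    apply rename_isWeighted
    have h2 : (fun i => wt (eY i)) = 1 := by
      funext i
      exact hwtY i
    rw [h2]
    exact hPh _
  have hn1 : ∀ z, n1 wt (Y' z) ≠ 0 := by
    intro z h1
    apply hY0 z
    funext i
    have h2 := norm_le_n1 wt (Y' z) (hwtY i)
    rw [h1, hY'Y] at h2
    exact norm_le_zero_iff.mp h2
  obtain ⟨K, hK1, hK⟩ := n1_compare hwtY hF.wF hF.bd hnY
  have hK0 : 0 ≤ K := zero_le_one.trans hK1
  obtain ⟨H, D', g, Cg, M, hD', hHcard, hg, hg0, hCg, hord, hbd⟩ := curve_det (k := k) hed hPw hF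
    ht1 (by omega) (by omega) hY'd hn1 hY'F
    (fun j => ⟨z₁, by
      rw [hevP]
      exact hz₁P _ j.1.2⟩)
    (by
      intro hcon
      apply hYnc
      intro z w
      obtain ⟨c', hc', hcc⟩ := hcon z w
      refine ⟨c', hc', ?_⟩
      funext i
      have h1 := hcc (eY i) (hwtY i)
      rw [hY'Y, hY'Y] at h1
      rw [h1, Pi.smul_apply, smul_eq_mul])
    (m₀ := m₀) (z₁ := z₁)
    (by
      intro h1
      apply hΔ₃s (Y z₁) (Y' z₁) (hY'c z₁) hz₁3
      rw [eval_nx, h1, map_zero])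
    (by
      apply hΔ₁s
      intro h0
      have h1 : eval (Y' z₁) Δ₁ ≠ 0 := hΔ₂s (Y z₁) (Y' z₁) (hY'c z₁) hz₁2
      apply h1
      have h2 := congrArg (ccA : PowerSeries ℂ →ₐ[ℂ] ℂ) h0
      rw [map_zero, MvPolynomial.comp_aeval_apply] at h2
      have h3 : (fun i => ccA ((tayHom z₁) (yB (Y := fun _ => Y')
          (fun z => hY'd.analyticAt z) z₁ i))) = Y' z₁ := by
        funext i
        exact constantCoeff_yB (Y := fun _ => Y') (fun z => hY'd.analyticAt z) z₁ i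
      rw [h3, aeval_complex] at h2
      exact h2)
  -- bounds for the forms
  choose K₁ hK₁0 hK₁ using fun j : H => d1_eval_le (hPh j.1.1.1)
  obtain ⟨K₂, hK₂⟩ : ∃ K₂ : ℝ, K₂ = K + ∑ j, K₁ j := ⟨_, rfl⟩
  have hsumK : 0 ≤ ∑ j, K₁ j := Finset.sum_nonneg fun j _ => hK₁0 j
  obtain ⟨a', ha'⟩ : ∃ a', a' = 2 * (ed * DY) *
    ((t + (k + D')).choose (k + D') - (t + k).choose k) := ⟨_, rfl⟩
  obtain ⟨C', E, hC', hE, hmain⟩ := smt_of_det (H := H) (M := M) (a' := a') (K := K₂) hYd hY0 hY'd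
    hed (wt := wt)
    (by
      intro z i
      have h1 := (hK (Y' z) (hY'F z) (hn1 z)).2.2 i
      rw [hY'Yf] at h1
      refine h1.trans ?_
      rw [hK₂]
      apply mul_le_mul_of_nonneg_right _ (by positivity)
      linarith)
    (h := fun (j : H) z => eval (Y z) (P j.1.1.1))
    (fun j z => (analyticAt_eval (hYd.analyticAt z) (P j.1.1.1)).differentiableAt)
    (fun j => ⟨z₁, hz₁P _ j.1.1.2⟩)
    (by
      intro j z
      refine (hK₁ j (Y z)).trans ?_
      apply mul_le_mul_of_nonneg_right _ (by positivity)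
      rw [hK₂]
      have := Finset.single_le_sum (f := K₁) (fun j _ => hK₁0 j) (Finset.mem_univ j)
      linarith)
    hg hg0
    (by
      intro z₀
      have h1 := hord z₀
      rw [← Finset.sum_coe_sort] at h1
      refine le_trans (le_of_eq ?_) h1
      refine Finset.sum_congr rfl fun j _ => ?_
      congr 2
      funext z
      rw [hevP])
    (C := Cg * K ^ a') (by positivity)
    (by
      intro z hz τ hτ β h1 h2
      obtain ⟨hk1, hk2, hk3⟩ := hK (Y' z) (hY'F z) (hn1 z)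
      rw [hY'Yf] at hk1 hk2
      have hYz : 0 < ‖Y z‖ := norm_pos_iff.mpr (hY0 z)
      have h3 := hbd z
        (by
          intro j hj
          rw [hevP]
          exact hz ⟨j, hj⟩) τ hτ β
        (by
          intro i
          refine (h1 i).trans ?_
          gcongr)
        (by
          intro j hj
          have h4 := h2 ⟨j, hj⟩
          have h5 : (fun z => eval (Y' z) (rename eY (P j.1.1))) =
              fun z => eval (Y z) (P j.1.1) := by
            funext z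
            rw [hevP]
          rw [h5, hevP]
          exact h4)
      have h6 : ∏ j ∈ H, ‖eval (Y' z) (rename eY (P j.1.1))‖ =
          ∏ j : H, ‖eval (Y z) (P j.1.1.1)‖ := by
        rw [← Finset.prod_coe_sort]
        refine Finset.prod_congr rfl fun j _ => ?_
        rw [hevP]
      rw [h6, ← ha'] at h3
      have hprod0 : 0 ≤ ∏ j : H, ‖eval (Y z) (P j.1.1.1)‖ :=
        Finset.prod_nonneg fun j _ => norm_nonneg _
      have hτ0 : 0 ≤ τ := zero_le_one.trans hτ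
      calc ‖g z‖ * ‖Y z‖ ^ (ed * Fintype.card H)
          ≤ ‖g z‖ * n1 wt (Y' z) ^ (ed * H.card) := by
            rw [Fintype.card_coe]
            gcongr
        _ ≤ Cg * τ ^ M * n1 wt (Y' z) ^ a' * ∏ j : H, ‖eval (Y z) (P j.1.1.1)‖ := h3
        _ ≤ Cg * τ ^ M * (K * ‖Y z‖) ^ a' * ∏ j : H, ‖eval (Y z) (P j.1.1.1)‖ := by
            have hnn : 0 ≤ n1 wt (Y' z) := n1_nonneg wt _
            gcongr
        _ = Cg * K ^ a' * τ ^ M * ‖Y z‖ ^ a' * ∏ j : H, ‖eval (Y z) (P j.1.1.1)‖ := by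
            rw [mul_pow]
            ring)
  -- conclusion
  have hbig : SMTI P ((H.map ⟨Subtype.val, Subtype.val_injective⟩).map
      ⟨Subtype.val, Subtype.val_injective⟩) (((ed * Fintype.card H : ℕ) : ℝ) - a') Y := by
    refine ⟨C', E, hC', hE, ?_⟩
    intro r hr hrE
    refine (hmain r hr hrE).trans (le_of_eq ?_)
    rw [Finset.sum_map, Finset.sum_map, ← Finset.sum_coe_sort H]
    rfl
  refine hbig.mono ?_ ?_ hYd hY0
  · rw [hJf]
    apply Finset.map_subset_map.mpr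
    intro j hj
    rw [Finset.mem_map] at hj
    obtain ⟨j', -, rfl⟩ := hj
    exact j'.2
  · rw [hJfcard, Fintype.card_coe, hHcard, ha']
    exact block_numbers hε (by rw [hk]; exact Nat.le_add_right _ _) (hD'.trans hD₁)

end Pool.Agent.Lib.GGL.SF
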