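import Mathlib
import Pool.Agent.Lib.MP_8d161d_ag.SF.D1
import Pool.Agent.Lib.MP_8d161d_ag.Top

/-!
Forms of one degree: peeling off blocks.
-/

open MvPolynomial Module Filter Topology

namespace Pool.Agent.Lib.GGL.SF

lemma d2_one_notMem {n : ℕ} {I : Ideal (MvPolynomial (Fin (n + 1)) ℂ)} (hI : I.IsPrime) :
    (1 : MvPolynomial (Fin (n + 1)) ℂ) ∉ I := fun h =>
  hI.ne_top ((Ideal.eq_top_iff_one I).mpr h)

theorem one_degree (n N₀ ed : ℕ) (hed : 0 < ed) {ε : ℝ} (hε : 0 < ε) (hε1 : ε ≤ 1) :
    ∃ Q : ℕ, ∀ (I : Ideal (MvPolynomial (Fin (n + 1)) ℂ)), I.IsPrime → HomIdeal I →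
    ∀ (ι : Type) [Fintype ι] [DecidableEq ι] (P : ι → MvPolynomial (Fin (n + 1)) ℂ)
    (S : Finset ι),
    (∀ j ∈ S, (P j).IsHomogeneous ed) → (∀ j ∈ S, P j ∉ I) → (∀ j ∈ S, RedOn I (P j)) →
    (∀ y : Fin (n + 1) → ℂ, y ≠ 0 → (∀ g ∈ I, eval y g = 0) →
      ∀ S' ⊆ S, (∀ j ∈ S', eval y (P j) = 0) → S'.card ≤ N₀) →
    ∃ Δ : MvPolynomial (Fin (n + 1)) ℂ, Δ ∉ I ∧
      ∀ Y : ℂ → Fin (n + 1) → ℂ, CurveIn I Y → ¬ PropConst Y → (∃ z, eval (Y z) Δ ≠ 0) →
        SMTI P S ((1 - ε) * ed * S.card - Q) Y := by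
  classical
  obtain ⟨m, vv, hvv, hvq⟩ := exists_veronese n ed
  obtain ⟨Q₀, hQ₀⟩ := one_block n m N₀ ed hed hε hvv
  refine ⟨ed * Q₀, ?_⟩
  intro I hIp hI ι _ _ P S
  induction S using Finset.strongInduction with
  | H S ih =>
    intro hP hPI hrad hgp
    by_cases hcard : S.card < Q₀
    · refine ⟨1, d2_one_notMem hIp, ?_⟩
      intro Y hY _ _
      apply SMTI.nonpos _ hY.1 hY.2.1
      have h1 : ((S.card : ℕ) : ℝ) ≤ Q₀ := by exact_mod_cast hcard.le
      have h2 : (0 : ℝ) ≤ ed := by positivity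
      have h3 : (0 : ℝ) ≤ S.card := by positivity
      push_cast
      nlinarith [mul_nonneg h2 h3, mul_nonneg (mul_nonneg hε.le h2) h3,
        mul_le_mul_of_nonneg_left h1 h2]
    · push Not at hcard
      by_cases hzero : ∀ j ∈ S, ∃ y : Fin (n + 1) → ℂ, y ≠ 0 ∧ (∀ g ∈ I, eval y g = 0) ∧
          eval y (P j) = 0
      · choose q hq using fun j : S => hvq (P j) (hP j j.2)
        obtain ⟨J, Δ, hJ, hΔ, hmain⟩ := hQ₀ I hIp hI S (fun j => P j) q hq
          (fun j => hPI j j.2) (fun j => hrad j j.2)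
          (by
            intro y hy0 hy S' hS'
            have h1 := hgp y hy0 hy (S'.map ⟨Subtype.val, Subtype.val_injective⟩)
              (by
                intro j hj
                rw [Finset.mem_map] at hj
                obtain ⟨j', -, rfl⟩ := hj
                exact j'.2)
              (by
                intro j hj
                rw [Finset.mem_map] at hj
                obtain ⟨j', hj', rfl⟩ := hj
                exact hS' j' hj')
            rwa [Finset.card_map] at h1)
          (fun j => hzero j j.2) (by rw [Fintype.card_coe]; exact hcard)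
        obtain ⟨J', hJ'⟩ : ∃ J' : Finset ι, J' = J.map ⟨Subtype.val, Subtype.val_injective⟩ :=
          ⟨_, rfl⟩
        have hJ'S : J' ⊆ S := by
          intro j hj
          rw [hJ', Finset.mem_map] at hj
          obtain ⟨j', -, rfl⟩ := hj
          exact j'.2
        have hJ'ne : J'.Nonempty := by
          rw [hJ', Finset.map_nonempty]
          exact hJ
        have hss : S \ J' ⊂ S := Finset.sdiff_ssubset hJ'S hJ'ne
        have hsub : ∀ j ∈ S \ J', j ∈ S := fun j hj => (Finset.mem_sdiff.mp hj).1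
        obtain ⟨Δ', hΔ', hmain'⟩ := ih (S \ J') hss (fun j hj => hP j (hsub j hj))
          (fun j hj => hPI j (hsub j hj)) (fun j hj => hrad j (hsub j hj))
          (fun y hy0 hy S' hS' => hgp y hy0 hy S' (hS'.trans Finset.sdiff_subset))
        refine ⟨Δ * Δ', ?_, ?_⟩
        · intro h
          rcases hIp.mem_or_mem h with h1 | h1
          · exact hΔ h1
          · exact hΔ' h1
        · intro Y hY hYc ⟨z, hz⟩
          rw [map_mul] at hz
          have h1 := hmain Y hY hYc ⟨z, left_ne_zero_of_mul hz⟩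
          have h2 := hmain' Y hY hYc ⟨z, right_ne_zero_of_mul hz⟩
          have h3 : SMTI P J' ((1 - ε) * ed * J.card) Y := by
            rw [hJ']
            exact SMTI.map (P := P) ⟨Subtype.val, Subtype.val_injective⟩ h1
          have h4 := SMTI.union (Finset.disjoint_sdiff) h3 h2
          rw [Finset.union_sdiff_of_subset hJ'S] at h4
          have hcards : ((S \ J').card : ℝ) = S.card - J.card := by
            have h5 : (S \ J').card = S.card - J'.card := Finset.card_sdiff_of_subset hJ'S
            have h6 : J'.card ≤ S.card := Finset.card_le_card hJ'S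
            have h7 : J'.card = J.card := by rw [hJ', Finset.card_map]
            rw [h5, Nat.cast_sub h6, h7]
          have h8 : (1 - ε) * ed * (S.card : ℝ) - ((ed * Q₀ : ℕ) : ℝ) =
              (1 - ε) * ed * J.card + ((1 - ε) * ed * ((S \ J').card : ℝ) -
                ((ed * Q₀ : ℕ) : ℝ)) := by
            rw [hcards]
            ring
          rw [h8]
          exact h4
      · push Not at hzero
        obtain ⟨j, hj, hjz⟩ := hzero
        refine ⟨1, d2_one_notMem hIp, ?_⟩
        intro Y hY hYc _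
        exact absurd (propConst_of_noZero hed hI (hP j hj) (fun y hy0 hy => hjz y hy0 hy) hY) hYc

end Pool.Agent.Lib.GGL.SF
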