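import Mathlib
import Pool.Agent.Lib.MP_8d161d_ag.SF.D2

/-!
Forms of all degrees.
-/

open MvPolynomial Module Filter Topology

namespace Pool.Agent.Lib.GGL.SF

/-- a homogeneous multiple of a form that is not in the ideal -/
theorem exists_homogeneous_notMem {n : ℕ} {I : Ideal (MvPolynomial (Fin (n + 1)) ℂ)}
    (hI : HomIdeal I) {Δ : MvPolynomial (Fin (n + 1)) ℂ} (hΔ : Δ ∉ I) :
    ∃ (a : ℕ) (Δ' : MvPolynomial (Fin (n + 1)) ℂ), Δ'.IsHomogeneous a ∧ Δ' ∉ I ∧
      ∀ Y : ℂ → Fin (n + 1) → ℂ, CurveIn I Y → (∃ z, eval (Y z) Δ' ≠ 0) →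
        ∃ c : ℂ, c ≠ 0 ∧ ∃ z, eval (c • Y z) Δ ≠ 0 := by
  obtain ⟨d', hd'⟩ : ∃ d', homogeneousComponent d' Δ ∉ I := by
    by_contra hcon
    push Not at hcon
    apply hΔ
    rw [← sum_homogeneousComponent Δ]
    exact Ideal.sum_mem _ fun k _ => hcon k
  refine ⟨d', homogeneousComponent d' Δ, homogeneousComponent_isHomogeneous d' Δ, hd', ?_⟩
  rintro Y - ⟨z, hz⟩
  obtain ⟨c, hc, hcz⟩ := exists_scale hz
  exact ⟨c, hc, z, hcz⟩

/-- the counting function depends only on the zero set -/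
private lemma d3_count1_congr {h h' : ℂ → ℂ} (hh : ∀ z, h z = 0 ↔ h' z = 0) (r : ℝ) :
    SM.count1 h r = SM.count1 h' r := by
  have h1 : {z : ℂ | h z = 0 ∧ z ≠ 0 ∧ ‖z‖ ≤ r} = {z : ℂ | h' z = 0 ∧ z ≠ 0 ∧ ‖z‖ ≤ r} := by
    ext z
    simp only [Set.mem_ofPred_eq, hh z]
  unfold SM.count1
  rw [h1]
  congr 1
  by_cases h0 : h 0 = 0
  · rw [if_pos h0, if_pos ((hh 0).mp h0)]
  · rw [if_neg h0, if_neg fun h2 => h0 ((hh 0).mpr h2)]

private lemma d3_height_smul {n : ℕ} {Y : ℂ → Fin (n + 1) → ℂ} (hY : Differentiable ℂ Y)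
    (hY0 : ∀ z, Y z ≠ 0) {c : ℂ} (hc : c ≠ 0) {r : ℝ} (hr : 0 ≤ r) :
    SM.height (fun z => c • Y z) r = Real.log ‖c‖ + SM.height Y r := by
  unfold SM.height
  have h1 : (fun z => Real.log ‖c • Y z‖) =
      (fun _ => Real.log ‖c‖) + fun z => Real.log ‖Y z‖ := by
    funext z
    rw [Pi.add_apply, norm_smul, Real.log_mul (norm_ne_zero_iff.mpr hc)
      (norm_ne_zero_iff.mpr (hY0 z))]
  have h2 : Continuous fun z => Real.log ‖Y z‖ :=
    hY.continuous.norm.log fun z => norm_ne_zero_iff.mpr (hY0 z)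
  rw [h1, Real.circleAverage_add (circleIntegrable_const _ _ _)
    (h2.continuousOn.circleIntegrable hr), Real.circleAverage_const]

/-- scaling the curve -/
theorem SMTI.smul {n : ℕ} {ι : Type*} {P : ι → MvPolynomial (Fin (n + 1)) ℂ} {e : ι → ℕ}
    (hP : ∀ j, (P j).IsHomogeneous (e j)) {S : Finset ι} {A : ℝ} {Y : ℂ → Fin (n + 1) → ℂ}
    (hY : Differentiable ℂ Y) (hY0 : ∀ z, Y z ≠ 0) {c : ℂ} (hc : c ≠ 0)
    (h : SMTI P S A (fun z => c • Y z)) : SMTI P S A Y := by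
  obtain ⟨C, E, hC, hE, hb⟩ := h
  have hp0 : 0 ≤ Real.posLog (Real.log ‖c‖) := Real.posLog_nonneg
  have hl2 : 0 ≤ Real.log 2 := Real.log_nonneg (by norm_num)
  refine ⟨C * (1 + Real.posLog (Real.log ‖c‖) + Real.log 2) + |A * Real.log ‖c‖|, E,
    by positivity, hE, ?_⟩
  intro r hr hrE
  have h1 := hb r hr hrE
  rw [d3_height_smul hY hY0 hc (by linarith)] at h1
  have h2 : ∑ j ∈ S, SM.count1 (fun z => eval (c • Y z) (P j)) r =
      ∑ j ∈ S, SM.count1 (fun z => eval (Y z) (P j)) r := by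
    refine Finset.sum_congr rfl fun j _ => d3_count1_congr (fun z => ?_) r
    show eval (c • Y z) (P j) = 0 ↔ eval (Y z) (P j) = 0
    rw [eval_smul_of_homogeneous (hP j), mul_eq_zero]
    exact ⟨fun h3 => h3.resolve_left (pow_ne_zero _ hc), Or.inr⟩
  rw [h2] at h1
  have h3 : Real.posLog (Real.log ‖c‖ + SM.height Y r) ≤
      Real.log 2 + Real.posLog (Real.log ‖c‖) + Real.posLog (SM.height Y r) := Real.posLog_add
  have h4 : 0 ≤ Real.log r := Real.log_nonneg hr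
  have h5 : 0 ≤ Real.posLog (SM.height Y r) := Real.posLog_nonneg
  have h6 := abs_nonneg (A * Real.log ‖c‖)
  have h7 := neg_abs_le (A * Real.log ‖c‖)
  have h8 := mul_le_mul_of_nonneg_left h3 hC
  have h9 : 0 ≤ C * (Real.posLog (Real.log ‖c‖) + Real.log 2) *
      (Real.log r + Real.posLog (SM.height Y r)) := by positivity
  have h10 : 0 ≤ |A * Real.log ‖c‖| * (Real.log r + Real.posLog (SM.height Y r)) := by positivity
  nlinarith [h1, h7, h8, h9, h10]

private lemma d3_sum {n m : ℕ} {ι : Type} [DecidableEq ι]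
    {P : ι → MvPolynomial (Fin (n + 1)) ℂ} {e : ι → ℕ} {S : Finset ι}
    {a : ℕ → ℝ} {Y : ℂ → Fin (n + 1) → ℂ} (hY : Differentiable ℂ Y) (hY0 : ∀ z, Y z ≠ 0)
    (h : ∀ k < m, SMTI P (S.filter fun j => e j = k + 1) (a k) Y) :
    SMTI P (S.filter fun j => e j ≤ m) (∑ k ∈ Finset.range m, a k) Y := by
  induction m with
  | zero =>
    rw [Finset.range_zero, Finset.sum_empty]
    exact SMTI.nonpos le_rfl hY hY0
  | succ m ih =>
    have h1 := ih fun k hk => h k (hk.trans (Nat.lt_succ_self m))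
    have h2 := h m (Nat.lt_succ_self m)
    have h3 : (S.filter fun j => e j ≤ m + 1) =
        (S.filter fun j => e j ≤ m) ∪ (S.filter fun j => e j = m + 1) := by
      ext j
      simp only [Finset.mem_filter, Finset.mem_union]
      constructor
      · rintro ⟨h4, h5⟩
        rcases Nat.lt_or_ge m (e j) with h6 | h6
        · exact Or.inr ⟨h4, by omega⟩
        · exact Or.inl ⟨h4, h6⟩
      · rintro (⟨h4, h5⟩ | ⟨h4, h5⟩)
        · exact ⟨h4, by omega⟩
        · exact ⟨h4, by omega⟩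
    rw [h3, Finset.sum_range_succ]
    refine SMTI.union ?_ h1 h2
    rw [Finset.disjoint_left]
    intro j hj hj'
    rw [Finset.mem_filter] at hj hj'
    omega

/-- The second main theorem for all subfamilies. -/
theorem all_degrees (n d N₀ : ℕ) {ε : ℝ} (hε : 0 < ε) :
    ∃ Q : ℕ, ∀ (I : Ideal (MvPolynomial (Fin (n + 1)) ℂ)), I.IsPrime → HomIdeal I →
    ∀ (ι : Type) [Fintype ι] (P : ι → MvPolynomial (Fin (n + 1)) ℂ) (e : ι → ℕ),
    (∀ j, 1 ≤ e j) → (∀ j, e j ≤ d) → (∀ j, (P j).IsHomogeneous (e j)) →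
    (∀ j, RedOn I (P j)) →
    (∀ y : Fin (n + 1) → ℂ, y ≠ 0 → (∀ g ∈ I, eval y g = 0) →
      {j | eval y (P j) = 0}.ncard ≤ N₀) →
    ∃ (a : ℕ) (Δ : MvPolynomial (Fin (n + 1)) ℂ), Δ.IsHomogeneous a ∧ Δ ∉ I ∧
      (∀ j, P j ∉ I → P j ∣ Δ) ∧
      ∀ Y : ℂ → Fin (n + 1) → ℂ, CurveIn I Y → ¬ PropConst Y → (∃ z, eval (Y z) Δ ≠ 0) →
        ∀ S : Finset ι, SMTI P S ((1 - ε) * ∑ j ∈ S, (e j : ℝ) - Q) Y := by
  classical
  rcases lt_or_ge 1 ε with hε1 | hε1
  · refine ⟨0, ?_⟩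
    intro I hIp hI ι _ P e he1 hed heh hred hN
    refine ⟨∑ j ∈ Finset.univ.filter (fun j => P j ∉ I), e j,
      ∏ j ∈ Finset.univ.filter (fun j => P j ∉ I), P j,
      IsHomogeneous.prod _ _ _ fun j _ => heh j, ?_, ?_, ?_⟩
    · rw [hIp.prod_mem_iff]
      rintro ⟨j, hj, hj'⟩
      rw [Finset.mem_filter] at hj
      exact hj.2 hj'
    · intro j hj
      exact Finset.dvd_prod_of_mem _ (Finset.mem_filter.mpr ⟨Finset.mem_univ _, hj⟩)
    · intro Y hY _ _ S
      apply SMTI.nonpos _ hY.1 hY.2.1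
      have h1 : 0 ≤ ∑ j ∈ S, (e j : ℝ) := Finset.sum_nonneg fun j _ => Nat.cast_nonneg _
      push_cast
      nlinarith
  choose Q hQ using fun k : ℕ => one_degree n N₀ (k + 1) (Nat.succ_pos k) hε hε1
  refine ⟨∑ k ∈ Finset.range d, Q k + d * N₀, ?_⟩
  intro I hIp hI ι _ P e he1 hed heh hred hN
  have hN' : ∀ y : Fin (n + 1) → ℂ, y ≠ 0 → (∀ g ∈ I, eval y g = 0) →
      ∀ S : Finset ι, (∀ j ∈ S, eval y (P j) = 0) → S.card ≤ N₀ := by
    intro y hy0 hy S hS
    refine le_trans ?_ (hN y hy0 hy)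
    rw [← Set.ncard_coe_finset]
    apply Set.ncard_le_ncard _ (Set.toFinite _)
    intro j hj
    exact hS j hj
  have key : ∀ (S : Finset ι) (k : ℕ), ∃ (a : ℕ) (Δ : MvPolynomial (Fin (n + 1)) ℂ),
      Δ.IsHomogeneous a ∧ Δ ∉ I ∧
      ∀ Y : ℂ → Fin (n + 1) → ℂ, CurveIn I Y → ¬ PropConst Y → (∃ z, eval (Y z) Δ ≠ 0) →
        SMTI P ((S.filter fun j => P j ∉ I).filter fun j => e j = k + 1)
          ((1 - ε) * ((k + 1 : ℕ) : ℝ) *
            (((S.filter fun j => P j ∉ I).filter fun j => e j = k + 1).card : ℝ) - Q k) Y := by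
    intro S k
    obtain ⟨Δ₀, hΔ₀, hΔ₀s⟩ := hQ k I hIp hI ι P
      ((S.filter fun j => P j ∉ I).filter fun j => e j = k + 1)
      (by
        intro j hj
        rw [Finset.mem_filter] at hj
        have h1 := heh j
        rwa [hj.2] at h1)
      (by
        intro j hj
        rw [Finset.mem_filter, Finset.mem_filter] at hj
        exact hj.1.2)
      (fun j _ => hred j)
      (fun y hy0 hy S' _ hS' => hN' y hy0 hy S' hS')
    obtain ⟨a, Δ, hΔ, hΔI, hΔs⟩ := exists_homogeneous_notMem hI hΔ₀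
    refine ⟨a, Δ, hΔ, hΔI, ?_⟩
    intro Y hY hYc hYΔ
    obtain ⟨c, hc, hcz⟩ := hΔs Y hY hYΔ
    have hYc' : CurveIn I fun z => c • Y z := by
      refine ⟨hY.1.const_smul c, fun z => smul_ne_zero hc (hY.2.1 z), fun z => ?_⟩
      exact eval_smul_mem_zero hI (hY.2.2 z) c
    refine SMTI.smul heh hY.1 hY.2.1 hc (hΔ₀s _ hYc' ?_ hcz)
    intro hp
    apply hYc
    intro z w
    obtain ⟨c', hc', hcc⟩ := hp z w
    refine ⟨c', hc', ?_⟩
    have h1 : c • Y z = c • (c' • Y w) := by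
      have h2 : c • Y z = c' • c • Y w := hcc
      rw [h2, smul_comm]
    exact smul_right_injective _ hc h1
  choose a Δ hΔ hΔI hΔs using key
  refine ⟨∑ p ∈ (Finset.univ : Finset (Finset ι)) ×ˢ Finset.range d, a p.1 p.2 +
      ∑ j ∈ Finset.univ.filter (fun j => P j ∉ I), e j,
    (∏ p ∈ (Finset.univ : Finset (Finset ι)) ×ˢ Finset.range d, Δ p.1 p.2) *
      ∏ j ∈ Finset.univ.filter (fun j => P j ∉ I), P j, ?_, ?_, ?_, ?_⟩
  · exact (IsHomogeneous.prod _ _ _ fun p _ => hΔ p.1 p.2).mul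
      (IsHomogeneous.prod _ _ _ fun j _ => heh j)
  · intro h1
    rcases hIp.mem_or_mem h1 with h2 | h2
    · rw [hIp.prod_mem_iff] at h2
      obtain ⟨p, _, hp⟩ := h2
      exact hΔI p.1 p.2 hp
    · rw [hIp.prod_mem_iff] at h2
      obtain ⟨j, hj, hj'⟩ := h2
      rw [Finset.mem_filter] at hj
      exact hj.2 hj'
  · intro j hj
    exact Dvd.dvd.mul_left (Finset.dvd_prod_of_mem P
      (Finset.mem_filter.mpr ⟨Finset.mem_univ j, hj⟩)) _
  · intro Y hY hYc hYΔ S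
    obtain ⟨z, hz⟩ := hYΔ
    rw [map_mul, map_prod] at hz
    have hz1 := left_ne_zero_of_mul hz
    rw [Finset.prod_ne_zero_iff] at hz1
    have h1 : SMTI P ((S.filter fun j => P j ∉ I).filter fun j => e j ≤ d)
        (∑ k ∈ Finset.range d, ((1 - ε) * ((k + 1 : ℕ) : ℝ) *
            (((S.filter fun j => P j ∉ I).filter fun j => e j = k + 1).card : ℝ) - Q k)) Y := by
      apply d3_sum hY.1 hY.2.1
      intro k hk
      exact hΔs S k Y hY hYc ⟨z, hz1 (S, k) (Finset.mem_product.mpr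
        ⟨Finset.mem_univ _, Finset.mem_range.mpr hk⟩)⟩
    refine SMTI.mono ((Finset.filter_subset _ _).trans (Finset.filter_subset _ _)) ?_
      hY.1 hY.2.1 h1
    have hbad : ((S.filter fun j => P j ∈ I).card : ℝ) ≤ N₀ := by
      have h2 := hN' (Y 0) (hY.2.1 0) (hY.2.2 0) (S.filter fun j => P j ∈ I) (by
        intro j hj
        rw [Finset.mem_filter] at hj
        exact hY.2.2 0 _ hj.2)
      exact_mod_cast h2
    have h3 : ∑ j ∈ S, (e j : ℝ) = ∑ j ∈ S.filter (fun j => P j ∈ I), (e j : ℝ) +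
        ∑ j ∈ S.filter (fun j => P j ∉ I), (e j : ℝ) :=
      (Finset.sum_filter_add_sum_filter_not S _ _).symm
    have h4 : ∑ j ∈ S.filter (fun j => P j ∈ I), (e j : ℝ) ≤ d * N₀ := by
      calc ∑ j ∈ S.filter (fun j => P j ∈ I), (e j : ℝ)
          ≤ ∑ j ∈ S.filter (fun j => P j ∈ I), (d : ℝ) :=
            Finset.sum_le_sum fun j _ => Nat.cast_le.mpr (hed j)
        _ = (S.filter fun j => P j ∈ I).card * (d : ℝ) := by
            rw [Finset.sum_const, nsmul_eq_mul]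
        _ ≤ N₀ * d := mul_le_mul_of_nonneg_right hbad (Nat.cast_nonneg _)
        _ = d * N₀ := mul_comm _ _
    have h5 : ∑ j ∈ S.filter (fun j => P j ∉ I), (e j : ℝ) =
        ∑ k ∈ Finset.range d, ((k + 1 : ℕ) : ℝ) *
          (((S.filter fun j => P j ∉ I).filter fun j => e j = k + 1).card : ℝ) := by
      rw [← Finset.sum_fiberwise_of_maps_to (s := S.filter fun j => P j ∉ I)
        (t := Finset.range d) (g := fun j => e j - 1) (by
          intro j _
          rw [Finset.mem_range]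
          have := he1 j
          have := hed j
          omega)]
      refine Finset.sum_congr rfl fun k _ => ?_
      have h6 : ((S.filter fun j => P j ∉ I).filter fun j => e j - 1 = k) =
          ((S.filter fun j => P j ∉ I).filter fun j => e j = k + 1) := by
        refine Finset.filter_congr fun j _ => ?_
        have := he1 j
        omega
      rw [h6, Finset.sum_congr rfl (g := fun _ => ((k + 1 : ℕ) : ℝ)) (by
        intro j hj
        rw [Finset.mem_filter] at hj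
        rw [hj.2]), Finset.sum_const, nsmul_eq_mul, mul_comm]
    have h7 : ∑ k ∈ Finset.range d, ((1 - ε) * ((k + 1 : ℕ) : ℝ) *
        (((S.filter fun j => P j ∉ I).filter fun j => e j = k + 1).card : ℝ) - Q k) =
        (1 - ε) * (∑ j ∈ S.filter (fun j => P j ∉ I), (e j : ℝ)) -
          ∑ k ∈ Finset.range d, (Q k : ℝ) := by
      rw [Finset.sum_sub_distrib, h5, Finset.mul_sum]
      congr 1
      exact Finset.sum_congr rfl fun k _ => mul_assoc _ _ _
    have h8 : 0 ≤ ∑ j ∈ S.filter (fun j => P j ∈ I), (e j : ℝ) :=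
      Finset.sum_nonneg fun j _ => Nat.cast_nonneg _
    rw [h7, h3]
    push_cast
    nlinarith [mul_nonneg hε.le h8]

end Pool.Agent.Lib.GGL.SF
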