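import Mathlib
import Pool.Agent.Lib.MP_8d161d_ag.SF.D3
import Pool.Agent.Lib.MP_8d161d_ag.SM.C5

/-!
Curves that are ramified over the forms.
-/

open MvPolynomial Module Filter Topology

namespace Pool.Agent.Lib.GGL.SF

theorem d4_differentiable {n : ℕ} {Y : ℂ → Fin (n + 1) → ℂ} (hY : Differentiable ℂ Y)
    (P : MvPolynomial (Fin (n + 1)) ℂ) : Differentiable ℂ fun z => eval (Y z) P := by
  have hYi : ∀ i, Differentiable ℂ fun z => Y z i := fun i => (differentiable_pi.mp hY) i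
  induction P using MvPolynomial.induction_on with
  | C a => simp only [eval_C]; exact differentiable_const _
  | add p q hp hq => simp only [map_add]; exact hp.add hq
  | mul_X p i hp => simp only [map_mul, eval_X]; exact hp.mul (hYi i)

/-- a value that is not zero, on the image of the exponential function -/
theorem d4_exists_exp {h : ℂ → ℂ} (hh : Differentiable ℂ h) (hne : ∃ z, h z ≠ 0) :
    ∃ z, h (Complex.exp z) ≠ 0 := by
  by_contra hcon
  push Not at hcon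
  obtain ⟨z, hz⟩ := hne
  apply hz
  have h2 : h = fun _ => 0 :=
    Continuous.ext_on (s := {(0 : ℂ)}ᶜ) (dense_compl_singleton (0 : ℂ))
      hh.continuous continuous_const (fun z hz => by
        have := hcon (Complex.log z)
        rwa [Complex.exp_log hz] at this)
  exact congrFun h2 z

theorem d4_propConst {n : ℕ} {Y : ℂ → Fin (n + 1) → ℂ} (h0 : ∀ z, Y z ≠ 0)
    (h : SM.IsConst Y) : PropConst Y := by
  intro z w
  obtain ⟨c, hc⟩ := h z w
  refine ⟨c, ?_, hc⟩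
  rintro rfl
  apply h0 z
  rw [hc, zero_smul]

/-- A curve that is sufficiently ramified is constant. -/
theorem propConst_of_ramified {n Q : ℕ} {ε : ℝ} {I : Ideal (MvPolynomial (Fin (n + 1)) ℂ)}
    {ι : Type} [Fintype ι] {P : ι → MvPolynomial (Fin (n + 1)) ℂ} {e : ι → ℕ}
    (he : ∀ j, 1 ≤ e j) (hP : ∀ j, (P j).IsHomogeneous (e j))
    {Δ : MvPolynomial (Fin (n + 1)) ℂ} {S : Finset ι} (hPΔ : ∀ j ∈ S, P j ∉ I → P j ∣ Δ)
    {N₀ : ℕ} (hgp : ∀ y : Fin (n + 1) → ℂ, y ≠ 0 → (∀ g ∈ I, eval y g = 0) →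
      {j | eval y (P j) = 0}.ncard ≤ N₀)
    (hΔ : ∀ Y : ℂ → Fin (n + 1) → ℂ, CurveIn I Y → ¬ PropConst Y → (∃ z, eval (Y z) Δ ≠ 0) →
      SMTI P S ((1 - ε) * ∑ j ∈ S, (e j : ℝ) - Q) Y)
    {m : ι → ℕ} (hm : ∀ j ∈ S, 1 ≤ m j)
    (hSI : ∀ j ∈ S, P j ∉ I)
    (hlarge : (Q : ℝ) < ∑ j ∈ S, (1 - 1 / (m j : ℝ) - ε) * e j)
    {Y : ℂ → Fin (n + 1) → ℂ} (hY : CurveIn I Y) (hYΔ : ∃ z, eval (Y z) Δ ≠ 0)
    (hord : ∀ j ∈ S, ∀ z, analyticOrderAt (fun z => eval (Y z) (P j)) z = 0 ∨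
      (m j : ℕ∞) ≤ analyticOrderAt (fun z => eval (Y z) (P j)) z) : PropConst Y := by
  classical
  by_contra hnp
  obtain ⟨hYd, h0, hYI⟩ := id hY
  have hnc : ¬ SM.IsConst Y := fun h => hnp (d4_propConst h0 h)
  have hYe : Differentiable ℂ fun z => Y (Complex.exp z) := hYd.comp Complex.differentiable_exp
  have hcur : CurveIn I fun z => Y (Complex.exp z) := ⟨hYe, fun z => h0 _, fun z => hYI _⟩
  have hnp' : ¬ PropConst fun z => Y (Complex.exp z) := by
    intro h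
    apply hnc
    apply SM.isConst_of_exp hYd h0
    intro z w
    obtain ⟨c, -, hc⟩ := h z w
    exact ⟨c, hc⟩
  have hne : ∀ F : MvPolynomial (Fin (n + 1)) ℂ, (∃ z, eval (Y z) F ≠ 0) →
      ∃ z, eval (Y (Complex.exp z)) F ≠ 0 := fun F hF =>
    d4_exists_exp (h := fun z => eval (Y z) F) (d4_differentiable hYd F) hF
  have hneP : ∀ j ∈ S, ∃ z, eval (Y (Complex.exp z)) (P j) ≠ 0 := by
    intro j hj
    apply hne
    obtain ⟨z, hz⟩ := hYΔ
    obtain ⟨U, hU⟩ := hPΔ j hj (hSI j hj)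
    refine ⟨z, fun h => hz ?_⟩
    rw [hU, map_mul, h, zero_mul]
  obtain ⟨C, E, hC, hE, hsmt⟩ := hΔ _ hcur hnp' (hne Δ hYΔ)
  obtain ⟨c, C₁, hc, hgrow⟩ := SM.height_exp hYd h0 hnc
  have hcount : ∀ j, ∃ C : ℝ, j ∈ S → ∀ r : ℝ, 1 ≤ r →
      SM.count1 (fun z => eval (Y (Complex.exp z)) (P j)) r ≤
        (e j : ℝ) / m j * SM.height (fun z => Y (Complex.exp z)) r + C := by
    intro j
    by_cases hj : j ∈ S
    · obtain ⟨C, hC⟩ := count_mult (hm j hj) hYe (fun z => h0 _) (hP j) (hneP j hj) (by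
        intro z
        have h1 := SM.order_exp (h := fun z => eval (Y z) (P j)) (d4_differentiable hYd (P j)) z
        have h2 := hord j hj (Complex.exp z)
        rw [← h1] at h2
        exact h2)
      exact ⟨C, fun _ => hC⟩
    · exact ⟨0, fun h => absurd h hj⟩
  choose K hK using hcount
  have hN : (0 : ℝ) < ∑ j ∈ S, (1 - 1 / (m j : ℝ) - ε) * e j - Q := sub_pos.2 hlarge
  refine SM.growth_contradiction (C' := |∑ j ∈ S, K j| + C) hc hN hgrow hE ?_
  intro r hr hrE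
  have h1 := hsmt r hr hrE
  have h2 : ∑ j ∈ S, SM.count1 (fun z => eval (Y (Complex.exp z)) (P j)) r ≤
      ∑ j ∈ S, ((e j : ℝ) / m j * SM.height (fun z => Y (Complex.exp z)) r + K j) :=
    Finset.sum_le_sum fun j hj => hK j hj r hr
  rw [Finset.sum_add_distrib, ← Finset.sum_mul] at h2
  obtain ⟨T, hT⟩ : ∃ T, T = SM.height (fun z => Y (Complex.exp z)) r := ⟨_, rfl⟩
  rw [← hT] at h1 h2 ⊢
  have hX : 0 ≤ Real.log r + Real.posLog T :=
    add_nonneg (Real.log_nonneg hr) Real.posLog_nonneg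
  have h3 : ∑ j ∈ S, (1 - 1 / (m j : ℝ) - ε) * e j =
      (1 - ε) * ∑ j ∈ S, (e j : ℝ) - ∑ j ∈ S, (e j : ℝ) / m j := by
    rw [Finset.mul_sum, ← Finset.sum_sub_distrib]
    refine Finset.sum_congr rfl fun j _ => ?_
    ring
  have h4 : ∑ j ∈ S, K j ≤ |∑ j ∈ S, K j| * (Real.log r + Real.posLog T + 1) := by
    have h5 := le_abs_self (∑ j ∈ S, K j)
    have h6 := abs_nonneg (∑ j ∈ S, K j)
    nlinarith
  rw [h3]
  calc ((1 - ε) * ∑ j ∈ S, (e j : ℝ) - ∑ j ∈ S, (e j : ℝ) / m j - Q) * T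
      = ((1 - ε) * ∑ j ∈ S, (e j : ℝ) - Q) * T - (∑ j ∈ S, (e j : ℝ) / m j) * T := by ring
    _ ≤ ∑ j ∈ S, K j + C * (Real.log r + Real.posLog T + 1) := by linarith
    _ ≤ (|∑ j ∈ S, K j| + C) * (Real.log r + Real.posLog T + 1) := by
        rw [add_mul]
        linarith

end Pool.Agent.Lib.GGL.SF
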