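import Mathlib
import Pool.Agent.Lib.MP_8d161d_ag.SF.D4

/-!
Curves that are ramified over the product of the forms.
-/

open MvPolynomial Module Filter Topology

namespace Pool.Agent.Lib.GGL.SF

/-- Counting functions and orders: the weighted comparison. -/
theorem count_weights {ι : Type*} [Fintype ι] {m k : ℕ} {h : ι → ℂ → ℂ}
    (hh : ∀ j, Differentiable ℂ (h j)) (hne : ∀ j, ∃ z, h j z ≠ 0)
    (hord : ∀ z, m * {j | h j z = 0}.ncard ≤ k * ∑ j, analyticOrderNatAt (h j) z) :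
    ∃ C : ℝ, ∀ r : ℝ, 1 ≤ r → m * ∑ j, SM.count1 (h j) r ≤
      k * ∑ j, Real.circleAverage (fun z => Real.log ‖h j z‖) 0 r + C := by
  classical
  let c : ι → ℝ := fun j => Real.log ‖meromorphicTrailingCoeffAt (h j) 0‖
  refine ⟨- (k * ∑ j, c j), fun r hr => ?_⟩
  let T : ι → Finset ℂ := fun j => (SM.zeros_finite (hh j) (hne j) r).toFinset
  let Z : Finset ℂ := Finset.univ.biUnion T
  have hT : ∀ j u, u ∈ T j ↔ h j u = 0 ∧ ‖u‖ ≤ r := by
    intro j u
    rw [Set.Finite.mem_toFinset]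
    constructor
    · rintro ⟨h1, h2⟩
      exact ⟨h1, mem_closedBall_zero_iff.1 h2⟩
    · rintro ⟨h1, h2⟩
      exact ⟨h1, mem_closedBall_zero_iff.2 h2⟩
  have hTZ : ∀ j, T j ⊆ Z := fun j => Finset.subset_biUnion_of_mem T (Finset.mem_univ j)
  have hZr : ∀ u ∈ Z, ‖u‖ ≤ r := by
    intro u hu
    obtain ⟨j, -, hj⟩ := Finset.mem_biUnion.1 hu
    exact ((hT j u).1 hj).2
  have hcount : ∀ j, SM.count1 (h j) r =
      ∑ u ∈ Z, (if h j u = 0 then (1 : ℝ) else 0) * SM.c3a_L r u := by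
    intro j
    rw [SM.c3a_count1 (hh j) (hne j) hr]
    have h1 : ∑ u ∈ (SM.zeros_finite (hh j) (hne j) r).toFinset, SM.c3a_L r u =
        ∑ u ∈ T j, (if h j u = 0 then (1 : ℝ) else 0) * SM.c3a_L r u := by
      refine Finset.sum_congr rfl fun u hu => ?_
      rw [if_pos ((hT j u).1 hu).1, one_mul]
    rw [h1]
    refine Finset.sum_subset (hTZ j) fun u hu hu' => ?_
    rw [if_neg, zero_mul]
    intro h2
    exact hu' ((hT j u).2 ⟨h2, hZr u hu⟩)
  have havg : ∀ j, Real.circleAverage (fun z => Real.log ‖h j z‖) 0 r =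
      ∑ u ∈ Z, (analyticOrderNatAt (h j) u : ℝ) * SM.c3a_L r u + c j := by
    intro j
    rw [SM.e4_jensen (hh j) (hne j) hr]
    congr 1
    refine Finset.sum_subset (hTZ j) fun u hu hu' => ?_
    have h2 : h j u ≠ 0 := fun h2 => hu' ((hT j u).2 ⟨h2, hZr u hu⟩)
    have h3 : analyticOrderNatAt (h j) u = 0 := by
      rw [analyticOrderNatAt, ((hh j).analyticAt u).analyticOrderAt_eq_zero.mpr h2]
      rfl
    rw [h3]
    simp
  have h1 : m * ∑ j, SM.count1 (h j) r =
      ∑ u ∈ Z, ((m * {j | h j u = 0}.ncard : ℕ) : ℝ) * SM.c3a_L r u := by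
    rw [Finset.sum_congr rfl fun j _ => hcount j, Finset.sum_comm, Finset.mul_sum]
    refine Finset.sum_congr rfl fun u _ => ?_
    rw [← Finset.sum_mul, ← mul_assoc]
    congr 1
    rw [Finset.sum_boole, Nat.cast_mul]
    congr 2
    rw [← Set.ncard_coe_finset]
    congr 1
    ext j
    simp
  have h2 : k * ∑ j, Real.circleAverage (fun z => Real.log ‖h j z‖) 0 r =
      ∑ u ∈ Z, ((k * ∑ j, analyticOrderNatAt (h j) u : ℕ) : ℝ) * SM.c3a_L r u +
        k * ∑ j, c j := by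
    rw [Finset.sum_congr rfl fun j _ => havg j, Finset.sum_add_distrib, Finset.sum_comm, mul_add,
      Finset.mul_sum]
    congr 1
    refine Finset.sum_congr rfl fun u _ => ?_
    rw [← Finset.sum_mul, ← mul_assoc]
    congr 1
    push_cast
    rfl
  rw [h1, h2, add_assoc, add_neg_cancel, add_zero]
  refine Finset.sum_le_sum fun u hu => ?_
  apply mul_le_mul_of_nonneg_right _ (SM.c3a_L_nonneg hr (hZr u hu))
  exact_mod_cast hord u

/-- the order of a product -/
lemma d5_order_prod {ι : Type*} (S : Finset ι) {h : ι → ℂ → ℂ} {z : ℂ}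
    (hh : ∀ j ∈ S, AnalyticAt ℂ (h j) z) :
    AnalyticAt ℂ (fun w => ∏ j ∈ S, h j w) z ∧
    analyticOrderAt (fun w => ∏ j ∈ S, h j w) z = ∑ j ∈ S, analyticOrderAt (h j) z := by
  classical
  induction S using Finset.induction_on with
  | empty =>
    simp only [Finset.prod_empty, Finset.sum_empty]
    refine ⟨analyticAt_const, ?_⟩
    rw [AnalyticAt.analyticOrderAt_eq_zero analyticAt_const]
    exact one_ne_zero
  | insert a S ha ih =>
    obtain ⟨h1, h2⟩ := ih fun j hj => hh j (Finset.mem_insert_of_mem hj)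
    have h3 : (fun w => ∏ j ∈ insert a S, h j w) = h a * fun w => ∏ j ∈ S, h j w := by
      funext w
      rw [Finset.prod_insert ha, Pi.mul_apply]
    have h4 := hh a (Finset.mem_insert_self a S)
    rw [h3]
    refine ⟨h4.mul h1, ?_⟩
    rw [analyticOrderAt_mul h4 h1, h2, Finset.sum_insert ha]

/-- A curve that is sufficiently ramified over the product of the forms is constant. -/
theorem propConst_of_product {n Q N₀ m : ℕ} {ε : ℝ} {I : Ideal (MvPolynomial (Fin (n + 1)) ℂ)}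
    {ι : Type} [Fintype ι] {P : ι → MvPolynomial (Fin (n + 1)) ℂ} {e : ι → ℕ}
    (hP : ∀ j, (P j).IsHomogeneous (e j))
    {Δ : MvPolynomial (Fin (n + 1)) ℂ} {S : Finset ι} (hPΔ : ∀ j ∈ S, P j ∣ Δ)
    (hgp : ∀ y : Fin (n + 1) → ℂ, y ≠ 0 → (∀ g ∈ I, eval y g = 0) →
      {j | eval y (P j) = 0}.ncard ≤ N₀)
    (hΔ : ∀ Y : ℂ → Fin (n + 1) → ℂ, CurveIn I Y → ¬ PropConst Y → (∃ z, eval (Y z) Δ ≠ 0) →
      SMTI P S ((1 - ε) * ∑ j ∈ S, (e j : ℝ) - Q) Y)
    (hm : 1 ≤ m) (hlarge : (Q : ℝ) < (1 - N₀ / (m : ℝ) - ε) * ∑ j ∈ S, (e j : ℝ))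
    {Y : ℂ → Fin (n + 1) → ℂ} (hY : CurveIn I Y) (hYΔ : ∃ z, eval (Y z) Δ ≠ 0)
    (hord : ∀ z, analyticOrderAt (fun z => eval (Y z) (∏ j ∈ S, P j)) z = 0 ∨
      (m : ℕ∞) ≤ analyticOrderAt (fun z => eval (Y z) (∏ j ∈ S, P j)) z) : PropConst Y := by
  classical
  by_contra hnp
  obtain ⟨hYd, h0, hYI⟩ := id hY
  have hnc : ¬ SM.IsConst Y := fun h => hnp (d4_propConst h0 h)
  have hYe : Differentiable ℂ fun z => Y (Complex.exp z) := hYd.comp Complex.differentiable_exp
  have hcur : CurveIn I fun z => Y (Complex.exp z) := ⟨hYe, fun z => h0 _, fun z => hYI _⟩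
  have hnp' : ¬ PropConst fun z => Y (Complex.exp z) := by
    intro h
    apply hnc
    apply SM.isConst_of_exp hYd h0
    intro z w
    obtain ⟨c, -, hc⟩ := h z w
    exact ⟨c, hc⟩
  have hne : ∀ F : MvPolynomial (Fin (n + 1)) ℂ, (∃ z, eval (Y z) F ≠ 0) →
      ∃ z, eval (Y (Complex.exp z)) F ≠ 0 := fun F hF =>
    d4_exists_exp (h := fun z => eval (Y z) F) (d4_differentiable hYd F) hF
  have hneP : ∀ j : S, ∃ z, eval (Y (Complex.exp z)) (P j) ≠ 0 := by
    intro j
    apply hne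
    obtain ⟨z, hz⟩ := hYΔ
    obtain ⟨U, hU⟩ := hPΔ j j.2
    refine ⟨z, fun h => hz ?_⟩
    rw [hU, map_mul, h, zero_mul]
  obtain ⟨C, E, hC, hE, hsmt⟩ := hΔ _ hcur hnp' (hne Δ hYΔ)
  obtain ⟨c, C₁, hc, hgrow⟩ := SM.height_exp hYd h0 hnc
  have hdiff : ∀ j : S, Differentiable ℂ fun z => eval (Y (Complex.exp z)) (P j) := fun j =>
    d4_differentiable hYe (P j)
  obtain ⟨C₂, hC₂⟩ := count_weights (m := m) (k := N₀) hdiff hneP (by
    intro z
    by_cases hz : ∃ j : S, eval (Y (Complex.exp z)) (P j) = 0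
    · obtain ⟨j₀, hj₀⟩ := hz
      have h1 : analyticOrderAt (fun z => eval (Y (Complex.exp z)) (∏ j ∈ S, P j)) z =
          ∑ j ∈ S, analyticOrderAt (fun z => eval (Y (Complex.exp z)) (P j)) z := by
        have h2 : (fun z => eval (Y (Complex.exp z)) (∏ j ∈ S, P j)) =
            fun z => ∏ j ∈ S, eval (Y (Complex.exp z)) (P j) := by
          funext z
          rw [map_prod]
        rw [h2]
        exact (d5_order_prod S fun j _ => (d4_differentiable hYe (P j)).analyticAt z).2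
      have h3 := SM.order_exp (h := fun z => eval (Y z) (∏ j ∈ S, P j))
        (d4_differentiable hYd _) z
      have h4 : (m : ℕ∞) ≤
          analyticOrderAt (fun z => eval (Y (Complex.exp z)) (∏ j ∈ S, P j)) z := by
        rcases hord (Complex.exp z) with h5 | h5
        · exfalso
          rw [← h3, AnalyticAt.analyticOrderAt_eq_zero
            ((d4_differentiable hYe (∏ j ∈ S, P j)).analyticAt z)] at h5
          apply h5
          rw [map_prod]
          exact Finset.prod_eq_zero j₀.2 hj₀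
        · rw [← h3] at h5
          exact h5
      have h6 : ∑ j ∈ S, analyticOrderAt (fun z => eval (Y (Complex.exp z)) (P j)) z =
          ((∑ j : S, analyticOrderNatAt (fun z => eval (Y (Complex.exp z)) (P j)) z : ℕ) : ℕ∞) := by
        rw [← Finset.sum_coe_sort, Nat.cast_sum]
        refine Finset.sum_congr rfl fun j _ => ?_
        rw [Nat.cast_analyticOrderNatAt]
        exact SM.e4_order_ne_top (hdiff j) (hneP j) z
      rw [h1, h6, Nat.cast_le] at h4
      have h7 : {j : S | eval (Y (Complex.exp z)) (P j) = 0}.ncard ≤ N₀ := by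
        refine le_trans ?_ (hgp _ (h0 (Complex.exp z)) (hYI (Complex.exp z)))
        rw [← Set.ncard_image_of_injective _ Subtype.val_injective]
        apply Set.ncard_le_ncard _ (Set.toFinite _)
        rintro _ ⟨j, hj, rfl⟩
        exact hj
      calc m * {j : S | eval (Y (Complex.exp z)) (P j) = 0}.ncard ≤ m * N₀ :=
            Nat.mul_le_mul_left _ h7
        _ = N₀ * m := Nat.mul_comm _ _
        _ ≤ _ := Nat.mul_le_mul_left _ h4
    · push Not at hz
      have h1 : {j : S | eval (Y (Complex.exp z)) (P j) = 0} = ∅ := by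
        ext j
        simp only [Set.mem_ofPred_eq, Set.mem_empty_iff_false, iff_false]
        exact hz j
      rw [h1, Set.ncard_empty, Nat.mul_zero]
      exact bot_le)
  have havg : ∀ j : S, ∃ C : ℝ, ∀ r : ℝ, 1 ≤ r →
      Real.circleAverage (fun z => Real.log ‖eval (Y (Complex.exp z)) (P j)‖) 0 r ≤
        e j * SM.height (fun z => Y (Complex.exp z)) r + C := fun j =>
    d0_average hYe (fun z => h0 _) (hP j) (hdiff j) (hneP j)
  choose K hK using havg
  have hm0 : (0 : ℝ) < m := by exact_mod_cast hm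
  have hN : (0 : ℝ) < (1 - N₀ / (m : ℝ) - ε) * ∑ j ∈ S, (e j : ℝ) - Q := sub_pos.2 hlarge
  obtain ⟨C₃, hC₃⟩ : ∃ C₃ : ℝ, C₃ = (N₀ * ∑ j, K j + C₂) / m := ⟨_, rfl⟩
  refine SM.growth_contradiction (C' := |C₃| + C) hc hN hgrow hE ?_
  intro r hr hrE
  have h1 := hsmt r hr hrE
  obtain ⟨T, hT⟩ : ∃ T, T = SM.height (fun z => Y (Complex.exp z)) r := ⟨_, rfl⟩
  have h2 : ∑ j ∈ S, SM.count1 (fun z => eval (Y (Complex.exp z)) (P j)) r ≤
      N₀ / (m : ℝ) * (∑ j ∈ S, (e j : ℝ)) * T + C₃ := by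
    have h3 := hC₂ r hr
    have h4 : (N₀ : ℝ) * ∑ j : S, Real.circleAverage
        (fun z => Real.log ‖eval (Y (Complex.exp z)) (P j)‖) 0 r ≤
        N₀ * ∑ j : S, ((e j : ℝ) * T + K j) := by
      apply mul_le_mul_of_nonneg_left _ (Nat.cast_nonneg _)
      rw [hT]
      exact Finset.sum_le_sum fun j _ => hK j r hr
    rw [Finset.sum_add_distrib, ← Finset.sum_mul] at h4
    have h5 : ∑ j : S, (e j : ℝ) = ∑ j ∈ S, (e j : ℝ) := Finset.sum_coe_sort S fun j => (e j : ℝ)
    rw [h5] at h4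
    have h6 : ∑ j ∈ S, SM.count1 (fun z => eval (Y (Complex.exp z)) (P j)) r =
        ∑ j : S, SM.count1 (fun z => eval (Y (Complex.exp z)) (P j)) r :=
      (Finset.sum_coe_sort S fun j => SM.count1 (fun z => eval (Y (Complex.exp z)) (P j)) r).symm
    rw [h6, hC₃, div_mul_eq_mul_div, div_mul_eq_mul_div, ← add_div, le_div_iff₀ hm0, mul_comm]
    calc (m : ℝ) * ∑ j : S, SM.count1 (fun z => eval (Y (Complex.exp z)) (P j)) r
        ≤ _ := h3
      _ ≤ N₀ * ((∑ j ∈ S, (e j : ℝ)) * T + ∑ j, K j) + C₂ := by linarith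
      _ = _ := by ring
  rw [← hT] at h1 ⊢
  have hX : 0 ≤ Real.log r + Real.posLog T :=
    add_nonneg (Real.log_nonneg hr) Real.posLog_nonneg
  have h4 : C₃ ≤ |C₃| * (Real.log r + Real.posLog T + 1) := by
    have h5 := le_abs_self C₃
    have h6 := abs_nonneg C₃
    nlinarith
  calc ((1 - N₀ / (m : ℝ) - ε) * ∑ j ∈ S, (e j : ℝ) - Q) * T
      = ((1 - ε) * ∑ j ∈ S, (e j : ℝ) - Q) * T - N₀ / (m : ℝ) * (∑ j ∈ S, (e j : ℝ)) * T := by
        ring
    _ ≤ C₃ + C * (Real.log r + Real.posLog T + 1) := by linarith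
    _ ≤ (|C₃| + C) * (Real.log r + Real.posLog T + 1) := by
        rw [add_mul]
        linarith

end Pool.Agent.Lib.GGL.SF
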